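import Pool.Agent.K9h30.AL.Gen

/-!
# MP_c605fa_an, Q1 for all degrees: `∫ Q > 0` for even degree `≥ 8` (helper30)
-/

set_option autoImplicit false

open Polynomial intervalIntegral

namespace Pool.Agent.K9h30.AL

theorem M_bds8 {N : ℕ} (hN : 8 ≤ N) : (N : ℝ) ^ 2 * M N ^ 4 ≤ (2 * N + 1) * (1 / 225) := by
  induction N, hN using Nat.le_induction with
  | base => rw [M_eight]; norm_num
  | succ n hn ih =>
    have hn' : (8 : ℝ) ≤ n := by exact_mod_cast hn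
    have hM := M_pos n
    have hr := ratio_le (by omega : 7 ≤ n)
    have hr0 : 0 ≤ ((n : ℝ) + 2) / (2 * n + 1) := by positivity
    rw [M_succ]
    set r := ((n : ℝ) + 2) / (2 * n + 1) with hrdef
    push_cast
    have hr3 : r ^ 4 ≤ (3 / 5) ^ 4 := by gcongr
    calc ((n : ℝ) + 1) ^ 2 * (M n * r) ^ 4 = ((n : ℝ) + 1) ^ 2 * M n ^ 4 * r ^ 4 := by ring
      _ ≤ ((n : ℝ) + 1) ^ 2 * M n ^ 4 * (3 / 5) ^ 4 := by gcongr
      _ ≤ (n : ℝ) ^ 2 * M n ^ 4 := by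
          have : ((n : ℝ) + 1) ^ 2 * (3 / 5) ^ 4 ≤ n ^ 2 := by nlinarith
          have hM3 : 0 < M n ^ 4 := by positivity
          nlinarith
      _ ≤ (2 * n + 1) * (1 / 225) := ih
      _ ≤ (2 * (n + 1) + 1) * (1 / 225) := by linarith

theorem M_bds10 {N : ℕ} (hN : 10 ≤ N) : (N : ℝ) * M N ^ 2 ≤ 1 / 20 := by
  induction N, hN using Nat.le_induction with
  | base =>
    have : M 10 = 2816 / 46189 := by
      unfold M
      norm_num [lc]
    rw [this]; norm_num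
  | succ n hn ih =>
    have hn' : (10 : ℝ) ≤ n := by exact_mod_cast hn
    have hM := M_pos n
    have hr := ratio_le (by omega : 7 ≤ n)
    have hr0 : 0 ≤ ((n : ℝ) + 2) / (2 * n + 1) := by positivity
    rw [M_succ]
    set r := ((n : ℝ) + 2) / (2 * n + 1) with hrdef
    push_cast
    have hr3 : r ^ 2 ≤ (3 / 5) ^ 2 := by gcongr
    calc ((n : ℝ) + 1) * (M n * r) ^ 2 = ((n : ℝ) + 1) * M n ^ 2 * r ^ 2 := by ring
      _ ≤ ((n : ℝ) + 1) * M n ^ 2 * (3 / 5) ^ 2 := by gcongr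
      _ ≤ (n : ℝ) * M n ^ 2 := by
          have : ((n : ℝ) + 1) * (3 / 5) ^ 2 ≤ n := by linarith
          have hM3 : 0 < M n ^ 2 := by positivity
          nlinarith
      _ ≤ _ := ih

/-- pointwise bound -/
theorem pt_bound {m a r : ℝ} (hm : 0 < m) (ha : |a| ≤ m) (hr : |r| ≤ m / 25) :
    1 / 2 * a ^ 3 - 3 / 2 * (a ^ 2 * |r|) - 38 / 25 * m * r ^ 2 -
      3 / 8 * (26 / 25) ^ 3 * m ^ 3 * (a + r) ^ 2 ≤ G (a + r) := by
  have h1 := G_ge (a + r)
  have h2 : |a + r| ≤ 26 / 25 * m := by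
    have := abs_add_le a r
    linarith
  have h3 : |a + r| ^ 5 ≤ (26 / 25 * m) ^ 3 * (a + r) ^ 2 := by
    calc |a + r| ^ 5 = |a + r| ^ 3 * |a + r| ^ 2 := by ring
      _ = |a + r| ^ 3 * (a + r) ^ 2 := by rw [sq_abs]
      _ ≤ _ := by gcongr
  have h4 : -(a ^ 2 * |r|) ≤ a ^ 2 * r := by
    have : -|r| ≤ r := neg_abs_le r
    nlinarith [sq_nonneg a]
  have h5 : -(m * r ^ 2) ≤ a * r ^ 2 := by
    have : -m ≤ a := (abs_le.mp ha).1
    nlinarith [sq_nonneg r]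
  have h6 : -(m / 25 * r ^ 2) ≤ r * r ^ 2 := by
    have : -(m / 25) ≤ r := (abs_le.mp hr).1
    nlinarith [sq_nonneg r]
  nlinarith

theorem r_sup (leg : S_LEG) (sup : S_SUP) (hgen : S_GEN) {N : ℕ} (hN : 8 ≤ N) {Q : ℝ[X]}
    (hQ : IsOrth N Q) (x : ℝ) (hx : |x| ≤ 1) : |(Q - q N).eval x| ≤ M N / 25 := by
  have hM := M_pos N
  have hN' : (8 : ℝ) ≤ N := by exact_mod_cast hN
  have hdeg : (Q - q N).natDegree < N := by
    apply deg_sub (by omega) hQ.deg (q_deg leg N)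
    rw [hQ.lead, q_lead leg N]
  have h1 := sup N _ (by omega) hdeg x hx
  have h2 : n2 (Q - q N) ≤ 9 / 25 * M N ^ 6 * (2 / (2 * N + 1)) := hgen N Q (by omega) hQ
  apply abs_le_of_sq_le_sq _ (by positivity)
  have h3 := M_bds8 hN
  calc (Q - q N).eval x ^ 2 ≤ (N : ℝ) ^ 2 / 2 * n2 (Q - q N) := h1
    _ ≤ (N : ℝ) ^ 2 / 2 * (9 / 25 * M N ^ 6 * (2 / (2 * N + 1))) := by gcongr
    _ = 9 / 25 * M N ^ 2 * ((N : ℝ) ^ 2 * M N ^ 4) / (2 * N + 1) := by
        field_simp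
    _ ≤ 9 / 25 * M N ^ 2 * ((2 * N + 1) * (1 / 225)) / (2 * N + 1) := by gcongr
    _ = (M N / 25) ^ 2 := by
        field_simp
        norm_num

theorem b_core (leg : S_LEG) (sup : S_SUP) (hgen : S_GEN) {N : ℕ} (hN : 8 ≤ N) {Q : ℝ[X]}
    (hQ : IsOrth N Q) {i3 J : ℝ} (hJ : 0 ≤ J)
    (hi3 : i3 ≤ ∫ x in (-1 : ℝ)..1, (LP N).eval x ^ 3)
    (hi4 : ∫ x in (-1 : ℝ)..1, (LP N).eval x ^ 4 ≤ J ^ 2)
    (hnum : M N ^ 2 * (9 / 10 * J * √(2 / (2 * N + 1)) + 3 / 5 * M N ^ 2 * (2 / (2 * N + 1)) +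
      43 / 100 * (2 / (2 * N + 1)) * (1 + M N ^ 4)) < i3 / 2) :
    0 < ∫ x in (-1 : ℝ)..1, Q.eval x := by
  have hM := M_pos N
  set r := Q - q N with hr
  have hdeg : r.natDegree < N := by
    apply deg_sub (by omega) hQ.deg (q_deg leg N)
    rw [hQ.lead, q_lead leg N]
  have hr2 : n2 r ≤ 9 / 25 * M N ^ 6 * (2 / (2 * N + 1)) := hgen N Q (by omega) hQ
  have hr0 := n2_nonneg r
  have hev : ∀ x, Q.eval x = (q N).eval x + r.eval x := by
    intro x; rw [hr, eval_sub]; ring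
  have cr := cont_eval r
  have cq := cont_eval (q N)
  have cQ := cont_eval Q
  have cra : Continuous fun x : ℝ => |r.eval x| := cr.abs
  -- ∫ Q = ∫ G Q
  have hA : ∫ x in (-1 : ℝ)..1, A (Q.eval x) = 0 := by
    have := hQ.orth 0 (by omega)
    simpa using this
  have hQG : ∫ x in (-1 : ℝ)..1, Q.eval x = ∫ x in (-1 : ℝ)..1, G (Q.eval x) := by
    have cAQ : Continuous fun x : ℝ => A (Q.eval x) := cont_A.comp cQ
    have e : ∀ x : ℝ, G (Q.eval x) = Q.eval x - A (Q.eval x) := fun x => rfl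
    simp only [e]
    rw [integral_sub (cQ.intervalIntegrable _ _) (cAQ.intervalIntegrable _ _), hA, sub_zero]
  rw [hQG]
  -- pointwise
  have hlow : ∫ x in (-1 : ℝ)..1, (1 / 2 * (q N).eval x ^ 3 - 3 / 2 * ((q N).eval x ^ 2 * |r.eval x|)
      - 38 / 25 * M N * r.eval x ^ 2 - 3 / 8 * (26 / 25) ^ 3 * M N ^ 3 * (Q.eval x) ^ 2) ≤
      ∫ x in (-1 : ℝ)..1, G (Q.eval x) := by
    apply integral_mono_on (by norm_num)
    · apply Continuous.intervalIntegrable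
      fun_prop
    · exact (cont_G.comp cQ).intervalIntegrable _ _
    · intro x hx
      have hx' : |x| ≤ 1 := abs_le.mpr ⟨hx.1, hx.2⟩
      have := pt_bound hM (q_le leg N x hx') (r_sup leg sup hgen hN hQ x hx')
      rw [hev x]
      exact this
  have hsplit : ∫ x in (-1 : ℝ)..1, (1 / 2 * (q N).eval x ^ 3 - 3 / 2 * ((q N).eval x ^ 2 * |r.eval x|)
      - 38 / 25 * M N * r.eval x ^ 2 - 3 / 8 * (26 / 25) ^ 3 * M N ^ 3 * (Q.eval x) ^ 2) =
      1 / 2 * (∫ x in (-1 : ℝ)..1, (q N).eval x ^ 3)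
      - 3 / 2 * (∫ x in (-1 : ℝ)..1, (q N).eval x ^ 2 * |r.eval x|)
      - 38 / 25 * M N * (∫ x in (-1 : ℝ)..1, r.eval x ^ 2)
      - 3 / 8 * (26 / 25) ^ 3 * M N ^ 3 * (∫ x in (-1 : ℝ)..1, (Q.eval x) ^ 2) := by
    rw [integral_sub, integral_sub, integral_sub, integral_const_mul, integral_const_mul,
      integral_const_mul, integral_const_mul]
    all_goals
      apply Continuous.intervalIntegrable
      fun_prop
  have hq3 : ∫ x in (-1 : ℝ)..1, (q N).eval x ^ 3 =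
      M N ^ 3 * ∫ x in (-1 : ℝ)..1, (LP N).eval x ^ 3 := by
    rw [← integral_const_mul]
    apply integral_congr
    intro x _
    simp only [q_eval]
    ring
  have hq4 : ∫ x in (-1 : ℝ)..1, ((q N).eval x ^ 2) ^ 2 =
      M N ^ 4 * ∫ x in (-1 : ℝ)..1, (LP N).eval x ^ 4 := by
    rw [← integral_const_mul]
    apply integral_congr
    intro x _
    simp only [q_eval]
    ring
  have hqr : ∫ x in (-1 : ℝ)..1, (q N).eval x ^ 2 * |r.eval x| ≤ M N ^ 2 * J * √(n2 r) := by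
    have cq2 : Continuous fun x : ℝ => (q N).eval x ^ 2 := cq.pow 2
    have h1 := cs cq2 cra (a := -1) (b := 1) (by norm_num)
    rw [hq4] at h1
    have h2 : ∫ x in (-1 : ℝ)..1, |r.eval x| ^ 2 = n2 r := by
      unfold n2
      apply integral_congr
      intro x _
      exact sq_abs _
    rw [h2] at h1
    apply abs_le_of_sq_le_sq' _ (by positivity) |>.2
    rw [mul_pow, mul_pow, Real.sq_sqrt hr0]
    refine h1.trans ?_
    have : M N ^ 4 * (∫ x in (-1 : ℝ)..1, (LP N).eval x ^ 4) ≤ (M N ^ 2) ^ 2 * J ^ 2 := by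
      rw [← pow_mul]
      gcongr
    exact mul_le_mul_of_nonneg_right this hr0
  have hQ2 : ∫ x in (-1 : ℝ)..1, (Q.eval x) ^ 2 = M N ^ 2 * (2 / (2 * N + 1)) + n2 r := by
    rw [← n2_q leg N]
    unfold n2
    have e : ∀ x : ℝ, (Q.eval x) ^ 2 = ((q N).eval x ^ 2 + 2 * ((q N).eval x * r.eval x)) +
        r.eval x ^ 2 := by
      intro x; rw [hev x]; ring
    simp only [e]
    rw [integral_add, integral_add, integral_const_mul, q_orth leg hdeg]
    · ring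
    all_goals
      apply Continuous.intervalIntegrable
      fun_prop
  refine lt_of_lt_of_le ?_ hlow
  rw [hsplit, hq3, hQ2]
  change 0 < _ - _ - 38 / 25 * M N * n2 r - _
  set s := √(2 / (2 * (N : ℝ) + 1)) with hs
  have hs2 : 2 / (2 * (N : ℝ) + 1) = s ^ 2 := (Real.sq_sqrt (by positivity)).symm
  rw [hs2] at hnum hr2 ⊢
  have hs0 : 0 < s := by rw [hs]; positivity
  have hrs : √(n2 r) ≤ 3 / 5 * M N ^ 3 * s := by
    apply Real.sqrt_le_iff.mpr ⟨by positivity, ?_⟩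
    calc n2 r ≤ 9 / 25 * M N ^ 6 * s ^ 2 := hr2
      _ = _ := by ring
  have hqr2 : ∫ x in (-1 : ℝ)..1, (q N).eval x ^ 2 * |r.eval x| ≤
      M N ^ 2 * J * (3 / 5 * M N ^ 3 * s) := by
    refine hqr.trans ?_
    gcongr
  have hM3 : 0 < M N ^ 3 := by positivity
  have t1 : 1 / 2 * (M N ^ 3 * i3) ≤ 1 / 2 * (M N ^ 3 * ∫ x in (-1 : ℝ)..1, (LP N).eval x ^ 3) := by
    gcongr
  have t3 : 38 / 25 * M N * n2 r ≤ 38 / 25 * M N * (9 / 25 * M N ^ 6 * s ^ 2) := by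
    gcongr
  have t4 : 3 / 8 * (26 / 25) ^ 3 * M N ^ 3 * (M N ^ 2 * s ^ 2 + n2 r) ≤
      3 / 8 * (26 / 25) ^ 3 * M N ^ 3 * (M N ^ 2 * s ^ 2 + 9 / 25 * M N ^ 6 * s ^ 2) := by
    gcongr
  have key : 3 / 2 * (M N ^ 2 * J * (3 / 5 * M N ^ 3 * s)) + 38 / 25 * M N * (9 / 25 * M N ^ 6 * s ^ 2)
      + 3 / 8 * (26 / 25) ^ 3 * M N ^ 3 * (M N ^ 2 * s ^ 2 + 9 / 25 * M N ^ 6 * s ^ 2) <
      1 / 2 * (M N ^ 3 * i3) := by
    have h1 := mul_lt_mul_of_pos_left hnum hM3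
    have h2 : 0 ≤ M N ^ 7 * s ^ 2 := by positivity
    have h3 : 0 ≤ M N ^ 5 * s ^ 2 := by positivity
    have h4 : 0 ≤ M N ^ 9 * s ^ 2 := by positivity
    nlinarith
  linarith

theorem bb (leg : S_LEG) (sup : S_SUP) (hgen : S_GEN) (hi3 : S_I3) (hp8 : S_P8) : S_B := by
  intro N Q he hN hQ
  rcases Nat.lt_or_ge N 10 with h10 | h10
  · have h8 : N = 8 := by
      rcases he with ⟨k, hk⟩
      omega
    subst h8
    apply b_core leg sup hgen le_rfl hQ (i3 := 0.0101) (J := 0.14213) (by norm_num) hp8.1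
    · refine hp8.2.trans ?_
      norm_num
    · rw [M_eight]
      have hs : √(2 / (2 * ((8 : ℕ) : ℝ) + 1)) ≤ 0.343 := by
        apply Real.sqrt_le_iff.mpr
        constructor <;> norm_num
      push_cast at hs ⊢
      nlinarith
  · have hN' : (10 : ℝ) ≤ N := by exact_mod_cast h10
    have hM := M_pos N
    have hs0 : 0 < 2 / (2 * (N : ℝ) + 1) := by positivity
    apply b_core leg sup hgen hN hQ (i3 := 2 / 5 / (N : ℝ) ^ 2) (J := √(2 / (2 * N + 1)))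
      (by positivity) (hi3 N he h10)
    · rw [Real.sq_sqrt hs0.le, ← leg.2.2.1 N]
      unfold n2
      apply integral_mono_on (by norm_num)
      · exact ((cont_eval _).pow 4).intervalIntegrable _ _
      · exact ((cont_eval _).pow 2).intervalIntegrable _ _
      · intro x hx
        have h1 := leg.2.1 N x (abs_le.mpr ⟨hx.1, hx.2⟩)
        have h2 : (LP N).eval x ^ 2 ≤ 1 := by
          rw [← sq_abs]
          nlinarith [abs_nonneg ((LP N).eval x)]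
        nlinarith [sq_nonneg ((LP N).eval x)]
    · have h1 := M_bds10 h10
      have h2 : M N ^ 2 ≤ 1 / 200 := by nlinarith
      have h3 : M N ^ 4 ≤ 1 / 200 := by nlinarith [sq_nonneg (M N)]
      have h4 : 9 / 10 * √(2 / (2 * (N : ℝ) + 1)) * √(2 / (2 * (N : ℝ) + 1)) =
          9 / 10 * (2 / (2 * (N : ℝ) + 1)) := by
        rw [mul_assoc, Real.mul_self_sqrt hs0.le]
      rw [h4]
      have h5 : 2 / (2 * (N : ℝ) + 1) ≤ 1 / N := by
        rw [div_le_div_iff₀ (by positivity) (by positivity)]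
        linarith
      have hN0 : (0 : ℝ) < N := by linarith
      have hb : 9 / 10 * (2 / (2 * (N : ℝ) + 1)) + 3 / 5 * M N ^ 2 * (2 / (2 * N + 1)) +
          43 / 100 * (2 / (2 * N + 1)) * (1 + M N ^ 4) ≤ 7 / 5 * (1 / N) := by
        have e1 : 9 / 10 * (2 / (2 * (N : ℝ) + 1)) + 3 / 5 * M N ^ 2 * (2 / (2 * N + 1)) +
          43 / 100 * (2 / (2 * N + 1)) * (1 + M N ^ 4) =
          (9 / 10 + 3 / 5 * M N ^ 2 + 43 / 100 * (1 + M N ^ 4)) * (2 / (2 * N + 1)) := by ring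
        rw [e1]
        calc (9 / 10 + 3 / 5 * M N ^ 2 + 43 / 100 * (1 + M N ^ 4)) * (2 / (2 * (N : ℝ) + 1)) ≤
            (7 / 5) * (2 / (2 * (N : ℝ) + 1)) := by
              apply mul_le_mul_of_nonneg_right _ hs0.le
              linarith
          _ ≤ _ := by gcongr
      calc M N ^ 2 * _ ≤ M N ^ 2 * (7 / 5 * (1 / N)) := by gcongr
        _ = 7 / 5 * (N * M N ^ 2) / N ^ 2 := by field_simp
        _ ≤ 7 / 5 * (1 / 20) / N ^ 2 := by gcongr
        _ < 2 / 5 / (N : ℝ) ^ 2 / 2 := by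
            rw [div_div, div_lt_div_iff₀ (by positivity) (by positivity)]
            nlinarith [sq_nonneg (N : ℝ), mul_pos hN0 hN0]

end Pool.Agent.K9h30.AL
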