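import Pool.Agent.K9h30.AL.Stm

/-!
# MP_c605fa_an, Q1 for all degrees: basic facts (helper30)
-/

set_option autoImplicit false

open Polynomial intervalIntegral

namespace Pool.Agent.K9h30.AL

theorem cont_A : Continuous A := by
  unfold A
  apply Continuous.div
  · exact continuous_id
  · exact (Real.continuous_sqrt.comp (by fun_prop))
  · intro x
    have : (0 : ℝ) < 1 + x ^ 2 := by positivity
    exact (Real.sqrt_pos.mpr this).ne'

theorem cont_eval (h : ℝ[X]) : Continuous fun x : ℝ => h.eval x := h.continuous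

/-- Cauchy–Schwarz for continuous functions -/
theorem cs {f g : ℝ → ℝ} (hf : Continuous f) (hg : Continuous g) {a b : ℝ} (hab : a ≤ b) :
    (∫ x in a..b, f x * g x) ^ 2 ≤ (∫ x in a..b, f x ^ 2) * ∫ x in a..b, g x ^ 2 := by
  have key : ∀ t : ℝ, 0 ≤ (∫ x in a..b, g x ^ 2) * (t * t) + (2 * ∫ x in a..b, f x * g x) * t +
      ∫ x in a..b, f x ^ 2 := by
    intro t
    have h1 : (∫ x in a..b, (f x + t * g x) ^ 2) =
        (∫ x in a..b, g x ^ 2) * (t * t) + (2 * ∫ x in a..b, f x * g x) * t +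
          ∫ x in a..b, f x ^ 2 := by
      have e : ∀ x, (f x + t * g x) ^ 2 = t * t * g x ^ 2 + 2 * t * (f x * g x) + f x ^ 2 := by
        intro x; ring
      simp only [e]
      rw [integral_add, integral_add, integral_const_mul, integral_const_mul]
      · ring
      all_goals (apply Continuous.intervalIntegrable; fun_prop)
    rw [← h1]
    apply integral_nonneg hab
    intro x _
    positivity
  have := discrim_le_zero key
  unfold discrim at this
  nlinarith

theorem n2_nonneg (h : ℝ[X]) : 0 ≤ n2 h := by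
  unfold n2
  apply integral_nonneg (by norm_num)
  intro x _
  positivity

theorem orth_poly {N : ℕ} {Q : ℝ[X]} (hQ : IsOrth N Q) {h : ℝ[X]} (hh : h.natDegree < N) :
    ∫ x in (-1 : ℝ)..1, A (Q.eval x) * h.eval x = 0 := by
  have e : ∀ x : ℝ, A (Q.eval x) * h.eval x =
      ∑ k ∈ Finset.range N, h.coeff k * (x ^ k * A (Q.eval x)) := by
    intro x
    rw [Polynomial.eval_eq_sum_range' hh, Finset.mul_sum]
    apply Finset.sum_congr rfl
    intro k _
    ring
  simp only [e]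
  rw [intervalIntegral.integral_finsetSum]
  · apply Finset.sum_eq_zero
    intro k hk
    rw [integral_const_mul, hQ.orth k (Finset.mem_range.mp hk), mul_zero]
  · intro k _
    apply Continuous.intervalIntegrable
    exact continuous_const.mul ((continuous_pow k).mul (cont_A.comp (cont_eval Q)))

theorem lc_pos (N : ℕ) : 0 < lc N := by
  induction N with
  | zero => simp [lc]
  | succ n ih =>
    simp only [lc]
    positivity

theorem M_pos (N : ℕ) : 0 < M N := by
  unfold M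
  have := lc_pos N
  positivity

theorem M_mul_lc (N : ℕ) : M N * lc N = N + 1 := by
  unfold M
  rw [div_mul_cancel₀ _ (lc_pos N).ne']

theorem M_succ (N : ℕ) : M (N + 1) = M N * ((N + 2) / (2 * N + 1)) := by
  unfold M
  simp only [lc]
  have := (lc_pos N).ne'
  push_cast
  have h1 : (2 * (N : ℝ) + 1) ≠ 0 := by positivity
  have h2 : ((N : ℝ) + 1) ≠ 0 := by positivity
  field_simp
  ring

theorem M_seven : M 7 = 128 / 429 := by
  unfold M
  norm_num [lc]

theorem M_eight : M 8 = 128 / 715 := by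
  unfold M
  norm_num [lc]

theorem deg_sub {N : ℕ} (hN : 1 ≤ N) {Q Q' : ℝ[X]} (h1 : Q.natDegree = N) (h2 : Q'.natDegree = N)
    (h3 : Q.leadingCoeff = Q'.leadingCoeff) : (Q - Q').natDegree < N := by
  have hQ : Q ≠ 0 := by
    rintro rfl
    simp at h1
    omega
  have hQ' : Q' ≠ 0 := by
    rintro rfl
    simp at h2
    omega
  have hd : Q.degree = Q'.degree := by
    rw [degree_eq_natDegree hQ, degree_eq_natDegree hQ', h1, h2]
  have := degree_sub_lt_left hd hQ h3
  rw [degree_eq_natDegree hQ, h1] at this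
  by_cases h0 : Q - Q' = 0
  · rw [h0]; simp; omega
  · rw [degree_eq_natDegree h0] at this
    exact_mod_cast this

/-- `u - A u` -/
noncomputable def G (u : ℝ) : ℝ := u - A u

theorem cont_G : Continuous G := continuous_id.sub cont_A

theorem G_aux (u : ℝ) : 0 ≤ 1 - 1 / √(1 + u ^ 2) ∧ 1 - 1 / √(1 + u ^ 2) ≤ u ^ 2 / 2 ∧
    u ^ 2 / 2 - 3 / 8 * u ^ 4 ≤ 1 - 1 / √(1 + u ^ 2) := by
  have h0 : (0 : ℝ) ≤ 1 + u ^ 2 := by positivity
  set s := √(1 + u ^ 2) with hs
  have hs1 : 1 ≤ s := by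
    rw [hs]
    apply Real.one_le_sqrt.mpr
    nlinarith [sq_nonneg u]
  have hss : s ^ 2 = 1 + u ^ 2 := Real.sq_sqrt h0
  have hspos : 0 < s := by linarith
  have hu : u ^ 2 = s ^ 2 - 1 := by linarith
  have hu4 : u ^ 4 = (s ^ 2 - 1) ^ 2 := by rw [← hu]; ring
  refine ⟨?_, ?_, ?_⟩
  · have : 1 / s ≤ 1 := by
      rw [div_le_one hspos]; exact hs1
    linarith
  · rw [hu]
    have : (3 - s ^ 2) / 2 ≤ 1 / s := by
      rw [le_div_iff₀ hspos]
      nlinarith [mul_nonneg (sq_nonneg (s - 1)) (by linarith : (0 : ℝ) ≤ s + 2)]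
    linarith
  · rw [hu4, hu]
    have : 1 / s ≤ 1 - (s ^ 2 - 1) / 2 + 3 / 8 * (s ^ 2 - 1) ^ 2 := by
      rw [div_le_iff₀ hspos]
      have h3 : 0 ≤ (s - 1) ^ 3 * (3 * s ^ 2 + 9 * s + 8) := by
        have : 0 ≤ s - 1 := by linarith
        positivity
      nlinarith [h3]
    linarith

theorem G_eq (u : ℝ) : G u = u * (1 - 1 / √(1 + u ^ 2)) := by
  unfold G A
  ring

theorem abs_G_le (u : ℝ) : |G u| ≤ |u| ^ 3 / 2 := by
  obtain ⟨h1, h2, h3⟩ := G_aux u
  rw [G_eq, abs_mul, abs_of_nonneg h1]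
  calc |u| * (1 - 1 / √(1 + u ^ 2)) ≤ |u| * (u ^ 2 / 2) := by gcongr
    _ = |u| ^ 3 / 2 := by rw [← sq_abs u]; ring

theorem G_ge (u : ℝ) : u ^ 3 / 2 - 3 / 8 * |u| ^ 5 ≤ G u := by
  obtain ⟨h1, h2, h3⟩ := G_aux u
  rw [G_eq]
  rcases le_total 0 u with hu | hu
  · rw [abs_of_nonneg hu]
    calc u ^ 3 / 2 - 3 / 8 * u ^ 5 = u * (u ^ 2 / 2 - 3 / 8 * u ^ 4) := by ring
      _ ≤ _ := by gcongr
  · rw [abs_of_nonpos hu]
    have : u * (u ^ 2 / 2) ≤ u * (1 - 1 / √(1 + u ^ 2)) := mul_le_mul_of_nonpos_left h2 hu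
    have h5 : 0 ≤ (-u) ^ 5 := by
      have : 0 ≤ -u := by linarith
      positivity
    nlinarith

end Pool.Agent.K9h30.AL
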