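import Pool.Agent.K9h30.AL.Stm3
import Pool.Agent.K9h30.AL.Basic

/-!
# MP_c605fa_an, Q1: the certificate in degree 4 (leaf C4, helper90)

`1 / √(1 + t)` is within `1/250` of the cubic `s(t) = 1 - .47 t + .23 t² - .054 t³` on `[0, 3/2]`, and
`W = Q4 · s(Q4²)` is a polynomial whose integrals against `1`, `x²` are computed exactly.
-/

set_option autoImplicit false

open Polynomial MeasureTheory intervalIntegral

namespace Pool.Agent.K9h30.AL

namespace C4Leaf

/-- Horner evaluation -/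
noncomputable def ev (l : List ℝ) (y : ℝ) : ℝ := l.foldr (fun c acc => c + y * acc) 0

/-- the integral of `x^(2k) ev l (x²)` over `[-1,1]` -/
noncomputable def GI : List ℝ → ℕ → ℝ
  | [], _ => 0
  | c :: l, k => c * (2 / (2 * k + 1)) + GI l (k + 1)

lemma ev_cons (c : ℝ) (l : List ℝ) (y : ℝ) : ev (c :: l) y = c + y * ev l y := rfl
lemma ev_nil (y : ℝ) : ev [] y = 0 := rfl

lemma ev_cont (l : List ℝ) : Continuous (ev l) := by
  induction l with
  | nil => exact continuous_const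
  | cons c l ih =>
    have : ev (c :: l) = fun y => c + y * ev l y := rfl
    rw [this]
    fun_prop

lemma int_ev (l : List ℝ) : ∀ k : ℕ, ∫ x in (-1 : ℝ)..1, x ^ (2 * k) * ev l (x ^ 2) = GI l k := by
  induction l with
  | nil => intro k; simp [ev, GI]
  | cons c l ih =>
    intro k
    have e : ∀ x : ℝ, x ^ (2 * k) * ev (c :: l) (x ^ 2) =
        c * x ^ (2 * k) + x ^ (2 * (k + 1)) * ev l (x ^ 2) := by
      intro x
      rw [ev_cons]
      ring
    simp only [e]
    have hc := ev_cont l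
    rw [intervalIntegral.integral_add (by apply Continuous.intervalIntegrable; fun_prop)
      (by apply Continuous.intervalIntegrable; fun_prop), ih (k + 1), intervalIntegral.integral_const_mul,
      integral_pow, GI]
    congr 2
    rw [one_pow, Odd.neg_one_pow ⟨k, rfl⟩]
    push_cast
    ring

/-- the cubic -/
noncomputable def s (t : ℝ) : ℝ := 1 - 47 / 100 * t + 23 / 100 * t ^ 2 - 27 / 500 * t ^ 3

lemma low {t : ℝ} (h0 : 0 ≤ t) (h1 : t ≤ 3 / 2) : 0 ≤ 1 - (1 + t) * (s t - 1 / 250) ^ 2 := by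
  have h2 : 0 ≤ 3 / 2 - t := by linarith
  have h : 1 - (1 + t) * (s t - 1 / 250) ^ 2 =
      (255488 / 2767921875) * t ^ 0 * (3 / 2 - t) ^ 11 +
      (26624 / 553584375) * t ^ 1 * (3 / 2 - t) ^ 10 +
      (1159264 / 553584375) * t ^ 2 * (3 / 2 - t) ^ 9 +
      (16653488 / 922640625) * t ^ 3 * (3 / 2 - t) ^ 8 +
      (52779016 / 922640625) * t ^ 4 * (3 / 2 - t) ^ 7 +
      (17818948 / 184528125) * t ^ 5 * (3 / 2 - t) ^ 6 +
      (89859686 / 922640625) * t ^ 6 * (3 / 2 - t) ^ 5 +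
      (56098009 / 922640625) * t ^ 7 * (3 / 2 - t) ^ 4 +
      (21995744 / 922640625) * t ^ 8 * (3 / 2 - t) ^ 3 +
      (3527758 / 553584375) * t ^ 9 * (3 / 2 - t) ^ 2 +
      (159214 / 110716875) * t ^ 10 * (3 / 2 - t) ^ 1 +
      (4999 / 22143375) * t ^ 11 * (3 / 2 - t) ^ 0 := by
    unfold s
    ring
  rw [h]
  positivity

lemma up {t : ℝ} (h0 : 0 ≤ t) (h1 : t ≤ 3 / 2) : 0 ≤ (1 + t) * (s t + 1 / 250) ^ 2 - 1 := by
  have h2 : 0 ≤ 3 / 2 - t := by linarith
  have h : (1 + t) * (s t + 1 / 250) ^ 2 - 1 =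
      (10688 / 34171875) * t ^ 0 * (3 / 2 - t) ^ 8 +
      (214016 / 34171875) * t ^ 1 * (3 / 2 - t) ^ 7 +
      (138596 / 11390625) * t ^ 2 * (3 / 2 - t) ^ 6 +
      (210406 / 34171875) * t ^ 3 * (3 / 2 - t) ^ 5 +
      (66049 / 34171875) * t ^ 4 * (3 / 2 - t) ^ 4 +
      (254611 / 22781250) * t ^ 5 * (3 / 2 - t) ^ 3 +
      (1915187 / 136687500) * t ^ 6 * (3 / 2 - t) ^ 2 +
      (1380481 / 273375000) * t ^ 7 * (3 / 2 - t) ^ 1 +
      (449 / 2025000) * t ^ 8 * (3 / 2 - t) ^ 0 := by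
    unfold s
    ring
  rw [h]
  positivity

lemma s_pos {t : ℝ} (h0 : 0 ≤ t) (h1 : t ≤ 3 / 2) : 0 ≤ s t := by
  unfold s
  have h2 : t ^ 3 ≤ 9 / 4 * t := by nlinarith [mul_nonneg h0 (sub_nonneg.2 h1)]
  nlinarith [sq_nonneg t]

lemma A_approx {u : ℝ} (h : u ^ 2 ≤ 3 / 2) : |A u - u * s (u ^ 2)| ≤ 1 / 250 * |u| := by
  have h0 : 0 ≤ u ^ 2 := sq_nonneg u
  set r := 1 / Real.sqrt (1 + u ^ 2) with hr
  have hs : 0 < Real.sqrt (1 + u ^ 2) := Real.sqrt_pos.2 (by positivity)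
  have hr0 : 0 < r := by positivity
  have hr2 : (1 + u ^ 2) * r ^ 2 = 1 := by
    rw [hr, div_pow, Real.sq_sqrt (by positivity)]
    field_simp
  have e : A u - u * s (u ^ 2) = u * (r - s (u ^ 2)) := by
    unfold A
    rw [hr]
    ring
  rw [e, abs_mul, mul_comm]
  refine mul_le_mul_of_nonneg_right ?_ (abs_nonneg u)
  have hl := low h0 h
  have hu := up h0 h
  have hp := s_pos h0 h
  rw [abs_le]
  constructor
  · by_contra hc
    push Not at hc
    have h1 : r < s (u ^ 2) - 1 / 250 := by linarith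
    have h2 : r ^ 2 < (s (u ^ 2) - 1 / 250) ^ 2 := by nlinarith
    have h3 : (1 + u ^ 2) * r ^ 2 < (1 + u ^ 2) * (s (u ^ 2) - 1 / 250) ^ 2 :=
      mul_lt_mul_of_pos_left h2 (by positivity)
    linarith
  · by_contra hc
    push Not at hc
    have h1 : s (u ^ 2) + 1 / 250 < r := by linarith
    have h2 : (s (u ^ 2) + 1 / 250) ^ 2 < r ^ 2 := by nlinarith
    have h3 : (1 + u ^ 2) * (s (u ^ 2) + 1 / 250) ^ 2 < (1 + u ^ 2) * r ^ 2 :=
      mul_lt_mul_of_pos_left h2 (by positivity)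
    linarith

/-- the coefficients of `W` -/
noncomputable def L : List ℝ :=
  [(19008332765755213 / 50000000000000000), (-8333636977017471 / 2500000000000000), (-1832389295723533 / 500000000000000), (14153878507209 / 500000000000), (59174141551801 / 1000000000000), (-128502297926793 / 250000000000), (17071821375819 / 50000000000), (3672107279967 / 625000000), (-2737718472541 / 100000000), (65239568247 / 1000000), (-792164719 / 8000), (797769 / 8), (-1038933 / 16), (99225 / 4), (-16875 / 4)]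

lemma Q4_eval (x : ℝ) : Q4.eval x = 5 * x ^ 4 - 21 / 5 * x ^ 2 + 41 / 100 := by
  simp [Q4]

lemma W_eq (x : ℝ) : Q4.eval x * s (Q4.eval x ^ 2) = ev L (x ^ 2) := by
  rw [Q4_eval]
  simp only [L, ev_cons, ev_nil, s]
  ring

lemma Q4_le (x : ℝ) (hx : |x| ≤ 1) : |Q4.eval x| ≤ 121 / 100 := by
  rw [Q4_eval]
  have h1 : x ^ 2 ≤ 1 := (sq_le_one_iff_abs_le_one _).2 hx
  have h0 : 0 ≤ x ^ 2 := sq_nonneg x
  have e : x ^ 4 = (x ^ 2) ^ 2 := by ring
  rw [e, abs_le]
  constructor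
  · nlinarith [sq_nonneg (x ^ 2 - 21 / 50)]
  · nlinarith [mul_nonneg h0 (sub_nonneg.2 h1)]

/-- the certified integrals -/
lemma w_bound : (GI L 0) ^ 2 / 2 + 5 * ((3 * GI L 1 - GI L 0) / 2) ^ 2 / 2 ≤ (5 / 10000) ^ 2 := by
  simp only [L, GI]
  norm_num

lemma cauchy (p m a b : ℝ) (h : p ^ 2 / 2 + 5 * ((3 * m - p) / 2) ^ 2 / 2 ≤ (5 / 10000) ^ 2) :
    (a * p + b * m) ^ 2 ≤ (5 / 10000) ^ 2 * (2 * a ^ 2 + 4 / 3 * (a * b) + 2 / 5 * b ^ 2) := by
  have e : (p ^ 2 / 2 + 5 * ((3 * m - p) / 2) ^ 2 / 2) * (2 * a ^ 2 + 4 / 3 * (a * b) + 2 / 5 * b ^ 2) =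
      (a * p + b * m) ^ 2 + 1 / 5 * (p * (2 * b / 3) - 5 * ((3 * m - p) / 2) * (a + b / 3)) ^ 2 := by
    ring
  have h2 : 0 ≤ 2 * a ^ 2 + 4 / 3 * (a * b) + 2 / 5 * b ^ 2 := by
    nlinarith [sq_nonneg (a + b / 3), sq_nonneg b]
  have h3 := mul_le_mul_of_nonneg_right h h2
  rw [e] at h3
  have h4 : 0 ≤ 1 / 5 * (p * (2 * b / 3) - 5 * ((3 * m - p) / 2) * (a + b / 3)) ^ 2 := by positivity
  linarith

end C4Leaf

open C4Leaf

theorem c4 (par : S_PAR) (sup : S_SUP) (stab : S_STAB) : S_C4 := by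
  intro Q hQ
  have hdeg4 : Q4.natDegree = 4 := by
    unfold Q4
    compute_degree!
  have hlead4 : Q4.leadingCoeff = 5 := by
    rw [leadingCoeff, hdeg4]
    simp [Q4]
  set d := Q - Q4 with hd
  have hdeg : d.natDegree < 4 := deg_sub (by norm_num) hQ.deg hdeg4 (by
    rw [hQ.lead, hlead4]; norm_num)
  -- `d = a + b x²`
  set a := d.coeff 0 with ha
  set b := d.coeff 2 with hb
  have hev : ∀ x, d.eval (-x) = d.eval x := by
    intro x
    have h1 := (par 4 Q (by norm_num) hQ).2 x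
    rw [hd, eval_sub, eval_sub, h1, Q4_eval, Q4_eval]
    ring
  have hdx : ∀ x, d.eval x = a + b * x ^ 2 := by
    intro x
    have h1 := Polynomial.eval_eq_sum_range' hdeg x
    have h2 := Polynomial.eval_eq_sum_range' hdeg (-x)
    rw [hev] at h2
    simp only [Finset.sum_range_succ, Finset.range_zero, Finset.sum_empty] at h1 h2
    rw [ha, hb]
    linarith
  have hn2 : n2 d = 2 * a ^ 2 + 4 / 3 * (a * b) + 2 / 5 * b ^ 2 := by
    have h1 := int_ev [a ^ 2, 2 * (a * b), b ^ 2] 0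
    have h2 : ∀ x : ℝ, d.eval x ^ 2 = x ^ (2 * 0) * ev [a ^ 2, 2 * (a * b), b ^ 2] (x ^ 2) := by
      intro x
      rw [hdx]
      simp only [ev_cons, ev_nil]
      ring
    unfold n2
    simp only [h2]
    rw [h1]
    simp only [GI]
    norm_num
    ring
  have hd0 := n2_nonneg d
  have hcA : Continuous fun x : ℝ => A (Q4.eval x) := cont_A.comp (cont_eval Q4)
  have hcd := cont_eval d
  have hcW : Continuous fun x : ℝ => ev L (x ^ 2) := (ev_cont L).comp (continuous_pow 2)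
  -- the integral of `W d`
  have hW : ∫ x in (-1 : ℝ)..1, ev L (x ^ 2) * d.eval x = a * GI L 0 + b * GI L 1 := by
    have h1 := int_ev L 0
    have h2 := int_ev L 1
    have h3 : ∀ x : ℝ, ev L (x ^ 2) * d.eval x = a * (x ^ (2 * 0) * ev L (x ^ 2)) +
        b * (x ^ (2 * 1) * ev L (x ^ 2)) := by
      intro x
      rw [hdx]
      ring
    simp only [h3]
    rw [intervalIntegral.integral_add (by apply Continuous.intervalIntegrable; fun_prop)
      (by apply Continuous.intervalIntegrable; fun_prop), intervalIntegral.integral_const_mul,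
      intervalIntegral.integral_const_mul, h1, h2]
  have hWle : |∫ x in (-1 : ℝ)..1, ev L (x ^ 2) * d.eval x| ≤ 5 / 10000 * √(n2 d) := by
    rw [hW]
    refine abs_le_of_sq_le_sq ?_ (by positivity)
    rw [mul_pow, Real.sq_sqrt hd0, hn2]
    exact cauchy _ _ _ _ w_bound
  -- the error
  have hE : |∫ x in (-1 : ℝ)..1, (A (Q4.eval x) - ev L (x ^ 2)) * d.eval x| ≤
      22 / 10000 * √(n2 d) := by
    refine abs_le_of_sq_le_sq ?_ (by positivity)
    have h1 := cs (hcA.sub hcW) hcd (a := -1) (b := 1) (by norm_num)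
    refine h1.trans ?_
    rw [mul_pow, Real.sq_sqrt hd0]
    refine mul_le_mul_of_nonneg_right ?_ hd0
    have h2 : ∫ x in (-1 : ℝ)..1, (A (Q4.eval x) - ev L (x ^ 2)) ^ 2 ≤
        ∫ x in (-1 : ℝ)..1, (1 / 250) ^ 2 * Q4.eval x ^ 2 := by
      apply integral_mono_on (by norm_num)
        (((hcA.sub hcW).pow 2).intervalIntegrable _ _)
        ((continuous_const.mul ((cont_eval Q4).pow 2)).intervalIntegrable _ _)
      intro x hx
      have hx' : |x| ≤ 1 := abs_le.mpr ⟨hx.1, hx.2⟩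
      have h3 := Q4_le x hx'
      have h4 : Q4.eval x ^ 2 ≤ 3 / 2 := by
        rw [← sq_abs]
        nlinarith [abs_nonneg (Q4.eval x)]
      have h5 := A_approx h4
      rw [W_eq] at h5
      calc (A (Q4.eval x) - ev L (x ^ 2)) ^ 2 = |A (Q4.eval x) - ev L (x ^ 2)| ^ 2 := (sq_abs _).symm
        _ ≤ (1 / 250 * |Q4.eval x|) ^ 2 := by gcongr
        _ = (1 / 250) ^ 2 * Q4.eval x ^ 2 := by rw [mul_pow, sq_abs]
    refine h2.trans ?_
    have h6 : ∀ x : ℝ, (1 / 250) ^ 2 * Q4.eval x ^ 2 = (1 / 250) ^ 2 * (x ^ (2 * 0) *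
        ev [1681 / 10000, -(861 / 250), 1087 / 50, -42, 25] (x ^ 2)) := by
      intro x
      rw [Q4_eval]
      simp only [ev_cons, ev_nil]
      ring
    simp only [h6]
    rw [intervalIntegral.integral_const_mul, int_ev]
    simp only [GI]
    norm_num
  have hA : |∫ x in (-1 : ℝ)..1, A (Q4.eval x) * d.eval x| ≤ 27 / 10000 * √(n2 d) := by
    have h1 : ∫ x in (-1 : ℝ)..1, A (Q4.eval x) * d.eval x =
        (∫ x in (-1 : ℝ)..1, (A (Q4.eval x) - ev L (x ^ 2)) * d.eval x) +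
          ∫ x in (-1 : ℝ)..1, ev L (x ^ 2) * d.eval x := by
      have i1 : IntervalIntegrable (fun x : ℝ => (A (Q4.eval x) - ev L (x ^ 2)) * d.eval x) volume (-1) 1 :=
        ((hcA.sub hcW).mul hcd).intervalIntegrable _ _
      have i2 : IntervalIntegrable (fun x : ℝ => ev L (x ^ 2) * d.eval x) volume (-1) 1 :=
        (hcW.mul hcd).intervalIntegrable _ _
      rw [← intervalIntegral.integral_add i1 i2]
      refine intervalIntegral.integral_congr fun x _ => ?_
      ring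
    rw [h1]
    refine (abs_add_le _ _).trans ?_
    linarith
  have hQd : Q4 + d = Q := by rw [hd]; ring
  have hfin := stab Q4 d (121 / 100) (283 / 100) (27 / 10000) (12 / 1000) (by norm_num) (by norm_num)
    (by norm_num) (by norm_num) (by rw [hQd]; exact orth_poly hQ hdeg) hA Q4_le
    (by
      intro x hx
      refine abs_le_of_sq_le_sq ?_ (by positivity)
      have h1 := sup 4 d (by norm_num) hdeg x hx
      rw [mul_pow, Real.sq_sqrt hd0]
      push_cast at h1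
      nlinarith)
    (by norm_num)
  have h7 : n2 d = √(n2 d) ^ 2 := (Real.sq_sqrt hd0).symm
  rw [h7]
  have h8 := Real.sqrt_nonneg (n2 d)
  nlinarith

end Pool.Agent.K9h30.AL
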