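import Pool.Agent.K9h30.AL.Stm

/-!
# MP_c605fa_an, all degrees: leaf LEG (helper90)

Facts on the Legendre polynomials `LP n` (`S_LEG`) and the comparison of the sup norm with the
`L²`-norm (`S_SUP`).
-/

set_option autoImplicit false

open Polynomial MeasureTheory intervalIntegral

namespace Pool.Agent.K9h30.AL

namespace LegLeaf

lemma LP_zero : LP 0 = 1 := rfl
lemma LP_one : LP 1 = X := rfl
lemma LP_two (n : ℕ) : LP (n + 2) = C ((2 * (n : ℝ) + 3) / (n + 2)) * X * LP (n + 1) -
    C (((n : ℝ) + 1) / (n + 2)) * LP n := rfl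

lemma lc_pos (n : ℕ) : 0 < lc n := by
  induction n with
  | zero => simp [lc]
  | succ n ih => unfold lc; positivity

lemma LP_rec (n : ℕ) : C ((n : ℝ) + 2) * LP (n + 2) = C (2 * (n : ℝ) + 3) * X * LP (n + 1) -
    C ((n : ℝ) + 1) * LP n := by
  have hn : (n : ℝ) + 2 ≠ 0 := by positivity
  have h1 : C ((n : ℝ) + 2) * C ((2 * (n : ℝ) + 3) / (n + 2)) = C (2 * (n : ℝ) + 3) := by
    rw [← C_mul, mul_div_cancel₀ _ hn]
  have h2 : C ((n : ℝ) + 2) * C (((n : ℝ) + 1) / (n + 2)) = C ((n : ℝ) + 1) := by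
    rw [← C_mul, mul_div_cancel₀ _ hn]
  rw [LP_two, ← h1, ← h2]
  ring

/-- degree and leading coefficient -/
lemma LP_deg (n : ℕ) : ((LP n).natDegree ≤ n ∧ (LP n).coeff n = lc n) := by
  induction n using Nat.twoStepInduction with
  | zero => simp [LP_zero, lc]
  | one => simp [LP_one, lc]
  | more n h0 h1 =>
    constructor
    · rw [LP_two]
      refine (natDegree_sub_le _ _).trans (max_le ?_ ?_)
      · refine natDegree_mul_le.trans ?_
        have h2 : (C ((2 * (n : ℝ) + 3) / (n + 2)) * X : ℝ[X]).natDegree ≤ 1 := by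
          simpa using natDegree_C_mul_X_pow_le ((2 * (n : ℝ) + 3) / (n + 2)) 1
        omega
      · exact (natDegree_C_mul_le _ _).trans (by omega)
    · rw [LP_two, coeff_sub, mul_assoc, coeff_C_mul, coeff_C_mul, coeff_X_mul, h1.2,
        coeff_eq_zero_of_natDegree_lt (lt_of_le_of_lt h0.1 (by omega : n < n + 2)), mul_zero, sub_zero]
      have e : lc (n + 2) = (2 * ((n + 1 : ℕ) : ℝ) + 1) / ((n + 1 : ℕ) + 1) * lc (n + 1) := rfl
      rw [e]
      push_cast
      ring_nf

lemma LP_natDegree (n : ℕ) : (LP n).natDegree = n :=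
  le_antisymm (LP_deg n).1 (le_natDegree_of_ne_zero (by rw [(LP_deg n).2]; exact (lc_pos n).ne'))

lemma LP_leadingCoeff (n : ℕ) : (LP n).leadingCoeff = lc n := by
  rw [leadingCoeff, LP_natDegree, (LP_deg n).2]

/-- the two differential relations -/
lemma LP_diff (n : ℕ) :
    X * derivative (LP (n + 1)) - derivative (LP n) = C ((n : ℝ) + 1) * LP (n + 1) ∧
    derivative (LP (n + 1)) - X * derivative (LP n) = C ((n : ℝ) + 1) * LP n := by
  induction n with
  | zero => simp [LP_zero, LP_one]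
  | succ n ih =>
    obtain ⟨i1, i2⟩ := ih
    have hn : C ((n : ℝ) + 2) ≠ 0 := by
      rw [Ne, C_eq_zero]; positivity
    have hP := LP_rec n
    have hQ : C ((n : ℝ) + 2) * derivative (LP (n + 2)) =
        C (2 * (n : ℝ) + 3) * (LP (n + 1) + X * derivative (LP (n + 1))) -
          C ((n : ℝ) + 1) * derivative (LP n) := by
      have h := congrArg derivative hP
      simp only [derivative_mul, derivative_sub, derivative_C, derivative_X, zero_mul, zero_add,
        mul_one] at h
      rw [h]; ring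
    have e3 : C (2 * (n : ℝ) + 3) = 2 * C (n : ℝ) + 3 := by
      simp only [map_add, map_mul, map_ofNat]
    have e2 : C ((n : ℝ) + 2) = C (n : ℝ) + 2 := by simp only [map_add, map_ofNat]
    have e1 : C ((n : ℝ) + 1) = C (n : ℝ) + 1 := by simp only [map_add, map_one]
    have e0 : C (((n + 1 : ℕ) : ℝ) + 1) = C (n : ℝ) + 2 := by
      push_cast; simp only [map_add, map_one]; ring
    have e : n + 1 + 1 = n + 2 := rfl
    rw [e, e0]
    rw [e1] at hP hQ i1 i2
    rw [e2] at hP hQ hn
    rw [e3] at hP hQ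
    constructor
    · apply mul_left_cancel₀ hn
      linear_combination X * hQ - (C (n : ℝ) + 2) * hP + (2 * C (n : ℝ) + 3) * X * i1 -
        (C (n : ℝ) + 2) * i2
    · apply mul_left_cancel₀ hn
      linear_combination hQ + (C (n : ℝ) + 1) * i1

/-- Legendre's equation -/
lemma LP_ode (n : ℕ) : derivative ((1 - X ^ 2) * derivative (LP n)) =
    -(C ((n : ℝ) * (n + 1)) * LP n) := by
  rcases n with _ | n
  · simp [LP_zero]
  · obtain ⟨i1, i2⟩ := LP_diff n
    have h : (1 - X ^ 2) * derivative (LP (n + 1)) = C ((n : ℝ) + 1) * (LP n - X * LP (n + 1)) := by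
      linear_combination i2 - X * i1
    rw [h]
    simp only [derivative_mul, derivative_sub, derivative_C, derivative_X, zero_mul, zero_add,
      one_mul]
    have e0 : C (((n + 1 : ℕ) : ℝ) * ((n + 1 : ℕ) + 1)) = C ((n : ℝ) + 1) * (C ((n : ℝ) + 1) + 1) := by
      rw [← map_one (C : ℝ →+* ℝ[X]), ← C_add, ← C_mul]
      congr 1
      push_cast
      rfl
    rw [e0]
    linear_combination (-C ((n : ℝ) + 1)) * i1

/-- integral of a derivative -/
lemma int_deriv (F : ℝ[X]) : ∫ x in (-1 : ℝ)..1, (derivative F).eval x = F.eval 1 - F.eval (-1) :=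
  intervalIntegral.integral_eq_sub_of_hasDerivAt (fun x _ => F.hasDerivAt x)
    ((derivative F).continuous.intervalIntegrable _ _)

lemma ii (F : ℝ[X]) : IntervalIntegrable (fun x => F.eval x) volume (-1) 1 :=
  F.continuous.intervalIntegrable _ _

/-- orthogonality of the Legendre polynomials -/
lemma LP_orth {m n : ℕ} (h : m ≠ n) : ∫ x in (-1 : ℝ)..1, (LP m * LP n).eval x = 0 := by
  have h1 : derivative ((1 - X ^ 2) * (derivative (LP m) * LP n - derivative (LP n) * LP m)) =
      C ((n : ℝ) * (n + 1) - (m : ℝ) * (m + 1)) * (LP m * LP n) := by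
    have hm := LP_ode m
    have hn := LP_ode n
    have e : (1 - X ^ 2) * (derivative (LP m) * LP n - derivative (LP n) * LP m) =
        ((1 - X ^ 2) * derivative (LP m)) * LP n - ((1 - X ^ 2) * derivative (LP n)) * LP m := by ring
    rw [e, derivative_sub, derivative_mul (f := (1 - X ^ 2) * derivative (LP m)),
      derivative_mul (f := (1 - X ^ 2) * derivative (LP n)), hm, hn, C_sub]
    ring
  have h2 := int_deriv ((1 - X ^ 2) * (derivative (LP m) * LP n - derivative (LP n) * LP m))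
  rw [h1] at h2
  simp only [eval_mul, eval_C, eval_sub, eval_one, eval_pow, eval_X] at h2
  norm_num at h2
  rcases h2 with h2 | h2
  · exfalso
    have h3 : ((n : ℝ) - m) * (n + m + 1) = 0 := by linear_combination h2
    rcases mul_eq_zero.1 h3 with h4 | h4
    · exact h (by exact_mod_cast (sub_eq_zero.1 h4).symm)
    · have : (0 : ℝ) < n + m + 1 := by positivity
      exact this.ne' h4
  · simpa only [eval_mul] using h2

/-- the integral over `[-1,1]` as a linear map -/
noncomputable def I : ℝ[X] →ₗ[ℝ] ℝ where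
  toFun F := ∫ x in (-1 : ℝ)..1, F.eval x
  map_add' F G := by
    simp only [eval_add]
    exact intervalIntegral.integral_add (ii F) (ii G)
  map_smul' c F := by
    simp only [eval_smul, smul_eq_mul, RingHom.id_apply]
    exact intervalIntegral.integral_const_mul _ _

lemma I_apply (F : ℝ[X]) : I F = ∫ x in (-1 : ℝ)..1, F.eval x := rfl

lemma I_C_mul (c : ℝ) (F : ℝ[X]) : I (C c * F) = c * I F := by
  rw [← smul_eq_C_mul, map_smul, smul_eq_mul]

lemma n2_eq (F : ℝ[X]) : n2 F = I (F * F) := by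
  rw [n2, I_apply]
  simp only [eval_mul, pow_two]

lemma I_orth {m n : ℕ} (h : m ≠ n) : I (LP m * LP n) = 0 := LP_orth h

lemma I_norm_zero : I (LP 0 * LP 0) = 2 := by
  rw [I_apply, LP_zero]
  simp only [mul_one, eval_one, intervalIntegral.integral_const, smul_eq_mul]
  norm_num

lemma I_norm_one : I (LP 1 * LP 1) = 2 / 3 := by
  rw [I_apply, LP_one]
  have h : ∀ x : ℝ, (X * X : ℝ[X]).eval x = x ^ 2 := fun x => by
    rw [eval_mul, eval_X, pow_two]
  simp only [h]
  rw [integral_pow]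
  norm_num

/-- the norms -/
lemma I_norm (n : ℕ) : I (LP n * LP n) = 2 / (2 * n + 1) := by
  induction n using Nat.twoStepInduction with
  | zero => rw [I_norm_zero]; norm_num
  | one => rw [I_norm_one]; norm_num
  | more n _ h1 =>
    have a1 : C ((n : ℝ) + 2) * (LP (n + 2) * LP (n + 2)) =
        C (2 * (n : ℝ) + 3) * (X * LP (n + 1) * LP (n + 2)) - C ((n : ℝ) + 1) * (LP n * LP (n + 2)) := by
      linear_combination LP (n + 2) * LP_rec n
    have a2 : C ((n : ℝ) + 3) * (LP (n + 3) * LP (n + 1)) =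
        C (2 * (n : ℝ) + 5) * (X * LP (n + 1) * LP (n + 2)) -
          C ((n : ℝ) + 2) * (LP (n + 1) * LP (n + 1)) := by
      have h := LP_rec (n + 1)
      have e1 : C (((n + 1 : ℕ) : ℝ) + 2) = C ((n : ℝ) + 3) := by push_cast; congr 1; ring
      have e2 : C (2 * ((n + 1 : ℕ) : ℝ) + 3) = C (2 * (n : ℝ) + 5) := by push_cast; congr 1; ring
      have e3 : C (((n + 1 : ℕ) : ℝ) + 1) = C ((n : ℝ) + 2) := by push_cast; congr 1; ring
      rw [e1, e2, e3] at h
      linear_combination LP (n + 1) * h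
    have b1 := congrArg I a1
    have b2 := congrArg I a2
    rw [I_C_mul, map_sub, I_C_mul, I_C_mul, I_orth (by omega : n ≠ n + 2), mul_zero, sub_zero] at b1
    rw [I_C_mul, map_sub, I_C_mul, I_C_mul, I_orth (by omega : n + 3 ≠ n + 1), mul_zero, h1] at b2
    have hn : (0 : ℝ) < (n : ℝ) + 2 := by positivity
    have hn5 : (0 : ℝ) < 2 * (n : ℝ) + 5 := by positivity
    have b3 : I (X * LP (n + 1) * LP (n + 2)) = ((n : ℝ) + 2) * (2 / (2 * ((n + 1 : ℕ) : ℝ) + 1)) /
        (2 * n + 5) := by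
      rw [eq_div_iff hn5.ne']
      linarith
    rw [b3] at b1
    push_cast at b1 ⊢
    have b4 : I (LP (n + 2) * LP (n + 2)) = (2 * (n : ℝ) + 3) * (((n : ℝ) + 2) *
        (2 / (2 * ((n : ℝ) + 1) + 1)) / (2 * n + 5)) / ((n : ℝ) + 2) := by
      rw [eq_div_iff hn.ne']
      linarith
    rw [b4]
    have q1 : (2 * ((n : ℝ) + 1) + 1) ≠ 0 := by positivity
    have q2 : (2 * ((n : ℝ) + 2) + 1) ≠ 0 := by positivity
    field_simp
    ring

/-- expansion in the Legendre polynomials -/
lemma expand (N : ℕ) : ∀ h : ℝ[X], h.degree < N → ∃ c : ℕ → ℝ,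
    h = ∑ k ∈ Finset.range N, C (c k) * LP k := by
  induction N with
  | zero =>
    intro h hh
    refine ⟨fun _ => 0, ?_⟩
    rw [Finset.range_zero, Finset.sum_empty]
    simpa using hh
  | succ N ih =>
    intro h hh
    have h1 : (h - C (h.coeff N / lc N) * LP N).degree < N := by
      rw [degree_lt_iff_coeff_zero]
      intro m hm
      rw [coeff_sub, coeff_C_mul]
      rcases hm.eq_or_lt with h2 | h2
      · rw [← h2, (LP_deg N).2, div_mul_cancel₀ _ (lc_pos N).ne', sub_self]
      · rw [coeff_eq_zero_of_degree_lt (lt_of_lt_of_le hh (by exact_mod_cast h2)),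
          coeff_eq_zero_of_natDegree_lt (lt_of_le_of_lt (LP_deg N).1 h2), mul_zero, sub_zero]
    obtain ⟨c, hc⟩ := ih _ h1
    refine ⟨fun k => if k = N then h.coeff N / lc N else c k, ?_⟩
    rw [Finset.sum_range_succ]
    simp only [if_true]
    have h3 : ∑ k ∈ Finset.range N, C (if k = N then h.coeff N / lc N else c k) * LP k =
        ∑ k ∈ Finset.range N, C (c k) * LP k := by
      refine Finset.sum_congr rfl fun k hk => ?_
      rw [if_neg (Finset.mem_range.1 hk).ne]
    rw [h3, ← hc]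
    ring

lemma expand' {N : ℕ} (h : ℝ[X]) (hN : h.natDegree < N) : ∃ c : ℕ → ℝ,
    h = ∑ k ∈ Finset.range N, C (c k) * LP k :=
  expand N h (lt_of_le_of_lt degree_le_natDegree (by exact_mod_cast hN))

lemma I_sum_orth (N : ℕ) (c : ℕ → ℝ) : I (LP N * ∑ k ∈ Finset.range N, C (c k) * LP k) = 0 := by
  rw [Finset.mul_sum, map_sum]
  refine Finset.sum_eq_zero fun k hk => ?_
  rw [show LP N * (C (c k) * LP k) = C (c k) * (LP N * LP k) by ring, I_C_mul,
    I_orth (Finset.mem_range.1 hk).ne', mul_zero]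

/-- Parseval -/
lemma n2_sum (N : ℕ) (c : ℕ → ℝ) : n2 (∑ k ∈ Finset.range N, C (c k) * LP k) =
    ∑ k ∈ Finset.range N, c k ^ 2 * (2 / (2 * k + 1)) := by
  induction N with
  | zero => simp [n2]
  | succ N ih =>
    rw [Finset.sum_range_succ, Finset.sum_range_succ, ← ih, n2_eq, n2_eq]
    set s := ∑ k ∈ Finset.range N, C (c k) * LP k with hs
    have h1 : (s + C (c N) * LP N) * (s + C (c N) * LP N) = s * s + C (2 * c N) * (LP N * s) +
        C (c N ^ 2) * (LP N * LP N) := by
      simp only [C_mul, C_pow]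
      rw [show (C (2 : ℝ)) = (2 : ℝ[X]) from map_ofNat C 2]
      ring
    rw [h1, map_add, map_add, I_C_mul, I_C_mul, I_norm, hs, I_sum_orth]
    ring

/-- parity -/
lemma LP_neg (n : ℕ) (x : ℝ) : (LP n).eval (-x) = (-1) ^ n * (LP n).eval x := by
  induction n using Nat.twoStepInduction with
  | zero => simp [LP_zero]
  | one => simp [LP_one]
  | more n h0 h1 =>
    rw [LP_two]
    simp only [eval_sub, eval_mul, eval_C, eval_X]
    rw [h0, h1]
    ring

lemma LP_eval_two (n : ℕ) (x : ℝ) : (LP (n + 2)).eval x =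
    (2 * (n : ℝ) + 3) / (n + 2) * x * (LP (n + 1)).eval x - ((n : ℝ) + 1) / (n + 2) * (LP n).eval x := by
  rw [LP_two]
  simp only [eval_sub, eval_mul, eval_C, eval_X]

lemma LP_at_one (n : ℕ) : (LP n).eval 1 = 1 := by
  induction n using Nat.twoStepInduction with
  | zero => simp [LP_zero]
  | one => simp [LP_one]
  | more n h0 h1 =>
    rw [LP_eval_two, h0, h1]
    have hn : (n : ℝ) + 2 ≠ 0 := by positivity
    field_simp
    ring

/-- the quadratic form -/
noncomputable def ee (n : ℕ) (x : ℝ) : ℝ :=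
  (LP n).eval x ^ 2 - 2 * x * (LP n).eval x * (LP (n + 1)).eval x + (LP (n + 1)).eval x ^ 2

lemma ee_eq (n : ℕ) (x : ℝ) : ee n x = (1 - x ^ 2) * (LP (n + 1)).eval x ^ 2 +
    ((LP n).eval x - x * (LP (n + 1)).eval x) ^ 2 := by
  unfold ee; ring

lemma ee_succ (n : ℕ) (x : ℝ) : ee (n + 1) x = (1 - x ^ 2) * (LP (n + 1)).eval x ^ 2 +
    (((n : ℝ) + 1) / ((n : ℝ) + 2)) ^ 2 * ((LP n).eval x - x * (LP (n + 1)).eval x) ^ 2 := by
  have hn : (n : ℝ) + 2 ≠ 0 := by positivity
  have hP : (LP (n + 2)).eval x = x * (LP (n + 1)).eval x -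
      ((n : ℝ) + 1) / ((n : ℝ) + 2) * ((LP n).eval x - x * (LP (n + 1)).eval x) := by
    rw [LP_eval_two]; field_simp; ring
  have e : n + 1 + 1 = n + 2 := rfl
  unfold ee
  rw [e, hP]
  ring

lemma ee_le (x : ℝ) (n : ℕ) : ee n x ≤ 1 - x ^ 2 := by
  induction n with
  | zero =>
    unfold ee
    rw [zero_add, LP_zero, LP_one, eval_one, eval_X]
    nlinarith
  | succ n ih =>
    refine le_trans ?_ ih
    rw [ee_succ, ee_eq]
    have h1 : (((n : ℝ) + 1) / ((n : ℝ) + 2)) ^ 2 ≤ 1 := by
      apply pow_le_one₀ (by positivity)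
      rw [div_le_one (by positivity)]
      linarith
    have h2 := mul_le_mul_of_nonneg_right h1 (sq_nonneg ((LP n).eval x - x * (LP (n + 1)).eval x))
    linarith

lemma abs_LP_le (n : ℕ) (x : ℝ) (hx : |x| ≤ 1) : |(LP n).eval x| ≤ 1 := by
  rcases n with _ | n
  · rw [LP_zero, eval_one]; simp
  · rcases hx.eq_or_lt with h | h
    · rcases (abs_eq zero_le_one).1 h with h1 | h1
      · rw [h1, LP_at_one]; simp
      · rw [h1, LP_neg, LP_at_one, mul_one, abs_pow]; simp
    · have h1 : x ^ 2 < 1 := by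
        rw [← sq_abs]
        nlinarith [abs_nonneg x]
      have h2 := ee_le x n
      rw [ee_eq] at h2
      have h3 := sq_nonneg ((LP n).eval x - x * (LP (n + 1)).eval x)
      have h4 : (1 - x ^ 2) * (LP (n + 1)).eval x ^ 2 ≤ (1 - x ^ 2) * 1 := by linarith
      have h5 : (LP (n + 1)).eval x ^ 2 ≤ 1 := le_of_mul_le_mul_left h4 (by linarith)
      exact (sq_le_one_iff_abs_le_one _).1 h5

lemma sum_w (N : ℕ) : ∑ k ∈ Finset.range N, (2 * (k : ℝ) + 1) / 2 = (N : ℝ) ^ 2 / 2 := by
  induction N with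
  | zero => simp
  | succ N ih =>
    rw [Finset.sum_range_succ, ih]
    push_cast
    ring

end LegLeaf

open LegLeaf

/-- Legendre facts -/
theorem leg_facts : S_LEG := by
  refine ⟨fun N => ⟨LP_natDegree N, LP_leadingCoeff N, lc_pos N⟩, fun N x hx => abs_LP_le N x hx,
    fun N => ?_, fun N h hh => ?_, fun N x => LP_neg N x⟩
  · rw [n2_eq, I_norm]
  · obtain ⟨c, hc⟩ := expand' h hh
    have h1 := I_sum_orth N c
    rw [← hc, I_apply] at h1
    simpa only [eval_mul] using h1

/-- the sup norm and the `L²`-norm -/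
theorem sup_bound : S_SUP := by
  intro N h hN hh x hx
  obtain ⟨c, hc⟩ := expand' h hh
  have h1 : h.eval x = ∑ k ∈ Finset.range N, c k * (LP k).eval x := by
    rw [hc, eval_finsetSum]
    simp only [eval_mul, eval_C]
  have hN' : (0 : ℝ) < N := by exact_mod_cast hN
  have h2 := Finset.sq_sum_div_le_sum_sq_div (Finset.range N) (fun k => c k * (LP k).eval x)
    (g := fun k => (2 * (k : ℝ) + 1) / 2) (fun k _ => by positivity)
  rw [sum_w, ← h1] at h2
  have h3 : ∑ k ∈ Finset.range N, (c k * (LP k).eval x) ^ 2 / ((2 * (k : ℝ) + 1) / 2) ≤ n2 h := by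
    rw [hc, n2_sum]
    refine Finset.sum_le_sum fun k _ => ?_
    have h4 : (LP k).eval x ^ 2 ≤ 1 := (sq_le_one_iff_abs_le_one _).2 (abs_LP_le k x hx)
    have h5 : (c k * (LP k).eval x) ^ 2 / ((2 * (k : ℝ) + 1) / 2) =
        c k ^ 2 * (2 / (2 * k + 1)) * (LP k).eval x ^ 2 := by
      have : (2 * (k : ℝ) + 1) ≠ 0 := by positivity
      field_simp
    rw [h5]
    exact mul_le_of_le_one_right (by positivity) h4
  rw [div_le_iff₀ (by positivity)] at h2
  nlinarith [h2, h3, sq_nonneg (N : ℝ)]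

end Pool.Agent.K9h30.AL
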