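import Pool.Agent.K9h30.AL.Stm

/-!
# MP_c605fa_an: uniqueness and parity of the self-orthogonal polynomial, and the zeros from the
sign pattern (leaf PAR, helper81)
-/

set_option autoImplicit false

open Polynomial MeasureTheory intervalIntegral

namespace Pool.Agent.K9h30.AL

namespace Par

open Pool.Agent.Results.MP_c605fa_an.MinArcLength in
lemma A_strict {u v : ℝ} (h : u ≠ v) : 0 < (A u - A v) * (u - v) := by
  have h1 := tangent_lt h
  have h2 := tangent_lt h.symm
  unfold A
  nlinarith

lemma A_mono_mul (u v : ℝ) : 0 ≤ (A u - A v) * (u - v) := by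
  by_cases h : u = v
  · subst h; simp
  · exact (A_strict h).le

lemma A_neg (u : ℝ) : A (-u) = -A u := by
  unfold A
  rw [neg_sq, neg_div]

lemma A_cont (Q : ℝ[X]) : Continuous fun x : ℝ => A (Q.eval x) :=
  Pool.Agent.Results.MP_c605fa_an.MinArcLength.cont_q Q

lemma orth_poly {N : ℕ} {Q : ℝ[X]} (h : IsOrth N Q) (R : ℝ[X]) (hR : R.natDegree < N) :
    ∫ x in (-1 : ℝ)..1, A (Q.eval x) * R.eval x = 0 := by
  have e1 : ∀ x : ℝ, A (Q.eval x) * R.eval x
      = ∑ k ∈ Finset.range N, R.coeff k * (x ^ k * A (Q.eval x)) := by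
    intro x
    rw [eval_eq_sum_range' hR x, Finset.mul_sum]
    exact Finset.sum_congr rfl fun k _ => by ring
  simp only [e1]
  rw [intervalIntegral.integral_finsetSum]
  · apply Finset.sum_eq_zero
    intro k hk
    rw [Finset.mem_range] at hk
    rw [intervalIntegral.integral_const_mul, h.orth k hk, mul_zero]
  · intro k _
    exact (continuous_const.mul ((continuous_pow k).mul (A_cont Q))).intervalIntegrable _ _

lemma uniq {N : ℕ} {Q Q' : ℝ[X]} (hN : 1 ≤ N) (h : IsOrth N Q) (h' : IsOrth N Q') : Q' = Q := by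
  by_contra hne
  set R := Q' - Q with hRdef
  have hR0 : R ≠ 0 := sub_ne_zero.mpr hne
  have hQ0 : Q ≠ 0 := by
    rintro rfl
    have := h.deg
    simp at this
    omega
  have hQ0' : Q' ≠ 0 := by
    rintro rfl
    have := h'.deg
    simp at this
    omega
  have hdeg : R.natDegree < N := by
    have h2 : (Q' - Q).degree < Q'.degree := by
      apply degree_sub_lt_left
      · rw [degree_eq_natDegree hQ0, degree_eq_natDegree hQ0', h.deg, h'.deg]
      · exact hQ0'
      · rw [h.lead, h'.lead]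
    rw [← hRdef, degree_eq_natDegree hR0, degree_eq_natDegree hQ0', h'.deg] at h2
    exact_mod_cast h2
  have hex : ∃ c ∈ Set.Icc (-1 : ℝ) 1, R.eval c ≠ 0 := by
    by_contra hcon
    push Not at hcon
    apply hR0
    apply Polynomial.eq_zero_of_infinite_isRoot
    apply Set.Infinite.mono (s := Set.Icc (-1 : ℝ) 1)
    · intro x hx
      exact hcon x hx
    · exact Set.Icc_infinite (by norm_num)
  obtain ⟨c, hc, hcR⟩ := hex
  have hRe : ∀ x, R.eval x = Q'.eval x - Q.eval x := fun x => by rw [hRdef, eval_sub]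
  have hzero : ∫ x in (-1 : ℝ)..1, (A (Q'.eval x) - A (Q.eval x)) * R.eval x = 0 := by
    have e : ∀ x : ℝ, (A (Q'.eval x) - A (Q.eval x)) * R.eval x
        = A (Q'.eval x) * R.eval x - A (Q.eval x) * R.eval x := fun x => by ring
    simp only [e]
    rw [intervalIntegral.integral_sub, orth_poly h R hdeg, orth_poly h' R hdeg, sub_zero]
    · exact ((A_cont Q').mul R.continuous).intervalIntegrable _ _
    · exact ((A_cont Q).mul R.continuous).intervalIntegrable _ _
  have hcont : Continuous fun x : ℝ => (A (Q'.eval x) - A (Q.eval x)) * R.eval x :=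
    ((A_cont Q').sub (A_cont Q)).mul R.continuous
  have hpos : 0 < ∫ x in (-1 : ℝ)..1, (A (Q'.eval x) - A (Q.eval x)) * R.eval x := by
    apply intervalIntegral.integral_pos (by norm_num) hcont.continuousOn
    · intro x _
      show 0 ≤ (A (Q'.eval x) - A (Q.eval x)) * R.eval x
      rw [hRe]
      exact A_mono_mul _ _
    · refine ⟨c, hc, ?_⟩
      show 0 < (A (Q'.eval c) - A (Q.eval c)) * R.eval c
      rw [hRe] at hcR ⊢
      exact A_strict (sub_ne_zero.mp hcR)
  exact absurd hzero hpos.ne'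

lemma refl_orth {N : ℕ} {Q : ℝ[X]} (h : IsOrth N Q) : IsOrth N (C ((-1 : ℝ) ^ N) * Q.comp (-X)) := by
  have hs : ((-1 : ℝ) ^ N) * (-1) ^ N = 1 := by
    rw [← mul_pow]; norm_num
  have hs0 : ((-1 : ℝ) ^ N) ≠ 0 := by
    intro h0; rw [h0] at hs; simp at hs
  refine ⟨?_, ?_, ?_⟩
  · rw [natDegree_C_mul hs0, natDegree_comp, natDegree_neg, natDegree_X, mul_one, h.deg]
  · rw [leadingCoeff_mul, leadingCoeff_C, leadingCoeff_comp (by simp), leadingCoeff_neg,
      leadingCoeff_X, h.deg, h.lead]
    linear_combination ((N : ℝ) + 1) * hs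
  · intro k hk
    have hev : ∀ x : ℝ, (C ((-1 : ℝ) ^ N) * Q.comp (-X)).eval x = (-1) ^ N * Q.eval (-x) := by
      intro x
      simp
    have hsg : (-1 : ℝ) ^ N = 1 ∨ (-1 : ℝ) ^ N = -1 := neg_one_pow_eq_or ℝ N
    have hA : ∀ u : ℝ, A ((-1) ^ N * u) = (-1) ^ N * A u := by
      intro u
      rcases hsg with e | e <;> rw [e]
      · simp
      · rw [neg_one_mul, neg_one_mul, A_neg]
    simp only [hev, hA]
    have e2 : ∀ x : ℝ, x ^ k * ((-1) ^ N * A (Q.eval (-x)))
        = (fun t : ℝ => (-1) ^ N * (-1) ^ k * (t ^ k * A (Q.eval t))) (-x) := by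
      intro x
      show _ = (-1) ^ N * (-1) ^ k * ((-x) ^ k * A (Q.eval (-x)))
      have e3 : (-x) ^ k = (-1) ^ k * x ^ k := by rw [neg_pow]
      have e4 : ((-1 : ℝ) ^ k) * (-1) ^ k = 1 := by rw [← mul_pow]; norm_num
      rw [e3]
      linear_combination -((-1) ^ N * x ^ k * A (Q.eval (-x))) * e4
    rw [intervalIntegral.integral_congr (g := fun x : ℝ =>
      (fun t : ℝ => (-1) ^ N * (-1) ^ k * (t ^ k * A (Q.eval t))) (-x)) (fun x _ => e2 x),
      intervalIntegral.integral_comp_neg
        (f := fun t : ℝ => (-1) ^ N * (-1) ^ k * (t ^ k * A (Q.eval t))), neg_neg,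
      intervalIntegral.integral_const_mul, h.orth k hk, mul_zero]

end Par

theorem par : S_PAR := by
  intro N Q hN h
  refine ⟨fun Q' h' => Par.uniq hN h h', fun x => ?_⟩
  have e := Par.uniq hN h (Par.refl_orth h)
  have e2 := congrArg (fun R : ℝ[X] => R.eval x) e
  simp only [eval_mul, eval_C, eval_comp, eval_neg, eval_X] at e2
  have hs : ((-1 : ℝ) ^ N) * (-1) ^ N = 1 := by
    rw [← mul_pow]; norm_num
  linear_combination -(Q.eval (-x)) * hs + (-1) ^ N * e2

namespace Par

lemma monic_of_deriv {N : ℕ} {Q P : ℝ[X]} (h : IsOrth N Q) (hP : P.derivative = Q) :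
    P.natDegree = N + 1 ∧ P.Monic := by
  have hN1 : (0 : ℝ) < (N : ℝ) + 1 := by positivity
  have hQ0 : Q ≠ 0 := by
    rintro rfl
    have := h.lead
    rw [leadingCoeff_zero] at this
    linarith
  have hc : P.coeff (N + 1) = 1 := by
    have h1 : Q.coeff N = N + 1 := by
      have := h.lead
      rw [leadingCoeff, h.deg] at this
      exact this
    rw [← hP, coeff_derivative] at h1
    have h2 : (P.coeff (N + 1) - 1) * ((N : ℝ) + 1) = 0 := by linarith
    rcases mul_eq_zero.mp h2 with h3 | h3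
    · linarith
    · exact absurd h3 hN1.ne'
  have hle : P.natDegree ≤ N + 1 := by
    by_contra hlt
    push Not at hlt
    have h1 : P.coeff P.natDegree ≠ 0 := by
      rw [coeff_natDegree, Ne, leadingCoeff_eq_zero]
      rintro rfl
      simp at hlt
    have h2 : Q.coeff (P.natDegree - 1) = 0 := by
      apply coeff_eq_zero_of_natDegree_lt
      rw [h.deg]; omega
    rw [← hP, coeff_derivative] at h2
    have h3 : P.natDegree - 1 + 1 = P.natDegree := by omega
    rw [h3] at h2
    rcases mul_eq_zero.mp h2 with h4 | h4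
    · exact h1 h4
    · have : (0 : ℝ) < ((P.natDegree - 1 : ℕ) : ℝ) + 1 := by positivity
      exact this.ne' h4
  have hge : N + 1 ≤ P.natDegree := by
    apply le_natDegree_of_ne_zero
    rw [hc]; norm_num
  have hd : P.natDegree = N + 1 := le_antisymm hle hge
  refine ⟨hd, ?_⟩
  rw [Monic, leadingCoeff, hd, hc]

lemma prod_of_roots {n : ℕ} {P : ℝ[X]} (hd : P.natDegree = n) (hm : P.Monic) (x : Fin n → ℝ)
    (hx : Function.Injective x) (h0 : ∀ i, P.eval (x i) = 0) : P = ∏ i, (X - C (x i)) := by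
  have hm' : (∏ i, (X - C (x i)) : ℝ[X]).Monic := monic_prod_of_monic _ _ fun i _ => monic_X_sub_C _
  have hd' : (∏ i, (X - C (x i)) : ℝ[X]).natDegree = n := by
    rw [natDegree_prod_of_monic _ _ fun i _ => monic_X_sub_C _]
    simp
  apply eq_of_degree_sub_lt_of_eval_index_eq (s := Finset.univ) (v := x) hx.injOn
  · rw [Finset.card_univ, Fintype.card_fin]
    have h1 : (P - ∏ i, (X - C (x i))).degree < P.degree := by
      apply degree_sub_lt_left
      · rw [degree_eq_natDegree hm.ne_zero, degree_eq_natDegree hm'.ne_zero, hd, hd']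
      · exact hm.ne_zero
      · rw [hm.leadingCoeff, hm'.leadingCoeff]
    rwa [degree_eq_natDegree hm.ne_zero, hd] at h1
  · intro i _
    rw [h0, eval_prod]
    symm
    apply Finset.prod_eq_zero (Finset.mem_univ i)
    simp

lemma root_between {P : ℝ[X]} {a b : ℝ} (hab : a ≤ b) {s : ℝ} (ha : 0 ≤ s * P.eval a)
    (hb : s * P.eval b ≤ 0) (hs : s ≠ 0) : ∃ c ∈ Set.Icc a b, P.eval c = 0 := by
  have hc : ContinuousOn (fun t => s * P.eval t) (Set.Icc a b) := by fun_prop
  obtain ⟨c, hc, h0⟩ := intermediate_value_Icc' hab hc ⟨hb, ha⟩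
  refine ⟨c, hc, ?_⟩
  rcases mul_eq_zero.mp h0 with h | h
  · exact absurd h hs
  · exact h

end Par

theorem asm : S_ASM := by
  intro N Q hN h P hP h1 hm1 y hy hsig
  obtain ⟨hd, hm⟩ := Par.monic_of_deriv h hP
  -- the extended points
  let z : ℕ → ℝ := fun i => if i = 0 then -1 else if hi : i - 1 < N then y ⟨i - 1, hi⟩ else 1
  have hz0 : z 0 = -1 := by simp [z]
  have hzj : ∀ j : Fin N, z (j + 1) = y j := by
    intro j
    simp only [z]
    rw [if_neg (by omega), dif_pos (by simp)]
    rfl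
  have hzN : z (N + 1) = 1 := by
    simp [z]
  have hsz : ∀ i ≤ N + 1, 0 ≤ (-1) ^ (N + 1 + i) * P.eval (z i) := by
    intro i hi
    rcases Nat.eq_zero_or_pos i with rfl | hpos
    · rw [hz0, add_zero]; exact hm1
    · rcases Nat.lt_or_ge (i - 1) N with hlt | hge
      · have e := hzj ⟨i - 1, hlt⟩
        have e1 : ((⟨i - 1, hlt⟩ : Fin N) : ℕ) + 1 = i := by
          show i - 1 + 1 = i
          omega
        rw [e1] at e
        rw [e]
        have h3 := (hsig ⟨i - 1, hlt⟩).2.2
        have e2 : N + 1 + i = N + (i - 1) + 2 := by omega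
        rw [e2, pow_add]
        have e3 : ((-1 : ℝ)) ^ 2 = 1 := by norm_num
        rw [e3, mul_one]
        exact h3.le
      · have : i = N + 1 := by omega
        subst this
        rw [hzN]
        have e2 : ((-1 : ℝ)) ^ (N + 1 + (N + 1)) = 1 := by
          rw [← two_mul, pow_mul]; norm_num
        rw [e2, one_mul]
        exact h1
  have hzmono : ∀ i ≤ N, z i ≤ z (i + 1) := by
    intro i hi
    rcases Nat.eq_zero_or_pos i with rfl | hpos
    · rw [hz0, zero_add]
      rw [show (1 : ℕ) = ((⟨0, by omega⟩ : Fin N) : ℕ) + 1 from rfl, hzj]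
      exact (hsig _).1.le
    · have hi' : i - 1 < N := by omega
      have e1 : z i = y ⟨i - 1, hi'⟩ := by
        have e4 := hzj ⟨i - 1, hi'⟩
        have e5 : ((⟨i - 1, hi'⟩ : Fin N) : ℕ) + 1 = i := by
          show i - 1 + 1 = i
          omega
        rw [e5] at e4
        exact e4
      rcases Nat.lt_or_ge i N with hlt | hge
      · have e2 : z (i + 1) = y ⟨i, hlt⟩ := hzj ⟨i, hlt⟩
        rw [e2, e1]
        apply (hy _).le
        rw [Fin.lt_def]
        show i - 1 < i
        omega
      · have e2 : i = N := by omega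
        have e3 : z (i + 1) = 1 := by rw [e2]; exact hzN
        rw [e3, e1]
        exact (hsig _).2.1.le
  have hroot : ∀ i : Fin (N + 1), ∃ c ∈ Set.Icc (z i) (z (i + 1)), P.eval c = 0 := by
    intro i
    have hi : (i : ℕ) ≤ N := by have := i.2; omega
    have ha := hsz i (by omega)
    have hb := hsz (i + 1) (by omega)
    apply Par.root_between (hzmono i hi) (s := (-1) ^ (N + 1 + (i : ℕ))) ha
    · have e : ((-1 : ℝ)) ^ (N + 1 + ((i : ℕ) + 1)) = -(-1) ^ (N + 1 + (i : ℕ)) := by
        rw [← add_assoc, pow_succ]; ring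
      rw [e] at hb
      linarith
    · exact pow_ne_zero _ (by norm_num)
  choose x hx hx0 using hroot
  have hyne : ∀ j : Fin N, P.eval (y j) ≠ 0 := by
    intro j h0
    have := (hsig j).2.2
    rw [h0, mul_zero] at this
    exact lt_irrefl _ this
  have hint : ∀ j : Fin N, x j.castSucc < y j ∧ y j < x j.succ := by
    intro j
    constructor
    · have h3 := (hx j.castSucc).2
      have e : z ((j.castSucc : ℕ) + 1) = y j := hzj j
      rw [e] at h3
      apply lt_of_le_of_ne h3
      intro h4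
      apply hyne j
      rw [← h4]; exact hx0 _
    · have h3 := (hx j.succ).1
      have e : z (j.succ : ℕ) = y j := by
        rw [Fin.val_succ]; exact hzj j
      rw [e] at h3
      apply lt_of_le_of_ne h3
      intro h4
      apply hyne j
      rw [h4]; exact hx0 _
  have hxm : StrictMono x := by
    rw [Fin.strictMono_iff_lt_succ]
    intro j
    exact (hint j).1.trans (hint j).2
  refine ⟨x, hxm, ?_, hint, Par.prod_of_roots hd hm x hxm.injective hx0⟩
  -- in [-1,1]
  intro i
  have hlow : -1 ≤ x 0 := by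
    have h3 := (hx 0).1
    have e : z ((0 : Fin (N + 1)) : ℕ) = -1 := hz0
    rw [e] at h3
    exact h3
  have hup : x (Fin.last N) ≤ 1 := by
    have h3 := (hx (Fin.last N)).2
    have e : z ((Fin.last N : ℕ) + 1) = 1 := hzN
    rw [e] at h3
    exact h3
  exact ⟨hlow.trans (hxm.monotone (Fin.zero_le i)), (hxm.monotone (Fin.le_last i)).trans hup⟩

end Pool.Agent.K9h30.AL
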