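import Pool.Agent.K9h30.AL.Stm

/-!
# MP_c605fa_an: the stability lemma (helper26 for helper30)
-/

set_option autoImplicit false

open Polynomial MeasureTheory intervalIntegral

namespace Pool.Agent.K9h30.AL

namespace StabLeaf

lemma s_pos (u : ℝ) : 0 < Real.sqrt (1 + u ^ 2) := Real.sqrt_pos.2 (by positivity)

lemma s_sq (u : ℝ) : Real.sqrt (1 + u ^ 2) ^ 2 = 1 + u ^ 2 := Real.sq_sqrt (by positivity)

lemma A_cont : Continuous A := by
  unfold A
  refine continuous_id.div ?_ fun u => (s_pos u).ne'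
  fun_prop

lemma A_deriv (u : ℝ) : HasDerivAt A (1 / Real.sqrt (1 + u ^ 2) ^ 3) u := by
  have h1 : HasDerivAt (fun u : ℝ => 1 + u ^ 2) (2 * u) u := by
    simpa using (hasDerivAt_pow 2 u).const_add 1
  have h2 : HasDerivAt (fun u : ℝ => Real.sqrt (1 + u ^ 2)) (2 * u / (2 * Real.sqrt (1 + u ^ 2))) u :=
    h1.sqrt (by positivity)
  have h3 := (hasDerivAt_id u).div h2 (s_pos u).ne'
  have hs := s_pos u
  have hq := s_sq u
  have e : (1 * Real.sqrt (1 + u ^ 2) - id u * (2 * u / (2 * Real.sqrt (1 + u ^ 2)))) /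
      Real.sqrt (1 + u ^ 2) ^ 2 = 1 / Real.sqrt (1 + u ^ 2) ^ 3 := by
    simp only [id]
    field_simp
    nlinarith
  rw [e] at h3
  exact h3

/-- the increments of `A` on `[-R, R]` -/
lemma A_low {R u v : ℝ} (hu : |u| ≤ R) (hv : |v| ≤ R) (huv : u ≤ v) :
    1 / Real.sqrt (1 + R ^ 2) ^ 3 * (v - u) ≤ A v - A u := by
  have hR : 0 ≤ R := (abs_nonneg u).trans hu
  refine (convex_Icc (-R) R).mul_sub_le_image_sub_of_le_deriv A_cont.continuousOn
    (fun x _ => (A_deriv x).differentiableAt.differentiableWithinAt) ?_ u (abs_le.1 hu) v (abs_le.1 hv) huv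
  intro x hx
  rw [interior_Icc] at hx
  rw [(A_deriv x).deriv]
  have h1 : x ^ 2 ≤ R ^ 2 := by
    have : |x| ≤ R := abs_le.2 ⟨hx.1.le, hx.2.le⟩
    rw [← sq_abs x]
    exact pow_le_pow_left₀ (abs_nonneg x) this 2
  apply one_div_le_one_div_of_le (pow_pos (s_pos x) 3)
  exact pow_le_pow_left₀ (s_pos x).le (Real.sqrt_le_sqrt (by linarith)) 3

lemma A_mono : Monotone A := by
  intro u v huv
  have h := A_low (R := max |u| |v|) (le_max_left _ _) (le_max_right _ _) huv
  have h0 : 0 ≤ 1 / Real.sqrt (1 + (max |u| |v|) ^ 2) ^ 3 * (v - u) :=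
    mul_nonneg (by positivity) (by linarith)
  linarith

/-- the monotonicity step -/
lemma step1 {q e θ : ℝ} (hθ : θ ≤ 1) : A (q + θ * e) * e ≤ A (q + e) * e := by
  rcases le_total 0 e with he | he
  · exact mul_le_mul_of_nonneg_right (A_mono (by nlinarith)) he
  · exact mul_le_mul_of_nonpos_right (A_mono (by nlinarith)) he

/-- the strong monotonicity step -/
lemma step2 {q e θ R : ℝ} (hθ : 0 ≤ θ) (hq : |q| ≤ R) (hqe : |q + θ * e| ≤ R) :
    A q * e + 1 / Real.sqrt (1 + R ^ 2) ^ 3 * θ * e ^ 2 ≤ A (q + θ * e) * e := by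
  rcases le_total 0 e with he | he
  · have h := A_low hq hqe (by nlinarith)
    have h' := mul_le_mul_of_nonneg_right h he
    nlinarith
  · have h := A_low hqe hq (by nlinarith)
    have h' := mul_le_mul_of_nonneg_right h (neg_nonneg.2 he)
    nlinarith

end StabLeaf

open StabLeaf

theorem stab : S_STAB := by
  intro Q₀ d U K δ ρ hU hK hδ hρ h0 h1 hQ hd hlt
  by_contra hcon
  push Not at hcon
  set D := Real.sqrt (n2 d) with hD
  have hD0 : 0 < D := hρ.trans_le hcon
  have hn : n2 d = D ^ 2 := by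
    rw [hD, Real.sq_sqrt]
    unfold n2
    exact intervalIntegral.integral_nonneg (by norm_num) fun x _ => sq_nonneg _
  set θ := ρ / D with hθ
  have hθ0 : 0 < θ := by positivity
  have hθ1 : θ ≤ 1 := (div_le_one hD0).2 hcon
  have hθD : θ * D = ρ := by rw [hθ]; field_simp
  set R := U + K * ρ with hR
  have hR0 : 0 ≤ R := by positivity
  set s := Real.sqrt (1 + R ^ 2) with hs
  have hs0 : 0 < s := s_pos R
  have hs2 : s ^ 2 = 1 + R ^ 2 := s_sq R
  set κ := 1 / s ^ 3 with hκ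
  have hκ0 : 0 < κ := by positivity
  -- `δ < κ ρ`
  have hdk : δ < κ * ρ := by
    have e : δ ^ 2 * (s ^ 3) ^ 2 < ρ ^ 2 := by
      have : (s ^ 3) ^ 2 = (1 + R ^ 2) ^ 3 := by rw [← hs2]; ring
      rw [this]; exact hlt
    have e2 : δ * s ^ 3 < ρ := by
      have : (δ * s ^ 3) ^ 2 < ρ ^ 2 := by rw [mul_pow]; exact e
      exact lt_of_pow_lt_pow_left₀ 2 hρ.le this
    rw [hκ, one_div, inv_mul_eq_div, lt_div_iff₀ (by positivity)]
    exact e2
  -- continuity
  have c0 : Continuous fun x : ℝ => Q₀.eval x := Q₀.continuous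
  have c1 : Continuous fun x : ℝ => d.eval x := d.continuous
  have cA : Continuous fun x : ℝ => A (Q₀.eval x) * d.eval x := (A_cont.comp c0).mul c1
  have cB : Continuous fun x : ℝ => A (Q₀.eval x + θ * d.eval x) * d.eval x :=
    (A_cont.comp (c0.add (continuous_const.mul c1))).mul c1
  have cC : Continuous fun x : ℝ => A (Q₀.eval x + d.eval x) * d.eval x :=
    (A_cont.comp (c0.add c1)).mul c1
  have c2 : Continuous fun x : ℝ => κ * θ * d.eval x ^ 2 := continuous_const.mul (c1.pow 2)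
  -- the inequalities between integrals
  have i1 : ∫ x in (-1 : ℝ)..1, A (Q₀.eval x + θ * d.eval x) * d.eval x ≤ 0 := by
    have h : ∫ x in (-1 : ℝ)..1, A (Q₀.eval x + θ * d.eval x) * d.eval x ≤
        ∫ x in (-1 : ℝ)..1, A (Q₀.eval x + d.eval x) * d.eval x :=
      intervalIntegral.integral_mono_on (by norm_num) (cB.intervalIntegrable _ _)
        (cC.intervalIntegrable _ _) fun x _ => step1 hθ1
    have e : ∫ x in (-1 : ℝ)..1, A (Q₀.eval x + d.eval x) * d.eval x = 0 := by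
      simpa only [eval_add] using h0
    linarith
  have i2 : (∫ x in (-1 : ℝ)..1, A (Q₀.eval x) * d.eval x) + κ * θ * D ^ 2 ≤
      ∫ x in (-1 : ℝ)..1, A (Q₀.eval x + θ * d.eval x) * d.eval x := by
    have e : κ * θ * D ^ 2 = ∫ x in (-1 : ℝ)..1, κ * θ * d.eval x ^ 2 := by
      rw [intervalIntegral.integral_const_mul, ← hn]
      rfl
    rw [e, ← intervalIntegral.integral_add (cA.intervalIntegrable _ _) (c2.intervalIntegrable _ _)]
    refine intervalIntegral.integral_mono_on (by norm_num)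
      ((cA.add c2).intervalIntegrable _ _) (cB.intervalIntegrable _ _) fun x hx => ?_
    have hx1 : |x| ≤ 1 := abs_le.2 ⟨hx.1, hx.2⟩
    have a1 : |Q₀.eval x| ≤ U := hQ x hx1
    have a2 : |d.eval x| ≤ K * D := hd x hx1
    refine step2 hθ0.le (a1.trans (by rw [hR]; nlinarith [mul_nonneg hK hρ.le])) ?_
    calc |Q₀.eval x + θ * d.eval x| ≤ |Q₀.eval x| + |θ * d.eval x| := abs_add_le _ _
      _ = |Q₀.eval x| + θ * |d.eval x| := by rw [abs_mul, abs_of_pos hθ0]
      _ ≤ U + θ * (K * D) := add_le_add a1 (mul_le_mul_of_nonneg_left a2 hθ0.le)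
      _ = R := by rw [hR, ← hθD]; ring
  have i3 : -(δ * D) ≤ ∫ x in (-1 : ℝ)..1, A (Q₀.eval x) * d.eval x := (abs_le.1 h1).1
  have e4 : κ * θ * D ^ 2 = κ * ρ * D := by rw [← hθD]; ring
  have : 0 < (κ * ρ - δ) * D := mul_pos (by linarith) hD0
  nlinarith

end Pool.Agent.K9h30.AL
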