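import Pool.Agent.K9h30.AL.Stm3
import Pool.Agent.K9h30.AL.Basic
import Pool.Agent.K9h30.AL.Leg
import Pool.Agent.K9h30.AL.Par
import Pool.Agent.K9h30.AL.Stab

/-! Leaf C5 (helper30's project on MP_c605fa_an), by helper85: the approximate self-orthogonal
polynomial of degree 5. -/

set_option autoImplicit false

open Polynomial MeasureTheory intervalIntegral

namespace Pool.Agent.K9h30.AL

namespace C5Leaf

/-- approximation of `1 / √(1 + t)` on `[0, 16 / 25]` -/
noncomputable def s (t : ℝ) : ℝ := 499 / 500 - 23 / 50 * t + 19 / 100 * t ^ 2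

lemma s_approx (t : ℝ) (h0 : 0 ≤ t) (h1 : t ≤ 16 / 25) :
    |1 / √(1 + t) - s t| ≤ 3 / 1000 := by
  obtain ⟨r, hr⟩ : ∃ r : ℝ, r = 16 / 25 - t := ⟨_, rfl⟩
  have hr0 : 0 ≤ r := by linarith
  have e1 : 1 - (1 + t) * (s t - 3 / 1000) ^ 2 = (6234375 / 67108864) * t ^ 0 * r ^ 5 +
      (1321875 / 67108864) * t ^ 1 * r ^ 4 +
      (13161475 / 33554432) * t ^ 2 * r ^ 3 +
      (32702067 / 33554432) * t ^ 3 * r ^ 2 +
      (1012469803 / 1677721600) * t ^ 4 * r ^ 1 +
      (2442173831 / 41943040000) * t ^ 5 * r ^ 0 := by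
    rw [hr, s]; ring
  have e2 : (1 + t) * (s t + 3 / 1000) ^ 2 - 1 = (1250625 / 67108864) * t ^ 0 * r ^ 5 +
      (38685525 / 67108864) * t ^ 1 * r ^ 4 +
      (29013605 / 33554432) * t ^ 2 * r ^ 3 +
      (57063753 / 167772160) * t ^ 3 * r ^ 2 +
      (137864957 / 1677721600) * t ^ 4 * r ^ 1 +
      (3565023169 / 41943040000) * t ^ 5 * r ^ 0 := by
    rw [hr, s]; ring
  have f1 : 0 ≤ 1 - (1 + t) * (s t - 3 / 1000) ^ 2 := by rw [e1]; positivity
  have f2 : 0 ≤ (1 + t) * (s t + 3 / 1000) ^ 2 - 1 := by rw [e2]; positivity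
  have h2 : (0 : ℝ) < 1 + t := by linarith
  have h3 : 0 < √(1 + t) := Real.sqrt_pos.mpr h2
  have h4 : √(1 + t) ^ 2 = 1 + t := Real.sq_sqrt h2.le
  have hs : 0 ≤ s t + 3 / 1000 := by
    unfold s
    nlinarith
  rw [abs_le]
  constructor
  · -- s - eps ≤ 1/√(1+t)
    have : (s t - 3 / 1000) * √(1 + t) ≤ 1 := by
      apply le_of_sq_le_sq _ (by norm_num)
      rw [mul_pow, h4]
      linarith
    have h5 : s t - 3 / 1000 ≤ 1 / √(1 + t) := by
      rw [le_div_iff₀ h3]
      exact this
    linarith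
  · have : 1 ≤ (s t + 3 / 1000) * √(1 + t) := by
      apply le_of_sq_le_sq _ (by positivity)
      rw [mul_pow, h4]
      linarith
    have h5 : 1 / √(1 + t) ≤ s t + 3 / 1000 := by
      rw [div_le_iff₀ h3]
      exact this
    linarith

/-- the polynomial function -/
noncomputable def q (x : ℝ) : ℝ := 6 * x ^ 5 - 33 / 5 * x ^ 3 + 7 / 5 * x

lemma Q5_eval (x : ℝ) : Q5.eval x = q x := by
  unfold Q5 q
  simp

lemma q_bound (x : ℝ) (hx : |x| ≤ 1) : |q x| ≤ 4 / 5 := by
  obtain ⟨y, hy⟩ : ∃ y : ℝ, y = x ^ 2 := ⟨_, rfl⟩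
  obtain ⟨z, hz⟩ : ∃ z : ℝ, z = 1 - y := ⟨_, rfl⟩
  have hy0 : 0 ≤ y := by rw [hy]; positivity
  have hz0 : 0 ≤ z := by
    have : x ^ 2 ≤ 1 := by
      rw [← sq_abs]
      exact pow_le_one₀ (abs_nonneg x) hx
    linarith
  have e : 16 / 25 - q x ^ 2 = (16 / 25) * y ^ 0 * z ^ 7 +
      (63 / 25) * y ^ 1 * z ^ 6 +
      (504 / 25) * y ^ 2 * z ^ 5 +
      (626 / 25) * y ^ 3 * z ^ 4 +
      (144 / 25) * y ^ 4 * z ^ 3 +
      (207 / 25) * y ^ 5 * z ^ 2 +
      (232 / 25) * y ^ 6 * z ^ 1 := by
    rw [hz, hy, q]; ring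
  have f : 0 ≤ 16 / 25 - q x ^ 2 := by rw [e]; positivity
  apply abs_le_of_sq_le_sq _ (by norm_num)
  linarith

noncomputable def W (x : ℝ) : ℝ := q x * s (q x ^ 2)

lemma A_approx (x : ℝ) (hx : |x| ≤ 1) : |A (q x) - W x| ≤ 3 / 1000 * |q x| := by
  have h1 := q_bound x hx
  have h2 : q x ^ 2 ≤ 16 / 25 := by
    rw [← sq_abs]
    nlinarith [abs_nonneg (q x)]
  have h3 := s_approx (q x ^ 2) (by positivity) h2
  have e : A (q x) - W x = q x * (1 / √(1 + q x ^ 2) - s (q x ^ 2)) := by
    unfold A W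
    ring
  rw [e, abs_mul, mul_comm]
  gcongr

/-- antiderivative of `W x * x` -/
noncomputable def F1 : ℝ[X] :=
    C (3493 / 7500) * X ^ 3 +
    C (-98113 / 62500) * X ^ 5 +
    C (7769233 / 2187500) * X ^ 7 +
    C (-2593199 / 187500) * X ^ 9 +
    C (16695753 / 343750) * X ^ 11 +
    C (-59805657 / 406250) * X ^ 13 +
    C (124148571 / 312500) * X ^ 15 +
    C (-4471916067 / 5312500) * X ^ 17 +
    C (7938783 / 6250) * X ^ 19 +
    C (-5676858 / 4375) * X ^ 21 +
    C (2450088 / 2875) * X ^ 23 +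
    C (-203148 / 625) * X ^ 25 +
    C (1368 / 25) * X ^ 27

/-- antiderivative of `W x * x ^ 3` -/
noncomputable def F3 : ℝ[X] :=
    C (3493 / 12500) * X ^ 5 +
    C (-98113 / 87500) * X ^ 7 +
    C (7769233 / 2812500) * X ^ 9 +
    C (-7779597 / 687500) * X ^ 11 +
    C (16695753 / 406250) * X ^ 13 +
    C (-19935219 / 156250) * X ^ 15 +
    C (372445713 / 1062500) * X ^ 17 +
    C (-4471916067 / 5937500) * X ^ 19 +
    C (50278959 / 43750) * X ^ 21 +
    C (-17030574 / 14375) * X ^ 23 +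
    C (2450088 / 3125) * X ^ 25 +
    C (-7524 / 25) * X ^ 27 +
    C (36936 / 725) * X ^ 29

/-- antiderivative of `q x ^ 2` -/
noncomputable def Fq : ℝ[X] :=
    C (49 / 75) * X ^ 3 +
    C (-462 / 125) * X ^ 5 +
    C (1509 / 175) * X ^ 7 +
    C (-44 / 5) * X ^ 9 +
    C (36 / 11) * X ^ 11

lemma F1_der (x : ℝ) : (derivative F1).eval x = W x * x := by
  unfold F1 W s q
  simp only [derivative_add, derivative_C_mul, derivative_X_pow, eval_add, eval_mul, eval_C, eval_pow,
    eval_X, eval_natCast, map_natCast]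
  push_cast
  ring

lemma F3_der (x : ℝ) : (derivative F3).eval x = W x * x ^ 3 := by
  unfold F3 W s q
  simp only [derivative_add, derivative_C_mul, derivative_X_pow, eval_add, eval_mul, eval_C, eval_pow,
    eval_X, eval_natCast, map_natCast]
  push_cast
  ring

lemma Fq_der (x : ℝ) : (derivative Fq).eval x = q x ^ 2 := by
  unfold Fq q
  simp only [derivative_add, derivative_C_mul, derivative_X_pow, eval_add, eval_mul, eval_C, eval_pow,
    eval_X, eval_natCast, map_natCast]
  push_cast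
  ring

lemma int1 : ∫ x in (-1 : ℝ)..1, W x * x = 214346851 / 91732265625 := by
  have h := LegLeaf.int_deriv F1
  simp only [F1_der] at h
  rw [h]
  unfold F1
  simp only [eval_add, eval_mul, eval_C, eval_pow, eval_X]
  norm_num

lemma int3 : ∫ x in (-1 : ℝ)..1, W x * x ^ 3 = 322933246847 / 151633435078125 := by
  have h := LegLeaf.int_deriv F3
  simp only [F3_der] at h
  rw [h]
  unfold F3
  simp only [eval_add, eval_mul, eval_C, eval_pow, eval_X]
  norm_num

lemma intq : ∫ x in (-1 : ℝ)..1, q x ^ 2 = 3056 / 28875 := by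
  have h := LegLeaf.int_deriv Fq
  simp only [Fq_der] at h
  rw [h]
  unfold Fq
  simp only [eval_add, eval_mul, eval_C, eval_pow, eval_X]
  norm_num

lemma q_cont : Continuous q := by unfold q; fun_prop

lemma W_cont : Continuous W := by unfold W s; have := q_cont; fun_prop

/-- an odd polynomial of degree below `5` -/
lemma odd_poly (d : ℝ[X]) (hd : d.natDegree < 5) (hodd : ∀ x, d.eval (-x) = -d.eval x) :
    ∃ a b : ℝ, ∀ x, d.eval x = a * x + b * x ^ 3 := by
  have h : ∀ x, d.eval x = d.coeff 0 + d.coeff 1 * x + d.coeff 2 * x ^ 2 + d.coeff 3 * x ^ 3 +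
      d.coeff 4 * x ^ 4 := by
    intro x
    rw [Polynomial.eval_eq_sum_range' hd]
    simp only [Finset.sum_range_succ, Finset.sum_range_zero]
    ring
  refine ⟨d.coeff 1, d.coeff 3, fun x => ?_⟩
  have h0 := hodd 0
  have h1 := hodd 1
  have h2 := hodd 2
  rw [h, h] at h0 h1 h2
  have c0 : d.coeff 0 = 0 := by norm_num at h0; linarith
  have c2 : d.coeff 2 = 0 := by rw [c0] at h1 h2; norm_num at h1 h2; linarith
  have c4 : d.coeff 4 = 0 := by rw [c0, c2] at h1; norm_num at h1; linarith
  rw [h, c0, c2, c4]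
  ring

/-- the linear form against the norm -/
lemma form (a b : ℝ) : (a * (214346851 / 91732265625) + b * (322933246847 / 151633435078125)) ^ 2 ≤
    (445 / 100000) ^ 2 * (2 / 3 * a ^ 2 + 4 / 5 * (a * b) + 2 / 7 * b ^ 2) := by
  have e : (445 / 100000) ^ 2 * (2 / 3 * a ^ 2 + 4 / 5 * (a * b) + 2 / 7 * b ^ 2) -
      (a * (214346851 / 91732265625) + b * (322933246847 / 151633435078125)) ^ 2 =
      (4308381981028125000000000 / 33354201648994801963) * ((33354201648994801963 / 4308381981028125000000000) * a + (20970925672391019296561 / 7121755414639490625000000000) * b) ^ 2 + (1067563441619581272660247061 / 478470934061023248643824051750000000) * b ^ 2 := by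
    ring
  have f : 0 ≤ (4308381981028125000000000 / 33354201648994801963) * ((33354201648994801963 / 4308381981028125000000000) * a + (20970925672391019296561 / 7121755414639490625000000000) * b) ^ 2 + (1067563441619581272660247061 / 478470934061023248643824051750000000) * b ^ 2 := by
    positivity
  linarith

lemma n2_form (d : ℝ[X]) (a b : ℝ) (h : ∀ x, d.eval x = a * x + b * x ^ 3) :
    n2 d = 2 / 3 * a ^ 2 + 4 / 5 * (a * b) + 2 / 7 * b ^ 2 := by
  unfold n2
  have e : ∀ x : ℝ, d.eval x ^ 2 =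
      (derivative (C (a ^ 2 / 3) * X ^ 3 + C (2 * a * b / 5) * X ^ 5 + C (b ^ 2 / 7) * X ^ 7)).eval x := by
    intro x
    rw [h]
    simp only [derivative_add, derivative_C_mul, derivative_X_pow, eval_add, eval_mul, eval_C, eval_pow,
      eval_X, eval_natCast, map_natCast]
    push_cast
    ring
  simp only [e]
  rw [LegLeaf.int_deriv]
  simp only [eval_add, eval_mul, eval_C, eval_pow, eval_X]
  ring

end C5Leaf

open C5Leaf in
/-- leaf C5 -/
theorem c5 : S_C5 := by
  intro Q hQ
  set d : ℝ[X] := Q - Q5 with hd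
  have hQd : Q5 + d = Q := by rw [hd]; ring
  have hdeg5 : Q5.natDegree = 5 := by
    unfold Q5
    compute_degree!
  have hlead5 : Q5.leadingCoeff = 6 := by
    rw [leadingCoeff, hdeg5]
    unfold Q5
    simp
  have hdeg : d.natDegree < 5 := by
    apply deg_sub (by norm_num) hQ.deg hdeg5
    rw [hQ.lead, hlead5]
    norm_num
  have hpar := (par 5 Q (by norm_num) hQ).2
  have hodd : ∀ x, d.eval (-x) = -d.eval x := by
    intro x
    rw [hd, eval_sub, eval_sub, hpar, Q5_eval, Q5_eval]
    unfold q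
    ring
  obtain ⟨a, b, hab⟩ := odd_poly d hdeg hodd
  have hn2 := n2_form d a b hab
  have hn0 : 0 ≤ n2 d := n2_nonneg d
  have hsq : √(n2 d) ^ 2 = n2 d := Real.sq_sqrt hn0
  have hdc : Continuous fun x : ℝ => d.eval x := cont_eval d
  have hAc : Continuous fun x : ℝ => A (q x) := cont_A.comp q_cont
  -- the linear form
  have hW : |∫ x in (-1 : ℝ)..1, W x * d.eval x| ≤ 445 / 100000 * √(n2 d) := by
    have e : ∫ x in (-1 : ℝ)..1, W x * d.eval x =
        a * (214346851 / 91732265625) + b * (322933246847 / 151633435078125) := by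
      have e1 : ∀ x : ℝ, W x * d.eval x = a * (W x * x) + b * (W x * x ^ 3) := by
        intro x
        rw [hab]
        ring
      simp only [e1]
      rw [intervalIntegral.integral_add, intervalIntegral.integral_const_mul,
        intervalIntegral.integral_const_mul, int1, int3]
      all_goals (apply Continuous.intervalIntegrable; have := W_cont; fun_prop)
    rw [e]
    apply abs_le_of_sq_le_sq _ (by positivity)
    rw [mul_pow, hsq, hn2]
    exact form a b
  -- the error
  have hE : |∫ x in (-1 : ℝ)..1, (A (q x) - W x) * d.eval x| ≤ 1 / 1000 * √(n2 d) := by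
    have h1 : |∫ x in (-1 : ℝ)..1, (A (q x) - W x) * d.eval x| ≤
        3 / 1000 * ∫ x in (-1 : ℝ)..1, |q x| * |d.eval x| := by
      rw [← intervalIntegral.integral_const_mul]
      refine (intervalIntegral.abs_integral_le_integral_abs (by norm_num)).trans ?_
      apply intervalIntegral.integral_mono_on (by norm_num)
      · apply Continuous.intervalIntegrable
        have := W_cont
        fun_prop
      · apply Continuous.intervalIntegrable
        have := q_cont
        fun_prop
      · intro x hx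
        have hx1 : |x| ≤ 1 := abs_le.mpr ⟨hx.1, hx.2⟩
        rw [abs_mul, ← mul_assoc]
        gcongr
        exact A_approx x hx1
    have h2 := cs (f := fun x => |q x|) (g := fun x => |d.eval x|) (a := -1) (b := 1)
      (q_cont.abs) hdc.abs (by norm_num)
    simp only [sq_abs] at h2
    rw [intq] at h2
    change _ ≤ _ * n2 d at h2
    have h3 : ∫ x in (-1 : ℝ)..1, |q x| * |d.eval x| ≤ 33 / 100 * √(n2 d) := by
      apply le_of_sq_le_sq _ (by positivity)
      rw [mul_pow, hsq]
      refine h2.trans ?_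
      gcongr
      norm_num
    have h4 : 0 ≤ √(n2 d) := Real.sqrt_nonneg _
    refine h1.trans ?_
    linarith
  have hA : |∫ x in (-1 : ℝ)..1, A (Q5.eval x) * d.eval x| ≤ 55 / 10000 * √(n2 d) := by
    have e : ∫ x in (-1 : ℝ)..1, A (Q5.eval x) * d.eval x =
        (∫ x in (-1 : ℝ)..1, W x * d.eval x) +
          ∫ x in (-1 : ℝ)..1, (A (q x) - W x) * d.eval x := by
      rw [← intervalIntegral.integral_add]
      · congr 1
        funext x
        rw [Q5_eval]
        ring
      all_goals (apply Continuous.intervalIntegrable; have := W_cont; fun_prop)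
    rw [e]
    refine (abs_add_le _ _).trans ?_
    have h4 : 0 ≤ √(n2 d) := Real.sqrt_nonneg _
    linarith
  have hsup : ∀ x, |x| ≤ 1 → |d.eval x| ≤ 354 / 100 * √(n2 d) := by
    intro x hx
    have h1 := sup_bound 5 d (by norm_num) hdeg x hx
    apply abs_le_of_sq_le_sq _ (by positivity)
    rw [mul_pow, hsq]
    refine h1.trans ?_
    gcongr
    norm_num
  have h0 : ∫ x in (-1 : ℝ)..1, A ((Q5 + d).eval x) * d.eval x = 0 := by
    rw [hQd]
    exact orth_poly hQ hdeg
  have key := stab Q5 d (4 / 5) (354 / 100) (55 / 10000) (2 / 100) (by norm_num) (by norm_num)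
    (by norm_num) (by norm_num) h0 hA (fun x hx => by rw [Q5_eval]; exact q_bound x hx) hsup
    (by norm_num)
  rw [← hsq]
  exact pow_le_pow_left₀ (Real.sqrt_nonneg _) key.le 2

end Pool.Agent.K9h30.AL
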