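import Pool.Agent.K9h30.AL.Stm3
import Pool.Agent.K9h30.AL.Basic
import Pool.Agent.K9h30.AL.Leg
import Pool.Agent.K9h30.AL.Par
import Pool.Agent.K9h30.AL.Stab

/-! Leaf C6 (helper30's project on MP_c605fa_an), by helper85: the approximate self-orthogonal
polynomial of degree 6. -/

set_option autoImplicit false

open Polynomial MeasureTheory intervalIntegral

namespace Pool.Agent.K9h30.AL

namespace C6Leaf

/-- approximation of `1 / √(1 + t)` on `[0, 1 / 4]` -/
noncomputable def s (t : ℝ) : ℝ := 9999 / 10000 - 492 / 1000 * t + 28 / 100 * t ^ 2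

lemma s_approx (t : ℝ) (h0 : 0 ≤ t) (h1 : t ≤ 1 / 4) :
    |1 / √(1 + t) - s t| ≤ 4 / 10000 := by
  obtain ⟨r, hr⟩ : ∃ r : ℝ, r = 1 / 4 - t := ⟨_, rfl⟩
  have hr0 : 0 ≤ r := by linarith
  have e1 : 1 - (1 + t) * (s t - 4 / 10000) ^ 2 = (15996 / 15625) * t ^ 0 * r ^ 5 +
      (18011 / 15625) * t ^ 1 * r ^ 4 +
      (93808 / 15625) * t ^ 2 * r ^ 3 +
      (201752 / 15625) * t ^ 3 * r ^ 2 +
      (126464 / 15625) * t ^ 4 * r ^ 1 +
      (3056 / 3125) * t ^ 5 * r ^ 0 := by
    rw [hr, s]; ring
  have e2 : (1 + t) * (s t + 4 / 10000) ^ 2 - 1 = (240036 / 390625) * t ^ 0 * r ^ 5 +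
      (2830669 / 390625) * t ^ 1 * r ^ 4 +
      (4370736 / 390625) * t ^ 2 * r ^ 3 +
      (1820504 / 390625) * t ^ 3 * r ^ 2 +
      (343296 / 390625) * t ^ 4 * r ^ 1 +
      (66704 / 78125) * t ^ 5 * r ^ 0 := by
    rw [hr, s]; ring
  have f1 : 0 ≤ 1 - (1 + t) * (s t - 4 / 10000) ^ 2 := by rw [e1]; positivity
  have f2 : 0 ≤ (1 + t) * (s t + 4 / 10000) ^ 2 - 1 := by rw [e2]; positivity
  have h2 : (0 : ℝ) < 1 + t := by linarith
  have h3 : 0 < √(1 + t) := Real.sqrt_pos.mpr h2
  have h4 : √(1 + t) ^ 2 = 1 + t := Real.sq_sqrt h2.le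
  have hs : 0 ≤ s t + 4 / 10000 := by
    unfold s
    nlinarith
  rw [abs_le]
  constructor
  · have : (s t - 4 / 10000) * √(1 + t) ≤ 1 := by
      apply le_of_sq_le_sq _ (by norm_num)
      rw [mul_pow, h4]
      linarith
    have h5 : s t - 4 / 10000 ≤ 1 / √(1 + t) := by
      rw [le_div_iff₀ h3]
      exact this
    linarith
  · have : 1 ≤ (s t + 4 / 10000) * √(1 + t) := by
      apply le_of_sq_le_sq _ (by positivity)
      rw [mul_pow, h4]
      linarith
    have h5 : 1 / √(1 + t) ≤ s t + 4 / 10000 := by
      rw [div_le_iff₀ h3]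
      exact this
    linarith

/-- the polynomial function -/
noncomputable def q (x : ℝ) : ℝ := 7 * x ^ 6 - 9524 / 1000 * x ^ 4 + 3167 / 1000 * x ^ 2 - 1504 / 10000

lemma Q6_eval (x : ℝ) : Q6.eval x = q x := by
  unfold Q6 q
  simp

lemma q_bound (x : ℝ) (hx : |x| ≤ 1) : |q x| ≤ 4926 / 10000 := by
  obtain ⟨y, hy⟩ : ∃ y : ℝ, y = x ^ 2 := ⟨_, rfl⟩
  obtain ⟨z, hz⟩ : ∃ z : ℝ, z = 1 - y := ⟨_, rfl⟩
  have hy0 : 0 ≤ y := by rw [hy]; positivity
  have hz0 : 0 ≤ z := by
    have : x ^ 2 ≤ 1 := by
      rw [← sq_abs]
      exact pow_le_one₀ (abs_nonneg x) hx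
    linarith
  have e : (4926 / 10000) ^ 2 - q x ^ 2 = (1100173 / 5000000) * y ^ 0 * z ^ 9 +
      (586589 / 200000) * y ^ 1 * z ^ 8 +
      (13238031 / 5000000) * y ^ 2 * z ^ 7 +
      (86621529 / 5000000) * y ^ 3 * z ^ 6 +
      (49822089 / 1000000) * y ^ 4 * z ^ 5 +
      (188331423 / 5000000) * y ^ 5 * z ^ 4 +
      (3026161 / 1000000) * y ^ 6 * z ^ 3 +
      (14177971 / 5000000) * y ^ 7 * z ^ 2 +
      (12608097 / 2500000) * y ^ 8 * z ^ 1 := by
    rw [hz, hy, q]; ring
  have f : 0 ≤ (4926 / 10000) ^ 2 - q x ^ 2 := by rw [e]; positivity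
  apply abs_le_of_sq_le_sq _ (by norm_num)
  linarith

noncomputable def W (x : ℝ) : ℝ := q x * s (q x ^ 2)

lemma A_approx (x : ℝ) (hx : |x| ≤ 1) : |A (q x) - W x| ≤ 4 / 10000 * |q x| := by
  have h1 := q_bound x hx
  have h2 : q x ^ 2 ≤ 1 / 4 := by
    rw [← sq_abs]
    nlinarith [abs_nonneg (q x)]
  have h3 := s_approx (q x ^ 2) (by positivity) h2
  have e : A (q x) - W x = q x * (1 / √(1 + q x ^ 2) - s (q x ^ 2)) := by
    unfold A W
    ring
  rw [e, abs_mul, mul_comm]
  gcongr

/-- antiderivative of `W x` -/
noncomputable def F0 : ℝ[X] :=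
    C (-2836850892268169 / 19073486328125000) * X ^ 1 +
    C (37392751376363909 / 36621093750000000) * X ^ 3 +
    C (-43218338063391419 / 30517578125000000) * X ^ 5 +
    C (-384036693808265649 / 136718750000000000) * X ^ 7 +
    C (5091951513489064103 / 351562500000000000) * X ^ 9 +
    C (-18004288354159684739 / 1375000000000000000) * X ^ 11 +
    C (-54819435555796272931 / 406250000000000000) * X ^ 13 +
    C (12532469574894385767 / 15625000000000000) * X ^ 15 +
    C (-4194759533846080689 / 1660156250000000) * X ^ 17 +
    C (4023963875497067873 / 742187500000000) * X ^ 19 +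
    C (-1220966153728321177 / 146484375000000) * X ^ 21 +
    C (8252139319000633 / 898437500000) * X ^ 23 +
    C (-3456393158169 / 488281250) * X ^ 25 +
    C (61100093369 / 16875000) * X ^ 27 +
    C (-40017467 / 36250) * X ^ 29 +
    C (117649 / 775) * X ^ 31

lemma F0_der (x : ℝ) : (derivative F0).eval x = W x := by
  unfold F0 W s q
  simp only [derivative_add, derivative_C_mul, derivative_X_pow, eval_add, eval_mul, eval_C, eval_pow,
    eval_X, eval_natCast, map_natCast]
  push_cast
  ring

/-- antiderivative of `W x * x ^ 2` -/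
noncomputable def F2 : ℝ[X] :=
    C (-2836850892268169 / 57220458984375000) * X ^ 3 +
    C (37392751376363909 / 61035156250000000) * X ^ 5 +
    C (-43218338063391419 / 42724609375000000) * X ^ 7 +
    C (-42670743756473961 / 19531250000000000) * X ^ 9 +
    C (462904683044460373 / 39062500000000000) * X ^ 11 +
    C (-18004288354159684739 / 1625000000000000000) * X ^ 13 +
    C (-54819435555796272931 / 468750000000000000) * X ^ 15 +
    C (37597408724683157301 / 53125000000000000) * X ^ 17 +
    C (-4194759533846080689 / 1855468750000000) * X ^ 19 +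
    C (574851982213866839 / 117187500000000) * X ^ 21 +
    C (-8546763076098248239 / 1123046875000000) * X ^ 23 +
    C (8252139319000633 / 976562500000) * X ^ 25 +
    C (-384043684241 / 58593750) * X ^ 27 +
    C (61100093369 / 18125000) * X ^ 29 +
    C (-40017467 / 38750) * X ^ 31 +
    C (117649 / 825) * X ^ 33

lemma F2_der (x : ℝ) : (derivative F2).eval x = W x * x ^ 2 := by
  unfold F2 W s q
  simp only [derivative_add, derivative_C_mul, derivative_X_pow, eval_add, eval_mul, eval_C, eval_pow,
    eval_X, eval_natCast, map_natCast]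
  push_cast
  ring

/-- antiderivative of `W x * x ^ 4` -/
noncomputable def F4 : ℝ[X] :=
    C (-2836850892268169 / 95367431640625000) * X ^ 5 +
    C (37392751376363909 / 85449218750000000) * X ^ 7 +
    C (-43218338063391419 / 54931640625000000) * X ^ 9 +
    C (-384036693808265649 / 214843750000000000) * X ^ 11 +
    C (5091951513489064103 / 507812500000000000) * X ^ 13 +
    C (-18004288354159684739 / 1875000000000000000) * X ^ 15 +
    C (-54819435555796272931 / 531250000000000000) * X ^ 17 +
    C (37597408724683157301 / 59375000000000000) * X ^ 19 +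
    C (-199750453992670509 / 97656250000000) * X ^ 21 +
    C (4023963875497067873 / 898437500000000) * X ^ 23 +
    C (-8546763076098248239 / 1220703125000000) * X ^ 25 +
    C (8252139319000633 / 1054687500000) * X ^ 27 +
    C (-3456393158169 / 566406250) * X ^ 29 +
    C (61100093369 / 19375000) * X ^ 31 +
    C (-40017467 / 41250) * X ^ 33 +
    C (16807 / 125) * X ^ 35

lemma F4_der (x : ℝ) : (derivative F4).eval x = W x * x ^ 4 := by
  unfold F4 W s q
  simp only [derivative_add, derivative_C_mul, derivative_X_pow, eval_add, eval_mul, eval_C, eval_pow,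
    eval_X, eval_natCast, map_natCast]
  push_cast
  ring

/-- antiderivative of `q x ^ 2` -/
noncomputable def Fq : ℝ[X] :=
    C (8836 / 390625) * X ^ 1 +
    C (-148849 / 468750) * X ^ 3 +
    C (64473541 / 25000000) * X ^ 5 +
    C (-7803827 / 875000) * X ^ 7 +
    C (4220143 / 281250) * X ^ 9 +
    C (-16667 / 1375) * X ^ 11 +
    C (49 / 13) * X ^ 13

lemma Fq_der (x : ℝ) : (derivative Fq).eval x = q x ^ 2 := by
  unfold Fq q
  simp only [derivative_add, derivative_C_mul, derivative_X_pow, eval_add, eval_mul, eval_C, eval_pow,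
    eval_X, eval_natCast, map_natCast]
  push_cast
  ring

lemma int0 : ∫ x in (-1 : ℝ)..1, W x = -48402265830698531497456313 / 7050954731132812500000000000000 := by
  have h := LegLeaf.int_deriv F0
  simp only [F0_der] at h
  rw [h]
  unfold F0
  simp only [eval_add, eval_mul, eval_C, eval_pow, eval_X]
  norm_num

lemma int2 : ∫ x in (-1 : ℝ)..1, W x * x ^ 2 = -19177657631425530444245719 / 783439414570312500000000000000 := by
  have h := LegLeaf.int_deriv F2
  simp only [F2_der] at h
  rw [h]
  unfold F2
  simp only [eval_add, eval_mul, eval_C, eval_pow, eval_X]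
  norm_num

lemma int4 : ∫ x in (-1 : ℝ)..1, W x * x ^ 4 = -1064253509373661715572830833 / 35254773655664062500000000000000 := by
  have h := LegLeaf.int_deriv F4
  simp only [F4_der] at h
  rw [h]
  unfold F4
  simp only [eval_add, eval_mul, eval_C, eval_pow, eval_X]
  norm_num

lemma intq : ∫ x in (-1 : ℝ)..1, q x ^ 2 = 814726697 / 22522500000 := by
  have h := LegLeaf.int_deriv Fq
  simp only [Fq_der] at h
  rw [h]
  unfold Fq
  simp only [eval_add, eval_mul, eval_C, eval_pow, eval_X]
  norm_num

lemma q_cont : Continuous q := by unfold q; fun_prop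

lemma W_cont : Continuous W := by unfold W s; have := q_cont; fun_prop

/-- an even polynomial of degree below `6` -/
lemma even_poly (d : ℝ[X]) (hd : d.natDegree < 6) (heven : ∀ x, d.eval (-x) = d.eval x) :
    ∃ a b c : ℝ, ∀ x, d.eval x = a + b * x ^ 2 + c * x ^ 4 := by
  have h : ∀ x, d.eval x = d.coeff 0 + d.coeff 1 * x + d.coeff 2 * x ^ 2 + d.coeff 3 * x ^ 3 +
      d.coeff 4 * x ^ 4 + d.coeff 5 * x ^ 5 := by
    intro x
    rw [Polynomial.eval_eq_sum_range' hd]
    simp only [Finset.sum_range_succ, Finset.sum_range_zero]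
    ring
  refine ⟨d.coeff 0, d.coeff 2, d.coeff 4, fun x => ?_⟩
  have h1 := heven 1
  have h2 := heven 2
  have h3 := heven 3
  rw [h, h] at h1 h2 h3
  have c1 : d.coeff 1 = 0 := by linarith
  have c3 : d.coeff 3 = 0 := by linarith
  have c5 : d.coeff 5 = 0 := by linarith
  rw [h, c1, c3, c5]
  ring

/-- the linear form against the norm -/
lemma form (a b c : ℝ) : (a * (-48402265830698531497456313 / 7050954731132812500000000000000) + b * (-19177657631425530444245719 / 783439414570312500000000000000) + c * (-1064253509373661715572830833 / 35254773655664062500000000000000)) ^ 2 ≤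
    (106 / 1000000) ^ 2 * (2 * a ^ 2 + 4 / 3 * (a * b) + 2 / 5 * b ^ 2 + 4 / 5 * (a * c) + 4 / 7 * (b * c) + 2 / 9 * c ^ 2) := by
  have e : (106 / 1000000) ^ 2 * (2 * a ^ 2 + 4 / 3 * (a * b) + 2 / 5 * b ^ 2 + 4 / 5 * (a * c) + 4 / 7 * (b * c) + 2 / 9 * c ^ 2) -
      (a * (-48402265830698531497456313 / 7050954731132812500000000000000) + b * (-19177657631425530444245719 / 783439414570312500000000000000) + c * (-1064253509373661715572830833 / 35254773655664062500000000000000)) ^ 2 =
      (49715962620484192211439514160156250000000000000000000000000000 / 1114874332669975160772107257399502941860984810656446031) * ((1114874332669975160772107257399502941860984810656446031 / 49715962620484192211439514160156250000000000000000000000000000) * a + (40450169473147719611073608484204261514797483560225953 / 5523995846720465801271057128906250000000000000000000000000000) * b + (1065704830735562981620242833340371412177278567843101271 / 248579813102420961057197570800781250000000000000000000000000000) * c) ^ 2 +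
      (174199114479683618870641758968672334665778876665069692343750000000 / 262004902060812730628804416421154454750595893500580698731) * ((262004902060812730628804416421154454750595893500580698731 / 174199114479683618870641758968672334665778876665069692343750000000) * b + (1959681232359338353546566340440501091292406645445971656579 / 1829090702036677998141738469171059513990678204983231769609375000000) * c) ^ 2 +
      (2008474466294486162768228720076114069470702239066881983349609375000 / 5597814196865132121412875548418996926126845979871521131) * ((5597814196865132121412875548418996926126845979871521131 / 2008474466294486162768228720076114069470702239066881983349609375000) * c) ^ 2 := by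
    ring
  have f : 0 ≤ (49715962620484192211439514160156250000000000000000000000000000 / 1114874332669975160772107257399502941860984810656446031) * ((1114874332669975160772107257399502941860984810656446031 / 49715962620484192211439514160156250000000000000000000000000000) * a + (40450169473147719611073608484204261514797483560225953 / 5523995846720465801271057128906250000000000000000000000000000) * b + (1065704830735562981620242833340371412177278567843101271 / 248579813102420961057197570800781250000000000000000000000000000) * c) ^ 2 +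
      (174199114479683618870641758968672334665778876665069692343750000000 / 262004902060812730628804416421154454750595893500580698731) * ((262004902060812730628804416421154454750595893500580698731 / 174199114479683618870641758968672334665778876665069692343750000000) * b + (1959681232359338353546566340440501091292406645445971656579 / 1829090702036677998141738469171059513990678204983231769609375000000) * c) ^ 2 +
      (2008474466294486162768228720076114069470702239066881983349609375000 / 5597814196865132121412875548418996926126845979871521131) * ((5597814196865132121412875548418996926126845979871521131 / 2008474466294486162768228720076114069470702239066881983349609375000) * c) ^ 2 := by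
    positivity
  linarith

lemma n2_form (d : ℝ[X]) (a b c : ℝ) (h : ∀ x, d.eval x = a + b * x ^ 2 + c * x ^ 4) :
    n2 d = 2 * a ^ 2 + 4 / 3 * (a * b) + 2 / 5 * b ^ 2 + 4 / 5 * (a * c) + 4 / 7 * (b * c) + 2 / 9 * c ^ 2 := by
  unfold n2
  have e : ∀ x : ℝ, d.eval x ^ 2 =
      (derivative (C (a ^ 2) * X ^ 1 + C (2 * a * b / 3) * X ^ 3 + C ((b ^ 2 + 2 * a * c) / 5) * X ^ 5 +
        C (2 * b * c / 7) * X ^ 7 + C (c ^ 2 / 9) * X ^ 9)).eval x := by
    intro x
    rw [h]
    simp only [derivative_add, derivative_C_mul, derivative_X_pow, eval_add, eval_mul, eval_C, eval_pow,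
      eval_X, eval_natCast, map_natCast]
    push_cast
    ring
  simp only [e]
  rw [LegLeaf.int_deriv]
  simp only [eval_add, eval_mul, eval_C, eval_pow, eval_X]
  ring

end C6Leaf

open C6Leaf in
/-- leaf C6 -/
theorem c6 : S_C6 := by
  intro Q hQ
  set d : ℝ[X] := Q - Q6 with hd
  have hQd : Q6 + d = Q := by rw [hd]; ring
  have hdeg6 : Q6.natDegree = 6 := by
    unfold Q6
    compute_degree!
  have hlead6 : Q6.leadingCoeff = 7 := by
    rw [leadingCoeff, hdeg6]
    unfold Q6
    simp
  have hdeg : d.natDegree < 6 := by
    apply deg_sub (by norm_num) hQ.deg hdeg6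
    rw [hQ.lead, hlead6]
    norm_num
  have hpar := (par 6 Q (by norm_num) hQ).2
  have heven : ∀ x, d.eval (-x) = d.eval x := by
    intro x
    rw [hd, eval_sub, eval_sub, hpar, Q6_eval, Q6_eval]
    unfold q
    ring
  obtain ⟨a, b, c, hab⟩ := even_poly d hdeg heven
  have hn2 := n2_form d a b c hab
  have hn0 : 0 ≤ n2 d := n2_nonneg d
  have hsq : √(n2 d) ^ 2 = n2 d := Real.sq_sqrt hn0
  have hdc : Continuous fun x : ℝ => d.eval x := cont_eval d
  have hAc : Continuous fun x : ℝ => A (q x) := cont_A.comp q_cont
  -- the linear form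
  have hW : |∫ x in (-1 : ℝ)..1, W x * d.eval x| ≤ 106 / 1000000 * √(n2 d) := by
    have e : ∫ x in (-1 : ℝ)..1, W x * d.eval x = a * (-48402265830698531497456313 / 7050954731132812500000000000000) + b * (-19177657631425530444245719 / 783439414570312500000000000000) + c * (-1064253509373661715572830833 / 35254773655664062500000000000000) := by
      have e1 : ∀ x : ℝ, W x * d.eval x = a * W x + b * (W x * x ^ 2) + c * (W x * x ^ 4) := by
        intro x
        rw [hab]
        ring
      simp only [e1]
      rw [intervalIntegral.integral_add, intervalIntegral.integral_add,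
        intervalIntegral.integral_const_mul, intervalIntegral.integral_const_mul,
        intervalIntegral.integral_const_mul, int0, int2, int4]
      all_goals (apply Continuous.intervalIntegrable; have := W_cont; fun_prop)
    rw [e]
    apply abs_le_of_sq_le_sq _ (by positivity)
    rw [mul_pow, hsq, hn2]
    exact form a b c
  -- the error
  have hE : |∫ x in (-1 : ℝ)..1, (A (q x) - W x) * d.eval x| ≤ 8 / 100000 * √(n2 d) := by
    have h1 : |∫ x in (-1 : ℝ)..1, (A (q x) - W x) * d.eval x| ≤
        4 / 10000 * ∫ x in (-1 : ℝ)..1, |q x| * |d.eval x| := by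
      rw [← intervalIntegral.integral_const_mul]
      refine (intervalIntegral.abs_integral_le_integral_abs (by norm_num)).trans ?_
      apply intervalIntegral.integral_mono_on (by norm_num)
      · apply Continuous.intervalIntegrable
        have := W_cont
        fun_prop
      · apply Continuous.intervalIntegrable
        have := q_cont
        fun_prop
      · intro x hx
        have hx1 : |x| ≤ 1 := abs_le.mpr ⟨hx.1, hx.2⟩
        rw [abs_mul, ← mul_assoc]
        gcongr
        exact A_approx x hx1
    have h2 := cs (f := fun x => |q x|) (g := fun x => |d.eval x|) (a := -1) (b := 1)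
      (q_cont.abs) hdc.abs (by norm_num)
    simp only [sq_abs] at h2
    rw [intq] at h2
    change _ ≤ _ * n2 d at h2
    have h3 : ∫ x in (-1 : ℝ)..1, |q x| * |d.eval x| ≤ 2 / 10 * √(n2 d) := by
      apply le_of_sq_le_sq _ (by positivity)
      rw [mul_pow, hsq]
      refine h2.trans ?_
      gcongr
      norm_num
    have h4 : 0 ≤ √(n2 d) := Real.sqrt_nonneg _
    refine h1.trans ?_
    linarith
  have hA : |∫ x in (-1 : ℝ)..1, A (Q6.eval x) * d.eval x| ≤ 2 / 10000 * √(n2 d) := by
    have e : ∫ x in (-1 : ℝ)..1, A (Q6.eval x) * d.eval x =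
        (∫ x in (-1 : ℝ)..1, W x * d.eval x) +
          ∫ x in (-1 : ℝ)..1, (A (q x) - W x) * d.eval x := by
      rw [← intervalIntegral.integral_add]
      · congr 1
        funext x
        rw [Q6_eval]
        ring
      all_goals (apply Continuous.intervalIntegrable; have := W_cont; fun_prop)
    rw [e]
    refine (abs_add_le _ _).trans ?_
    have h4 : 0 ≤ √(n2 d) := Real.sqrt_nonneg _
    linarith
  have hsup : ∀ x, |x| ≤ 1 → |d.eval x| ≤ 4243 / 1000 * √(n2 d) := by
    intro x hx
    have h1 := sup_bound 6 d (by norm_num) hdeg x hx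
    apply abs_le_of_sq_le_sq _ (by positivity)
    rw [mul_pow, hsq]
    refine h1.trans ?_
    gcongr
    norm_num
  have h0 : ∫ x in (-1 : ℝ)..1, A ((Q6 + d).eval x) * d.eval x = 0 := by
    rw [hQd]
    exact orth_poly hQ hdeg
  have key := stab Q6 d (4926 / 10000) (4243 / 1000) (2 / 10000) (4 / 10000) (by norm_num)
    (by norm_num) (by norm_num) (by norm_num) h0 hA
    (fun x hx => by rw [Q6_eval]; exact q_bound x hx) hsup (by norm_num)
  rw [← hsq]
  exact pow_le_pow_left₀ (Real.sqrt_nonneg _) key.le 2

end Pool.Agent.K9h30.AL
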