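import Pool.Agent.K9h30.AL.Par

/-!
# MP_c605fa_an: existence of the self-orthogonal polynomial (leaf EX, helper81)
-/

set_option autoImplicit false

open Polynomial MeasureTheory intervalIntegral

namespace Pool.Agent.K9h30.AL

namespace Ex

/-- the polynomial of degree `< N` with the coefficients `c` -/
noncomputable def pol (N : ℕ) (c : Fin N → ℝ) : ℝ[X] := ∑ k : Fin N, C (c k) * X ^ (k : ℕ)

/-- its values -/
def pv (N : ℕ) (c : Fin N → ℝ) (x : ℝ) : ℝ := ∑ k : Fin N, c k * x ^ (k : ℕ)

lemma pol_eval (N : ℕ) (c : Fin N → ℝ) (x : ℝ) : (pol N c).eval x = pv N c x := by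
  unfold pol pv
  rw [eval_finsetSum]
  exact Finset.sum_congr rfl fun k _ => by simp

lemma pv_cont (N : ℕ) : Continuous fun p : (Fin N → ℝ) × ℝ => pv N p.1 p.2 := by
  unfold pv
  fun_prop

/-- the polynomial with leading term `(N+1) x^N` and lower coefficients `c` -/
noncomputable def qq (N : ℕ) (c : Fin N → ℝ) : ℝ[X] := C ((N : ℝ) + 1) * X ^ N + pol N c

/-- its values -/
def qv (N : ℕ) (c : Fin N → ℝ) (x : ℝ) : ℝ := ((N : ℝ) + 1) * x ^ N + pv N c x

lemma qq_eval (N : ℕ) (c : Fin N → ℝ) (x : ℝ) : (qq N c).eval x = qv N c x := by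
  unfold qq qv
  rw [eval_add, pol_eval]
  simp

lemma qv_cont (N : ℕ) : Continuous fun p : (Fin N → ℝ) × ℝ => qv N p.1 p.2 := by
  unfold qv
  have := pv_cont N
  fun_prop

lemma qq_deg (N : ℕ) (c : Fin N → ℝ) : (qq N c).natDegree = N ∧ (qq N c).leadingCoeff = N + 1 := by
  have hN1 : ((N : ℝ) + 1) ≠ 0 := by positivity
  have h1 : (C ((N : ℝ) + 1) * X ^ N : ℝ[X]).degree = N := degree_C_mul_X_pow N hN1
  have h2 : (pol N c).degree < (C ((N : ℝ) + 1) * X ^ N : ℝ[X]).degree := by
    rw [h1]
    exact degree_sum_fin_lt c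
  constructor
  · unfold qq
    rw [natDegree_add_eq_left_of_degree_lt h2]
    exact natDegree_C_mul_X_pow N _ hN1
  · unfold qq
    rw [leadingCoeff_add_of_degree_lt' h2]
    exact leadingCoeff_C_mul_X_pow _ _

/-- the functional -/
noncomputable def FF (N : ℕ) (c : Fin N → ℝ) : ℝ :=
  ∫ x in (-1 : ℝ)..1, Real.sqrt (1 + qv N c x ^ 2)

/-- the `L¹`-norm -/
noncomputable def GG (N : ℕ) (c : Fin N → ℝ) : ℝ := ∫ x in (-1 : ℝ)..1, |pv N c x|

lemma FF_cont (N : ℕ) : Continuous (FF N) := by
  unfold FF
  apply intervalIntegral.continuous_parametric_intervalIntegral_of_continuous'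
  have := qv_cont N
  show Continuous fun p : (Fin N → ℝ) × ℝ => Real.sqrt (1 + qv N p.1 p.2 ^ 2)
  fun_prop

lemma GG_cont (N : ℕ) : Continuous (GG N) := by
  unfold GG
  apply intervalIntegral.continuous_parametric_intervalIntegral_of_continuous'
  have := pv_cont N
  show Continuous fun p : (Fin N → ℝ) × ℝ => |pv N p.1 p.2|
  fun_prop

lemma pv_smul (N : ℕ) (t : ℝ) (c : Fin N → ℝ) (x : ℝ) : pv N (t • c) x = t * pv N c x := by
  unfold pv
  rw [Finset.mul_sum]
  exact Finset.sum_congr rfl fun k _ => by rw [Pi.smul_apply, smul_eq_mul, mul_assoc]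

lemma GG_smul (N : ℕ) (t : ℝ) (c : Fin N → ℝ) : GG N (t • c) = |t| * GG N c := by
  unfold GG
  rw [← intervalIntegral.integral_const_mul]
  simp only [pv_smul, abs_mul]

lemma pvc (N : ℕ) (c : Fin N → ℝ) : Continuous (pv N c) := by
  unfold pv; fun_prop

lemma qvc (N : ℕ) (c : Fin N → ℝ) : Continuous (qv N c) := by
  have := pvc N c
  unfold qv; fun_prop

lemma GG_pos (N : ℕ) {c : Fin N → ℝ} (hc : c ≠ 0) : 0 < GG N c := by
  have hp : pol N c ≠ 0 := by
    intro h0
    apply hc
    funext k
    have h1 : (pol N c).coeff (k : ℕ) = c k := by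
      unfold pol
      rw [finsetSum_coeff]
      simp only [coeff_C_mul, coeff_X_pow]
      rw [Finset.sum_eq_single k]
      · simp
      · intro j _ hj
        have : (k : ℕ) ≠ (j : ℕ) := fun h => hj (Fin.ext h.symm)
        rw [if_neg this, mul_zero]
      · intro h; exact absurd (Finset.mem_univ k) h
    rw [h0, coeff_zero] at h1
    rw [← h1]; rfl
  have hex : ∃ x ∈ Set.Icc (-1 : ℝ) 1, pv N c x ≠ 0 := by
    by_contra hcon
    push Not at hcon
    apply hp
    apply Polynomial.eq_zero_of_infinite_isRoot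
    apply Set.Infinite.mono (s := Set.Icc (-1 : ℝ) 1)
    · intro x hx
      show (pol N c).eval x = 0
      rw [pol_eval]
      exact hcon x hx
    · exact Set.Icc_infinite (by norm_num)
  obtain ⟨x, hx, hx0⟩ := hex
  have hcont : Continuous fun x => |pv N c x| := (pvc N c).abs
  apply intervalIntegral.integral_pos (by norm_num) hcont.continuousOn
  · intro x _
    exact abs_nonneg _
  · exact ⟨x, hx, abs_pos.mpr hx0⟩

lemma GG_coercive (N : ℕ) : ∃ δ : ℝ, 0 < δ ∧ ∀ c : Fin N → ℝ, δ * ‖c‖ ≤ GG N c := by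
  rcases isEmpty_or_nonempty (Fin N) with hE | hE
  · refine ⟨1, one_pos, fun c => ?_⟩
    have : c = 0 := Subsingleton.elim _ _
    rw [this, norm_zero, mul_zero]
    unfold GG
    apply intervalIntegral.integral_nonneg (by norm_num)
    intro x _
    exact abs_nonneg _
  · have hne : (Metric.sphere (0 : Fin N → ℝ) 1).Nonempty := by
      apply NormedSpace.sphere_nonempty.mpr; norm_num
    obtain ⟨c₀, hc₀, hmin⟩ := (isCompact_sphere (0 : Fin N → ℝ) 1).exists_isMinOn hne
      (GG_cont N).continuousOn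
    have hc0 : c₀ ≠ 0 := by
      rintro rfl
      simp at hc₀
    refine ⟨GG N c₀, GG_pos N hc0, fun c => ?_⟩
    by_cases hc : c = 0
    · rw [hc, norm_zero, mul_zero]
      unfold GG
      apply intervalIntegral.integral_nonneg (by norm_num)
      intro x _
      exact abs_nonneg _
    · have hn : 0 < ‖c‖ := norm_pos_iff.mpr hc
      have h1 : (‖c‖⁻¹ • c) ∈ Metric.sphere (0 : Fin N → ℝ) 1 := by
        rw [mem_sphere_zero_iff_norm, norm_smul, norm_inv, norm_norm, inv_mul_cancel₀ hn.ne']
      have h2 := hmin h1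
      rw [Set.mem_ofPred_eq, GG_smul, abs_inv, abs_norm] at h2
      have h3 := mul_le_mul_of_nonneg_right h2 hn.le
      calc GG N c₀ * ‖c‖ ≤ ‖c‖⁻¹ * GG N c * ‖c‖ := h3
        _ = GG N c := by field_simp

lemma FF_ge (N : ℕ) (c : Fin N → ℝ) : GG N c - 2 * (N + 1) ≤ FF N c := by
  unfold FF GG
  have h2 : (2 * ((N : ℝ) + 1)) = ∫ x in (-1 : ℝ)..1, ((N : ℝ) + 1) := by
    rw [intervalIntegral.integral_const]
    simp only [smul_eq_mul]; ring
  have c1 : Continuous fun x => |pv N c x| := (pvc N c).abs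
  have c2 : Continuous fun x => Real.sqrt (1 + qv N c x ^ 2) := by
    have := qvc N c
    fun_prop
  rw [h2, ← intervalIntegral.integral_sub (c1.intervalIntegrable _ _)
    (continuous_const.intervalIntegrable _ _)]
  apply intervalIntegral.integral_mono_on (by norm_num)
    ((c1.sub continuous_const).intervalIntegrable _ _) (c2.intervalIntegrable _ _)
  intro x hx
  have h3 : |pv N c x| ≤ |qv N c x| + (N + 1) := by
    have e : pv N c x = qv N c x - ((N : ℝ) + 1) * x ^ N := by unfold qv; ring
    have h4 : |((N : ℝ) + 1) * x ^ N| ≤ N + 1 := by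
      rw [abs_mul, abs_of_pos (by positivity : (0 : ℝ) < (N : ℝ) + 1), abs_pow]
      have : |x| ^ N ≤ 1 := pow_le_one₀ (abs_nonneg _) (abs_le.mpr ⟨hx.1, hx.2⟩)
      nlinarith
    rw [e]
    exact (abs_sub _ _).trans (by linarith)
  have h5 : |qv N c x| ≤ Real.sqrt (1 + qv N c x ^ 2) := by
    apply Real.abs_le_sqrt
    linarith
  show |pv N c x| - ((N : ℝ) + 1) ≤ Real.sqrt (1 + qv N c x ^ 2)
  linarith

lemma exists_min (N : ℕ) : ∃ c : Fin N → ℝ, ∀ c', FF N c ≤ FF N c' := by
  obtain ⟨δ, hδ, hco⟩ := GG_coercive N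
  set R : ℝ := (FF N 0 + 2 * (N + 1)) / δ with hR
  have hF0 : 0 ≤ FF N 0 := by
    unfold FF
    apply intervalIntegral.integral_nonneg (by norm_num)
    intro x _
    positivity
  have hR0 : 0 ≤ R := by rw [hR]; positivity
  obtain ⟨c, hc, hmin⟩ := (isCompact_closedBall (0 : Fin N → ℝ) R).exists_isMinOn
    ⟨0, by simpa using hR0⟩ (FF_cont N).continuousOn
  refine ⟨c, fun c' => ?_⟩
  by_cases h : c' ∈ Metric.closedBall (0 : Fin N → ℝ) R
  · exact hmin h
  · rw [mem_closedBall_zero_iff, not_le] at h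
    have h0 : FF N c ≤ FF N 0 := hmin (by simpa using hR0)
    have h1 := hco c'
    have h2 := FF_ge N c'
    have h3 : δ * R = FF N 0 + 2 * (N + 1) := by
      rw [hR]; field_simp
    have h4 : δ * R < δ * ‖c'‖ := mul_lt_mul_of_pos_left h hδ
    linarith

lemma A_cont' : Continuous A := by
  unfold A
  have h1 : Continuous fun x : ℝ => Real.sqrt (1 + x ^ 2) := by fun_prop
  exact continuous_id.div h1 fun x => (Real.sqrt_pos.mpr (by positivity)).ne'

end Ex

open Ex in
theorem ex : S_EX := by
  intro N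
  obtain ⟨c, hc⟩ := exists_min N
  refine ⟨qq N c, (qq_deg N c).1, (qq_deg N c).2, ?_⟩
  intro k hk
  simp only [qq_eval]
  -- the function of t
  let e : Fin N → ℝ := Pi.single ⟨k, hk⟩ 1
  have hpe : ∀ x, pv N e x = x ^ k := by
    intro x
    unfold pv
    rw [Finset.sum_eq_single ⟨k, hk⟩]
    · simp [e]
    · intro j _ hj
      have : e j = 0 := by
        simp only [e]
        exact Pi.single_eq_of_ne hj 1
      rw [this, zero_mul]
    · intro h; exact absurd (Finset.mem_univ _) h
  have hq : ∀ t x, qv N (c + t • e) x = qv N c x + t * x ^ k := by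
    intro t x
    have h1 : pv N (c + t • e) x = pv N c x + t * pv N e x := by
      rw [← pv_smul]
      unfold pv
      rw [← Finset.sum_add_distrib]
      exact Finset.sum_congr rfl fun k _ => by rw [Pi.add_apply]; ring
    unfold qv
    rw [h1, hpe]; ring
  let f : ℝ → ℝ := fun t => ∫ x in (-1 : ℝ)..1, x ^ k * A (qv N c x + t * x ^ k)
  have hf : Continuous f := by
    apply intervalIntegral.continuous_parametric_intervalIntegral_of_continuous'
    have h1 := qvc N c
    have h2 := A_cont'
    show Continuous fun p : ℝ × ℝ => p.2 ^ k * A (qv N c p.2 + p.1 * p.2 ^ k)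
    fun_prop
  have hft : ∀ t, 0 ≤ t * f t := by
    intro t
    have h1 := hc (c + t • e)
    have h2 : FF N (c + t • e) - t * f t ≤ FF N c := by
      unfold FF
      simp only [f, hq]
      rw [← intervalIntegral.integral_const_mul, ← intervalIntegral.integral_sub]
      · apply intervalIntegral.integral_mono_on (by norm_num)
        · apply Continuous.intervalIntegrable
          have h1 := qvc N c
          have h2 := A_cont'
          fun_prop
        · apply Continuous.intervalIntegrable
          have h1 := qvc N c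
          fun_prop
        · intro x _
          have h3 := Pool.Agent.Results.MP_c605fa_an.MinArcLength.tangent (qv N c x)
            (qv N c x + t * x ^ k)
          have h4 : (qv N c x + t * x ^ k) / Real.sqrt (1 + (qv N c x + t * x ^ k) ^ 2)
              = A (qv N c x + t * x ^ k) := rfl
          rw [h4] at h3
          linarith
      · apply Continuous.intervalIntegrable
        have h1 := qvc N c
        fun_prop
      · apply Continuous.intervalIntegrable
        have h1 := qvc N c
        have h2 := A_cont'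
        fun_prop
    linarith
  have hf0 : f 0 = 0 := by
    apply le_antisymm
    · by_contra hpos
      push Not at hpos
      have h1 : ∀ᶠ t in nhds (0 : ℝ), 0 < f t := hf.continuousAt.eventually (lt_mem_nhds hpos)
      have h2 : ∀ᶠ t in nhdsWithin (0 : ℝ) (Set.Iio 0), 0 < f t ∧ t < 0 :=
        (h1.filter_mono nhdsWithin_le_nhds).and self_mem_nhdsWithin
      obtain ⟨t, h3, h4⟩ := h2.exists
      have := hft t
      nlinarith
    · by_contra hneg
      push Not at hneg
      have h1 : ∀ᶠ t in nhds (0 : ℝ), f t < 0 := hf.continuousAt.eventually (gt_mem_nhds hneg)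
      have h2 : ∀ᶠ t in nhdsWithin (0 : ℝ) (Set.Ioi 0), f t < 0 ∧ 0 < t :=
        (h1.filter_mono nhdsWithin_le_nhds).and self_mem_nhdsWithin
      obtain ⟨t, h3, h4⟩ := h2.exists
      have := hft t
      nlinarith
  have h9 : f 0 = ∫ x in (-1 : ℝ)..1, x ^ k * A (qv N c x) := by
    simp only [f, zero_mul, add_zero]
  rw [← h9]
  exact hf0

end Pool.Agent.K9h30.AL
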