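import Pool.Agent.K9h30.AL.Leg
import Pool.Agent.Helper442.DR.M5

/-! Leaf I3 (helper30's project on MP_c605fa_an), by helper85: the third moment of the Legendre
polynomials of even degree from Adams' formula, and the third and fourth moment for degree 8. -/

set_option autoImplicit false

open Polynomial MeasureTheory intervalIntegral

namespace Pool.Agent.K9h30.AL

namespace I3Leaf

open Pool.Agent.Helper442.DR (w adc adw_zero adw_pos adw_succ adams_aux)
open LegLeaf

lemma LP_eval_rec (x : ℝ) (n : ℕ) : ((n : ℝ) + 2) * (LP (n + 2)).eval x =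
    (2 * (n : ℝ) + 3) * x * (LP (n + 1)).eval x - ((n : ℝ) + 1) * (LP n).eval x := by
  have := congrArg (Polynomial.eval x) (LP_rec n)
  simpa using this

lemma sq_eval (N : ℕ) (x : ℝ) : (LP N).eval x * (LP N).eval x =
    ∑ r ∈ Finset.range (N + 1), adc (N - r) (N - r) r * (LP ((N - r) + (N - r))).eval x :=
  adams_aux x (fun k => (LP k).eval x) (by simp [LP_zero]) (by simp [LP_one]) (LP_eval_rec x) N N
    le_rfl

lemma cube (m : ℕ) : ∫ x in (-1 : ℝ)..1, (LP (2 * m)).eval x ^ 3 =
    adc m m m * (2 / (4 * m + 1)) := by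
  have h1 : ∀ x : ℝ, (LP (2 * m)).eval x ^ 3 = ∑ r ∈ Finset.range (2 * m + 1),
      adc (2 * m - r) (2 * m - r) r *
        (LP ((2 * m - r) + (2 * m - r)) * LP (2 * m)).eval x := by
    intro x
    rw [pow_succ, pow_two, sq_eval, Finset.sum_mul]
    simp only [eval_mul, mul_assoc]
  simp only [h1]
  rw [intervalIntegral.integral_finsetSum (fun i _ => (ii _).const_mul _)]
  simp only [intervalIntegral.integral_const_mul]
  rw [Finset.sum_eq_single_of_mem m (by simp; omega)]
  · have h2 : 2 * m - m = m := by omega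
    rw [h2, ← two_mul, ← I_apply, I_norm]
    push_cast
    ring_nf
  · intro r hr hne
    rw [Finset.mem_range] at hr
    rw [LP_orth (by omega), mul_zero]

lemma w_lower (m : ℕ) (hm : 1 ≤ m) : 1 / (4 * (m : ℝ)) ≤ w m ^ 2 := by
  induction m, hm using Nat.le_induction with
  | base =>
    have := adw_succ 0
    rw [adw_zero] at this
    norm_num at this
    rw [this]
    norm_num
  | succ m hm ih =>
    have hm0 : (0 : ℝ) < m := by exact_mod_cast hm
    rw [adw_succ, mul_pow]
    push_cast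
    calc 1 / (4 * ((m : ℝ) + 1)) ≤ 1 / (4 * (m : ℝ)) * ((2 * (m : ℝ) + 1) / (2 * m + 2)) ^ 2 := by
          rw [div_pow, div_mul_div_comm, div_le_div_iff₀ (by positivity) (by positivity)]
          nlinarith
      _ ≤ _ := by gcongr

lemma w_upper (m : ℕ) : w m ^ 2 ≤ 1 / (2 * (m : ℝ) + 1) := by
  induction m with
  | zero => rw [adw_zero]; norm_num
  | succ m ih =>
    rw [adw_succ, mul_pow]
    push_cast
    calc w m ^ 2 * ((2 * (m : ℝ) + 1) / (2 * m + 2)) ^ 2 ≤
          1 / (2 * (m : ℝ) + 1) * ((2 * (m : ℝ) + 1) / (2 * m + 2)) ^ 2 := by gcongr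
      _ ≤ _ := by
          rw [div_pow, div_mul_div_comm, div_le_div_iff₀ (by positivity) (by positivity)]
          nlinarith [sq_nonneg (m : ℝ), mul_nonneg (sq_nonneg (m : ℝ)) (Nat.cast_nonneg (α := ℝ) m)]

lemma adc_mmm (m : ℕ) : adc m m m * (2 / (4 * m + 1)) = 2 * w m ^ 3 / (w (3 * m) * (6 * m + 1)) := by
  have h3 : m + m + m = 3 * m := by ring
  have hw := (adw_pos (3 * m)).ne'
  unfold adc
  rw [h3]
  have p1 : (4 * (m : ℝ) + 1) ≠ 0 := by positivity
  have p2 : (6 * (m : ℝ) + 1) ≠ 0 := by positivity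
  have p3 : (2 * ((m : ℝ) + m) + 1) = 4 * m + 1 := by ring
  have p4 : (2 * ((m : ℝ) + m + m) + 1) = 6 * m + 1 := by ring
  rw [p3, p4]
  field_simp

lemma third (m : ℕ) (hm : 4 ≤ m) : 1 / (10 * (m : ℝ) ^ 2) ≤
    2 * w m ^ 3 / (w (3 * m) * (6 * m + 1)) := by
  have hm0 : (4 : ℝ) ≤ m := by exact_mod_cast hm
  have hw := adw_pos (3 * m)
  have hw1 := adw_pos m
  have h1 := w_lower m (by omega)
  have h2 := w_upper (3 * m)
  push_cast at h2
  refine (pow_le_pow_iff_left₀ (by positivity) (by positivity) two_ne_zero).1 ?_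
  have h3 : (1 / (4 * (m : ℝ))) ^ 3 ≤ (w m ^ 2) ^ 3 := by gcongr
  have h4 : (w (3 * m) * (6 * (m : ℝ) + 1)) ^ 2 ≤ 6 * m + 1 := by
    rw [mul_pow]
    calc w (3 * m) ^ 2 * (6 * (m : ℝ) + 1) ^ 2 ≤ 1 / (2 * (3 * (m : ℝ)) + 1) * (6 * m + 1) ^ 2 := by
          gcongr
      _ = 6 * (m : ℝ) + 1 := by
          have p2 : (6 * (m : ℝ) + 1) ≠ 0 := by positivity
          rw [show 2 * (3 * (m : ℝ)) + 1 = 6 * m + 1 by ring]
          field_simp
  calc (1 / (10 * (m : ℝ) ^ 2)) ^ 2 ≤ 4 * (1 / (4 * (m : ℝ))) ^ 3 / (6 * m + 1) := by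
        rw [div_pow, div_pow, mul_div_assoc', div_div, div_le_div_iff₀ (by positivity) (by positivity)]
        nlinarith [pow_pos (show (0 : ℝ) < m by linarith) 3]
    _ ≤ 4 * (w m ^ 2) ^ 3 / (w (3 * m) * (6 * m + 1)) ^ 2 := by gcongr
    _ = (2 * w m ^ 3 / (w (3 * m) * (6 * m + 1))) ^ 2 := by
        rw [div_pow]
        ring

lemma LP8 (x : ℝ) : (LP 8).eval x =
    (6435 * x ^ 8 - 12012 * x ^ 6 + 6930 * x ^ 4 - 1260 * x ^ 2 + 35) / 128 := by
  rw [LP_eval_two 6, LP_eval_two 5, LP_eval_two 4, LP_eval_two 3, LP_eval_two 2, LP_eval_two 1,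
    LP_eval_two 0, LP_zero, LP_one]
  simp only [eval_X, eval_one]
  push_cast
  ring

/-- antiderivative of the cube -/
noncomputable def F3 : ℝ[X] :=
    C (42875 / 2097152) * X ^ 1 +
    C (-385875 / 524288) * X ^ 3 +
    C (19216575 / 1048576) * X ^ 5 +
    C (-138507075 / 524288) * X ^ 7 +
    C (4583426925 / 2097152) * X ^ 9 +
    C (-2931007275 / 262144) * X ^ 11 +
    C (254323643805 / 6815744) * X ^ 13 +
    C (-21911680791 / 262144) * X ^ 15 +
    C (4515586160085 / 35651584) * X ^ 17 +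
    C (-1275933615957 / 9961472) * X ^ 19 +
    C (86818581135 / 1048576) * X ^ 21 +
    C (-373055708025 / 12058624) * X ^ 23 +
    C (10658734515 / 2097152) * X ^ 25

/-- antiderivative of the fourth power -/
noncomputable def F4 : ℝ[X] :=
    C (1500625 / 268435456) * X ^ 1 +
    C (-4501875 / 16777216) * X ^ 3 +
    C (321433875 / 33554432) * X ^ 5 +
    C (-3664912125 / 16777216) * X ^ 7 +
    C (214386533375 / 67108864) * X ^ 9 +
    C (-512599822875 / 16777216) * X ^ 11 +
    C (86785654534425 / 436207616) * X ^ 13 +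
    C (-15340529264445 / 16777216) * X ^ 15 +
    C (6942315526960275 / 2281701376) * X ^ 17 +
    C (-2373096015685395 / 318767104) * X ^ 19 +
    C (452273836779765 / 33554432) * X ^ 21 +
    C (-6948560488054185 / 385875968) * X ^ 23 +
    C (29380699676487159 / 1677721600) * X ^ 25 +
    C (-202128951609585 / 16777216) * X ^ 27 +
    C (5404458042158175 / 973078528) * X ^ 29 +
    C (-800204493713625 / 520093696) * X ^ 31 +
    C (51961330760625 / 268435456) * X ^ 33

lemma F3_der (x : ℝ) : (derivative F3).eval x = (LP 8).eval x ^ 3 := by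
  rw [LP8]
  unfold F3
  simp only [derivative_add, derivative_C_mul, derivative_X_pow, eval_add, eval_mul, eval_C, eval_pow,
    eval_X, eval_natCast, map_natCast]
  push_cast
  ring

lemma F4_der (x : ℝ) : (derivative F4).eval x = (LP 8).eval x ^ 4 := by
  rw [LP8]
  unfold F4
  simp only [derivative_add, derivative_C_mul, derivative_X_pow, eval_add, eval_mul, eval_C, eval_pow,
    eval_X, eval_natCast, map_natCast]
  push_cast
  ring

end I3Leaf

open I3Leaf in
/-- leaf I3 -/
theorem i3 : S_I3 := by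
  intro N hN h10
  obtain ⟨m, rfl⟩ := hN
  rw [← two_mul, cube, adc_mmm]
  refine le_trans (le_of_eq ?_) (third m (by omega))
  push_cast
  have : (m : ℝ) ≠ 0 := by
    have : 0 < m := by omega
    positivity
  field_simp
  norm_num

open I3Leaf in
/-- leaf P8 -/
theorem p8 : S_P8 := by
  constructor
  · have h := LegLeaf.int_deriv F3
    simp only [F3_der] at h
    rw [h]
    unfold F3
    simp only [eval_add, eval_mul, eval_C, eval_pow, eval_X]
    norm_num
  · have h := LegLeaf.int_deriv F4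
    simp only [F4_der] at h
    rw [h]
    unfold F4
    simp only [eval_add, eval_mul, eval_C, eval_pow, eval_X]
    norm_num

end Pool.Agent.K9h30.AL
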