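import Pool.Agent.K9h30.AL.Loc

/-!
# MP_c605fa_an, Q1: distance to the Gauss–Lobatto nodes, with half of the bound
-/

set_option autoImplicit false

open Polynomial MeasureTheory intervalIntegral Set

namespace Pool.Agent.K9h30.AL

/-- as `S_LOC`, with half of the bound -/
def S_LOC2 : Prop := ∀ (N : ℕ) (P : ℝ[X]) (η : ℝ) (x : Fin (N + 1) → ℝ) (ξ : Fin N → ℝ), 1 ≤ N →
  StrictMono ξ → (∀ j : Fin N, -1 < ξ j ∧ ξ j < 1 ∧ (LP N).eval (ξ j) = 0 ∧
    1 / (N * (N + 1)) ≤ (-1) ^ (N + (j : ℕ)) * ∫ x in (-1 : ℝ)..(ξ j), (LP N).eval x) →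
  (∀ i, x i ∈ Set.Icc (-1 : ℝ) 1 ∧ P.eval (x i) = 0) →
  (∀ j : Fin N, x j.castSucc < ξ j ∧ ξ j < x j.succ) →
  (∀ t, |t| ≤ 1 → |P.eval t - M N * ∫ u in (-1 : ℝ)..t, (LP N).eval u| ≤ M N * η) →
  ∃ y : Fin (N + 1) → ℝ, StrictMono y ∧
    (∀ i, y i ∈ Set.Icc (-1 : ℝ) 1 ∧ (1 - y i ^ 2) * (LP N).derivative.eval (y i) = 0) ∧
    ∀ i, |x i - y i| ≤ Real.pi / 2 * √(N * (N + 1)) * η


open LegLeaf ZeroLeaf LocLeaf

/-- leaf LOC with half of the bound (proof by helper87) -/
theorem loc2 : S_LOC2 := by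
  intro N P η x ξ hN hξ hξ2 hx hxξ hP
  have hN' : (0 : ℝ) < N := by exact_mod_cast hN
  have hm : (0 : ℝ) < (N : ℝ) * (N + 1) := by positivity
  have hMpos : 0 < M N := div_pos (by positivity) (lc_pos N)
  have hη : 0 ≤ η := by
    have h := (abs_nonneg _).trans (hP 1 (by norm_num))
    by_contra hc
    push Not at hc
    have := mul_neg_of_pos_of_neg hMpos hc
    linarith
  have hG : ∀ j : Fin N, 1 ≤ (-1) ^ (N + (j : ℕ) + 1) * (G N).eval (ξ j) := by
    intro j
    have h := (hξ2 j).2.2.2
    rw [int_LP hN, ← mul_div_assoc, div_le_div_iff_of_pos_right hm] at h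
    rw [pow_succ]
    linarith
  have hodeG : ∀ t, (1 - t ^ 2) * (derivative (derivative (G N))).eval t =
      -((N : ℝ) * (N + 1) * (G N).eval t) := by
    intro t
    rw [dG]
    simp only [derivative_neg, derivative_mul, derivative_C, zero_mul, zero_add, eval_neg, eval_mul,
      eval_C, G, eval_sub, eval_one, eval_pow, eval_X]
    ring
  -- the points `y`
  have hex : ∀ i : Fin (N + 1), ∃ c : ℝ, c ∈ Icc (-1 : ℝ) 1 ∧ (G N).eval c = 0 ∧
      (∀ j : Fin N, i = j.castSucc → c < ξ j) ∧ (∀ j : Fin N, i = j.succ → ξ j < c) ∧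
      ((i : ℕ) = 0 → c = -1) ∧ ((i : ℕ) = N → c = 1) := by
    intro i
    by_cases hi0 : (i : ℕ) = 0
    · refine ⟨-1, by constructor <;> norm_num, by simp [G], fun j _ => (hξ2 j).1, fun j hj => ?_,
        fun _ => rfl, fun h => ?_⟩
      · have := congrArg Fin.val hj
        rw [Fin.val_succ] at this
        omega
      · omega
    · by_cases hiN : (i : ℕ) = N
      · refine ⟨1, by constructor <;> norm_num, by simp [G], fun j hj => ?_,
          fun j _ => (hξ2 j).2.1, fun h => absurd h hi0, fun _ => rfl⟩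
        have h1 := congrArg Fin.val hj
        rw [Fin.val_castSucc] at h1
        have := j.2
        omega
      · have hi := i.2
        have hj1 : (i : ℕ) - 1 < N := by omega
        have hj2 : (i : ℕ) < N := by omega
        have hlt : ξ ⟨(i : ℕ) - 1, hj1⟩ < ξ ⟨(i : ℕ), hj2⟩ := hξ (by
          rw [Fin.lt_def]
          show (i : ℕ) - 1 < i
          omega)
        have s1 := hG ⟨(i : ℕ) - 1, hj1⟩
        have s2 := hG ⟨(i : ℕ), hj2⟩
        simp only at s1 s2
        have e1 : N + ((i : ℕ) - 1) + 1 = N + (i : ℕ) := by omega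
        rw [e1] at s1
        obtain ⟨c, c1, c2, c3⟩ := ivt (G N) hlt (N + (i : ℕ)) (by linarith) (by linarith)
        refine ⟨c, ⟨((hξ2 _).1.trans c1).le, (c2.trans (hξ2 _).2.1).le⟩, c3, fun j hj => ?_,
          fun j hj => ?_, fun h => absurd h hi0, fun h => absurd h hiN⟩
        · have h1 := congrArg Fin.val hj
          rw [Fin.val_castSucc] at h1
          have h2 : j = ⟨(i : ℕ), hj2⟩ := Fin.ext h1.symm
          rw [h2]
          exact c2
        · have h1 := congrArg Fin.val hj
          rw [Fin.val_succ] at h1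
          have h2 : j = ⟨(i : ℕ) - 1, hj1⟩ := Fin.ext (by
            show (j : ℕ) = (i : ℕ) - 1
            omega)
          rw [h2]
          exact c1
  choose y y1 y2 y3 y4 y5 y6 using hex
  have hy3 : ∀ j : Fin N, y j.castSucc < ξ j := fun j => y3 _ j rfl
  have hy4 : ∀ j : Fin N, ξ j < y j.succ := fun j => y4 _ j rfl
  have hymono : StrictMono y := by
    rw [Fin.strictMono_iff_lt_succ]
    intro j
    exact (hy3 j).trans (hy4 j)
  -- the derivative of `G` has no zeros between `y` and `ξ`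
  have hdz : ∀ t, (derivative (G N)).eval t = 0 → ∃ j, ξ j = t := by
    intro t ht
    rw [dG, eval_neg, eval_mul, eval_C] at ht
    have h1 : (LP N).eval t = 0 := by
      have h2 : (N : ℝ) * (N + 1) * (LP N).eval t = 0 := by linarith
      exact (mul_eq_zero.1 h2).resolve_left hm.ne'
    exact no_other hξ (fun j => (hξ2 j).2.2.1) h1
  have hnz1 : ∀ (j : Fin N) (t : ℝ), y j.castSucc < t → t < ξ j → (derivative (G N)).eval t ≠ 0 := by
    intro j t h1 h2 h3
    obtain ⟨k, hk⟩ := hdz t h3
    have h4 : k < j := by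
      by_contra hc
      push Not at hc
      have := hξ.monotone hc
      linarith
    have h5 := hy4 k
    have h6 : y k.succ ≤ y j.castSucc := hymono.monotone (by
      rw [Fin.le_def, Fin.val_succ, Fin.val_castSucc]
      have := Fin.lt_def.1 h4
      omega)
    linarith
  have hnz2 : ∀ (j : Fin N) (t : ℝ), ξ j < t → t < y j.succ → (derivative (G N)).eval t ≠ 0 := by
    intro j t h1 h2 h3
    obtain ⟨k, hk⟩ := hdz t h3
    have h4 : j < k := by
      by_contra hc
      push Not at hc
      have := hξ.monotone hc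
      linarith
    have h5 := hy3 k
    have h6 : y j.succ ≤ y k.castSucc := hymono.monotone (by
      rw [Fin.le_def, Fin.val_succ, Fin.val_castSucc]
      have := Fin.lt_def.1 h4
      omega)
    linarith
  -- bound for `G` at `x i`
  have hGx : ∀ i, |(G N).eval (x i)| ≤ (N : ℝ) * (N + 1) * η := by
    intro i
    obtain ⟨h1, h2⟩ := hx i
    have h3 := hP (x i) (abs_le.2 h1)
    rw [h2, zero_sub, abs_neg, abs_mul, abs_of_pos hMpos] at h3
    have h4 := le_of_mul_le_mul_left h3 hMpos
    rw [int_LP hN, abs_div, abs_neg, abs_of_pos hm, div_le_iff₀ hm] at h4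
    linarith
  have hfin : ∀ (s : ℝ) (i : Fin (N + 1)), |s| = 1 →
      Real.pi / (2 * √((N : ℝ) * (N + 1))) * (s * (G N).eval (x i)) ≤
        Real.pi / 2 * √((N : ℝ) * (N + 1)) * η := by
    intro s i hs
    have hw : 0 < √((N : ℝ) * (N + 1)) := Real.sqrt_pos.2 hm
    have h1 : s * (G N).eval (x i) ≤ (N : ℝ) * (N + 1) * η := by
      refine (le_abs_self _).trans ?_
      rw [abs_mul, hs, one_mul]
      exact hGx i
    have h2 : 0 < Real.pi / (2 * √((N : ℝ) * (N + 1))) := div_pos Real.pi_pos (by linarith)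
    have h3 := mul_le_mul_of_nonneg_left h1 h2.le
    refine h3.trans ?_
    have h4 : (N : ℝ) * (N + 1) = √((N : ℝ) * (N + 1)) * √((N : ℝ) * (N + 1)) :=
      (Real.mul_self_sqrt hm.le).symm
    have h5 : Real.pi / (2 * √((N : ℝ) * (N + 1))) * ((N : ℝ) * (N + 1) * η) =
        Real.pi * √((N : ℝ) * (N + 1)) * η / 2 := by
      set w := √((N : ℝ) * (N + 1)) with hw'
      rw [h4]
      field_simp
    rw [h5]
    have h6 : 0 ≤ Real.pi * √((N : ℝ) * (N + 1)) * η := by
      have := Real.pi_pos
      positivity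
    linarith
  have hode : ∀ (s : ℝ) (t : ℝ), (1 - t ^ 2) * (derivative (derivative (C s * G N))).eval t =
      -((N : ℝ) * (N + 1) * (C s * G N).eval t) := by
    intro s t
    rw [derivative_mul, derivative_C, zero_mul, zero_add, derivative_mul, derivative_C, zero_mul,
      zero_add, eval_mul, eval_mul, eval_C]
    linear_combination s * hodeG t
  have hder : ∀ (s : ℝ) (t : ℝ), (derivative (C s * G N)).eval t = s * (derivative (G N)).eval t := by
    intro s t
    rw [derivative_mul, derivative_C, zero_mul, zero_add, eval_mul, eval_C]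
  have habs : ∀ n : ℕ, |(-1 : ℝ) ^ n| = 1 := by
    intro n
    rw [abs_pow, abs_neg, abs_one, one_pow]
  have hne : ∀ n : ℕ, (-1 : ℝ) ^ n ≠ 0 := fun n => pow_ne_zero _ (by norm_num)
  refine ⟨y, hymono, fun i => ⟨y1 i, ?_⟩, fun i => ?_⟩
  · have h := y2 i
    simpa [G] using h
  · rcases le_or_gt (y i) (x i) with hyx | hyx
    · rw [abs_of_nonneg (by linarith)]
      by_cases hiN : (i : ℕ) = N
      · have h1 := y6 i hiN
        have h2 := (hx i).1.2
        have h3 : x i - y i ≤ 0 := by linarith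
        refine h3.trans ?_
        have := Real.pi_pos
        positivity
      · have hi : (i : ℕ) < N := by
          have := i.2
          omega
        obtain ⟨j, rfl⟩ : ∃ j : Fin N, i = j.castSucc := ⟨⟨i, hi⟩, Fin.ext rfl⟩
        have h := right (F := C ((-1) ^ (N + (j : ℕ) + 1)) * G N) hm (hode _)
          (y1 j.castSucc).1 (hξ2 j).2.1.le (hy3 j) (by rw [eval_mul, y2, mul_zero])
          (by rw [eval_mul, eval_C]; exact hG j)
          (fun t h1 h2 => by
            rw [hder]
            exact mul_ne_zero (hne _) (hnz1 j t h1 h2)) hyx (hxξ j).1.le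
        rw [eval_mul, eval_C] at h
        exact h.2.trans (hfin _ _ (habs _))
    · rw [abs_sub_comm, abs_of_nonneg (by linarith)]
      by_cases hi0 : (i : ℕ) = 0
      · have h1 := y5 i hi0
        have h2 := (hx i).1.1
        linarith
      · obtain ⟨j, rfl⟩ : ∃ j : Fin N, i = j.succ := by
          refine ⟨⟨(i : ℕ) - 1, by have := i.2; omega⟩, Fin.ext ?_⟩
          rw [Fin.val_succ]
          show (i : ℕ) = (i : ℕ) - 1 + 1
          omega
        have h := left (F := C ((-1) ^ (N + (j : ℕ) + 1)) * G N) hm (hode _)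
          (hξ2 j).1.le (y1 j.succ).2 (hy4 j) (by rw [eval_mul, y2, mul_zero])
          (by rw [eval_mul, eval_C]; exact hG j)
          (fun t h1 h2 => by
            rw [hder]
            exact mul_ne_zero (hne _) (hnz2 j t h1 h2)) (hxξ j).2.le hyx.le
        rw [eval_mul, eval_C] at h
        exact h.2.trans (hfin _ _ (habs _))

end Pool.Agent.K9h30.AL
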