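import Pool.Agent.K9h30.AL.Leg

/-!
# MP_c605fa_an, all degrees: leaf ZERO (helper90)

The zeros of the Legendre polynomials `LP N` (interlacing), and the lower bound `1 / (N (N + 1))` for
the extrema of `∫_{-1}^x LP N`.
-/

set_option autoImplicit false

open Polynomial MeasureTheory intervalIntegral

namespace Pool.Agent.K9h30.AL

namespace ZeroLeaf

open LegLeaf

/-- a polynomial with nonpositive derivative on `[a,b]` is decreasing there -/
lemma anti {F : ℝ[X]} {a b : ℝ} (h : ∀ x, a ≤ x → x ≤ b → (derivative F).eval x ≤ 0) :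
    AntitoneOn (fun x => F.eval x) (Set.Icc a b) := by
  refine antitoneOn_of_deriv_nonpos (convex_Icc a b) F.continuous.continuousOn
    F.differentiable.differentiableOn fun x hx => ?_
  rw [interior_Icc] at hx
  rw [F.deriv]
  exact h x hx.1.le hx.2.le

lemma LP_rec_eval (n : ℕ) (x : ℝ) : ((n : ℝ) + 2) * (LP (n + 2)).eval x =
    (2 * (n : ℝ) + 3) * x * (LP (n + 1)).eval x - ((n : ℝ) + 1) * (LP n).eval x := by
  have h := congrArg (eval x) (LP_rec n)
  simpa only [eval_mul, eval_sub, eval_C, eval_X] using h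

/-- `(1 - x²) P_n' = (n + 1) (x P_n - P_{n+1})` -/
lemma G_eq (n : ℕ) : (1 - X ^ 2) * derivative (LP n) = C ((n : ℝ) + 1) * (X * LP n - LP (n + 1)) := by
  obtain ⟨i1, i2⟩ := LP_diff n
  linear_combination i1 * (-1) + X * i2

/-- the derivative is at most `n (n + 1) / 2` -/
lemma dLP_le (n : ℕ) (x : ℝ) (hx : |x| ≤ 1) :
    |(derivative (LP n)).eval x| ≤ (n : ℝ) * (n + 1) / 2 := by
  induction n using Nat.twoStepInduction with
  | zero => simp [LP_zero]
  | one => simp [LP_one]
  | more n h0 h1 =>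
    have e : derivative (LP (n + 2)) = derivative (LP n) + C (2 * (n : ℝ) + 3) * LP (n + 1) := by
      obtain ⟨i1, _⟩ := LP_diff n
      obtain ⟨_, j2⟩ := LP_diff (n + 1)
      have e0 : C (((n + 1 : ℕ) : ℝ) + 1) = C (n : ℝ) + 2 := by
        push_cast; simp only [map_add, map_one]; ring
      have e1 : C ((n : ℝ) + 1) = C (n : ℝ) + 1 := by simp only [map_add, map_one]
      have e3 : C (2 * (n : ℝ) + 3) = 2 * C (n : ℝ) + 3 := by
        simp only [map_add, map_mul, map_ofNat]
      rw [e0] at j2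
      rw [e1] at i1
      rw [e3]
      linear_combination j2 + i1
    rw [e, eval_add, eval_mul, eval_C]
    have h2 := abs_LP_le (n + 1) x hx
    have h3 : |(2 * (n : ℝ) + 3) * (LP (n + 1)).eval x| ≤ 2 * (n : ℝ) + 3 := by
      rw [abs_mul, abs_of_pos (by positivity : (0 : ℝ) < 2 * (n : ℝ) + 3)]
      exact mul_le_of_le_one_right (by positivity) h2
    have h4 := abs_add_le ((derivative (LP n)).eval x) ((2 * (n : ℝ) + 3) * (LP (n + 1)).eval x)
    push_cast
    linarith

/-- `P_n(x) ≥ 1 - n (n + 1) (1 - x) / 2` -/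
lemma LP_ge (n : ℕ) (x : ℝ) (h1 : -1 ≤ x) (h2 : x ≤ 1) :
    1 - (n : ℝ) * (n + 1) / 2 * (1 - x) ≤ (LP n).eval x := by
  have h0 := anti (F := LP n + C ((n : ℝ) * (n + 1) / 2) * (1 - X) - 1) (a := -1) (b := 1) (by
    intro y hy1 hy2
    have h3 := dLP_le n y (abs_le.2 ⟨hy1, hy2⟩)
    simp only [derivative_sub, derivative_add, derivative_mul, derivative_C, derivative_one,
      derivative_X, zero_mul, zero_add, eval_sub, eval_add, eval_mul, eval_C, eval_one, eval_zero]
    have h4 := (abs_le.1 h3).2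
    linarith)
  have h := h0 (a := x) ⟨h1, h2⟩ (b := 1) ⟨by norm_num, le_refl _⟩ h2
  simp only [eval_sub, eval_add, eval_mul, eval_C, eval_one, eval_X, LP_at_one] at h
  linarith

/-- `(1 - x²) P_n'` -/
noncomputable def G (n : ℕ) : ℝ[X] := (1 - X ^ 2) * derivative (LP n)

lemma dG (n : ℕ) : derivative (G n) = -(C ((n : ℝ) * (n + 1)) * LP n) := LP_ode n

/-- `∫_{-1}^x P_n` -/
lemma int_LP {n : ℕ} (hn : 1 ≤ n) (x : ℝ) :
    ∫ t in (-1 : ℝ)..x, (LP n).eval t = -(G n).eval x / (n * (n + 1)) := by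
  have hn' : (0 : ℝ) < n := by exact_mod_cast hn
  have h : ∀ y : ℝ, HasDerivAt (fun y => -(G n).eval y / (n * (n + 1))) ((LP n).eval y) y := by
    intro y
    have h1 := ((G n).hasDerivAt y).neg.div_const ((n : ℝ) * (n + 1))
    refine h1.congr_deriv ?_
    rw [dG, eval_neg, eval_mul, eval_C]
    field_simp
  rw [intervalIntegral.integral_eq_sub_of_hasDerivAt (fun y _ => h y)
    ((LP n).continuous.intervalIntegrable _ _)]
  have h2 : (G n).eval (-1) = 0 := by
    simp [G]
  rw [h2]
  simp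

/-- `G ≥ 1` at `1 - 2 / (n (n + 1))` -/
lemma G_ge {n : ℕ} (hn : 1 ≤ n) : 1 ≤ (G n).eval (1 - 2 / ((n : ℝ) * (n + 1))) := by
  have hn' : (1 : ℝ) ≤ n := by exact_mod_cast hn
  set m : ℝ := (n : ℝ) * (n + 1) with hm
  have hm2 : 2 ≤ m := by rw [hm]; nlinarith
  have hx1 : 2 / m ≤ 1 := by rw [div_le_one (by linarith)]; exact hm2
  have hx0 : 0 < 2 / m := by positivity
  have h0 := anti (F := G n - C m * (1 - X) + C (m ^ 2 / 4) * (1 - X) ^ 2) (a := -1) (b := 1) (by
    intro y hy1 hy2
    have h3 := LP_ge n y hy1 hy2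
    simp only [derivative_sub, derivative_add, derivative_mul, derivative_C, derivative_one,
      derivative_X, derivative_pow, zero_mul, zero_add, eval_sub, eval_add, eval_mul, eval_C,
      eval_one, eval_zero, eval_X, eval_pow, dG, eval_neg]
    rw [← hm] at h3 ⊢
    norm_num
    have h5 : m * (1 - m / 2 * (1 - y)) ≤ m * (LP n).eval y :=
      mul_le_mul_of_nonneg_left h3 (by linarith)
    nlinarith [h5])
  have h := h0 (a := 1 - 2 / m) ⟨by linarith, by linarith⟩ (b := 1) ⟨by norm_num, le_refl _⟩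
    (by linarith)
  simp only [eval_sub, eval_add, eval_mul, eval_C, eval_one, eval_X, eval_pow] at h
  have h6 : (G n).eval 1 = 0 := by simp [G]
  rw [h6] at h
  have h7 : m * (1 - (1 - 2 / m)) = 2 := by field_simp; ring
  have h8 : m ^ 2 / 4 * (1 - (1 - 2 / m)) ^ 2 = 1 := by field_simp; ring
  rw [h7, h8] at h
  norm_num at h
  linarith

/-- `n (n + 1) (1 - x²) P² + G²` -/
noncomputable def T (n : ℕ) : ℝ[X] := C ((n : ℝ) * (n + 1)) * ((1 - X ^ 2) * LP n ^ 2) + G n ^ 2

lemma dT (n : ℕ) : derivative (T n) = -(2 * X * C ((n : ℝ) * (n + 1)) * LP n ^ 2) := by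
  have h : derivative (T n) = C ((n : ℝ) * (n + 1)) * ((-2 * X) * LP n ^ 2 +
      (1 - X ^ 2) * (2 * LP n * derivative (LP n))) + 2 * G n * derivative (G n) := by
    have e2 : (C (2 : ℝ)) = (2 : ℝ[X]) := map_ofNat C 2
    simp only [T, derivative_add, derivative_mul, derivative_sub, derivative_C, derivative_one,
      derivative_pow, derivative_X, zero_mul, zero_add, Nat.cast_ofNat, e2]
    ring
  rw [h, dG]
  simp only [G]
  ring

lemma T_anti (n : ℕ) : AntitoneOn (fun x => (T n).eval x) (Set.Icc 0 1) := by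
  refine anti fun x h0 h1 => ?_
  rw [dT]
  simp only [eval_neg, eval_mul, eval_C, eval_pow, eval_X, eval_ofNat]
  have : 0 ≤ 2 * x * ((n : ℝ) * (n + 1)) * (LP n).eval x ^ 2 := by positivity
  linarith

/-- `G² ≥ 1` at the nonnegative zeros -/
lemma G_sq_nonneg {n : ℕ} (hn : 1 ≤ n) {x : ℝ} (h0 : 0 ≤ x) (h1 : x ≤ 1)
    (hz : (LP n).eval x = 0) : 1 ≤ (G n).eval x ^ 2 := by
  have hn' : (1 : ℝ) ≤ n := by exact_mod_cast hn
  have hm2 : 2 ≤ (n : ℝ) * (n + 1) := by nlinarith
  have hx1 : 2 / ((n : ℝ) * (n + 1)) ≤ 1 := by rw [div_le_one (by linarith)]; exact hm2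
  have hx0 : 0 < 2 / ((n : ℝ) * (n + 1)) := by positivity
  have h2 := LP_ge n x (by linarith) h1
  rw [hz] at h2
  have h3 : x ≤ 1 - 2 / ((n : ℝ) * (n + 1)) := by
    have h4 : 2 / ((n : ℝ) * (n + 1)) ≤ 1 - x := by
      rw [div_le_iff₀ (by linarith)]
      linarith
    linarith
  have h5 := T_anti n (a := x) ⟨h0, h1⟩ (b := 1 - 2 / ((n : ℝ) * (n + 1)))
    ⟨by linarith, by linarith⟩ h3
  simp only [T, eval_add, eval_mul, eval_C, eval_pow, eval_sub, eval_one, eval_X, hz] at h5
  have h6 := G_ge hn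
  have h7 : 0 ≤ (n : ℝ) * (n + 1) * ((1 - (1 - 2 / ((n : ℝ) * (n + 1))) ^ 2) *
      (LP n).eval (1 - 2 / ((n : ℝ) * (n + 1))) ^ 2) := by
    have h8 : 0 ≤ 1 - (1 - 2 / ((n : ℝ) * (n + 1))) ^ 2 := by nlinarith
    positivity
  nlinarith [h5, h6, h7]

lemma G_neg (n : ℕ) (x : ℝ) : (G n).eval (-x) ^ 2 = (G n).eval x ^ 2 := by
  have h : (G n).eval (-x) = (-1) ^ (n + 1) * (G n).eval x := by
    simp only [G, G_eq, eval_mul, eval_C, eval_sub, eval_X, LP_neg]
    ring
  rw [h, mul_pow, ← pow_mul, mul_comm (n + 1) 2, pow_mul]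
  norm_num

lemma G_sq {n : ℕ} (hn : 1 ≤ n) {x : ℝ} (h0 : -1 ≤ x) (h1 : x ≤ 1)
    (hz : (LP n).eval x = 0) : 1 ≤ (G n).eval x ^ 2 := by
  rcases le_total 0 x with h | h
  · exact G_sq_nonneg hn h h1 hz
  · rw [← G_neg]
    refine G_sq_nonneg hn (by linarith) (by linarith) ?_
    rw [LP_neg, hz, mul_zero]

/-! ### the zeros -/

/-- `LP N` from its zeros -/
lemma factor {N : ℕ} {Y : ℕ → ℝ} (hY : ∀ i j, i ≤ N + 1 → j ≤ N + 1 → i < j → Y i < Y j)
    (hz : ∀ k, k < N → (LP N).eval (Y (k + 1)) = 0) :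
    LP N = C (lc N) * ∏ k ∈ Finset.range N, (X - C (Y (k + 1))) := by
  have hinj : Set.InjOn (fun k => Y (k + 1)) (Finset.range N : Finset ℕ) := by
    intro a ha b hb hab
    have ha' := Finset.mem_range.1 (Finset.mem_coe.1 ha)
    have hb' := Finset.mem_range.1 (Finset.mem_coe.1 hb)
    rcases lt_trichotomy a b with h | h | h
    · exact absurd hab (hY (a + 1) (b + 1) (by omega) (by omega) (by omega)).ne
    · exact h
    · exact absurd hab (hY (b + 1) (a + 1) (by omega) (by omega) (by omega)).ne'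
  have hmonic : (∏ k ∈ Finset.range N, (X - C (Y (k + 1)))).Monic :=
    monic_prod_of_monic _ _ fun k _ => monic_X_sub_C _
  have hdeg : (∏ k ∈ Finset.range N, (X - C (Y (k + 1)))).natDegree = N := by
    rw [natDegree_prod_of_monic _ _ fun k _ => monic_X_sub_C _]
    simp
  have hlt : (LP N - C (lc N) * ∏ k ∈ Finset.range N, (X - C (Y (k + 1)))).degree < N := by
    rw [degree_lt_iff_coeff_zero]
    intro m hm
    rw [coeff_sub, coeff_C_mul]
    rcases hm.eq_or_lt with h2 | h2
    · have h3 : (∏ k ∈ Finset.range N, (X - C (Y (k + 1)))).coeff N = 1 := by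
        have h4 := hmonic.coeff_natDegree
        rwa [hdeg] at h4
      rw [← h2, (LP_deg N).2, h3, mul_one, sub_self]
    · rw [coeff_eq_zero_of_natDegree_lt (by rw [LP_natDegree]; exact h2),
        coeff_eq_zero_of_natDegree_lt (by rw [hdeg]; exact h2), mul_zero, sub_zero]
  have h0 : LP N - C (lc N) * ∏ k ∈ Finset.range N, (X - C (Y (k + 1))) = 0 := by
    refine eq_zero_of_degree_lt_of_eval_index_eq_zero (Finset.range N) hinj
      (by rw [Finset.card_range]; exact hlt) fun k hk => ?_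
    have hk' := Finset.mem_range.1 hk
    rw [eval_sub, hz k hk', eval_mul, eval_prod,
      Finset.prod_eq_zero hk (by rw [eval_sub, eval_X, eval_C, sub_self]), mul_zero, sub_zero]
  exact sub_eq_zero.1 h0

/-- sign of a product -/
lemma prod_sign {N j : ℕ} (hj : j ≤ N) {f : ℕ → ℝ} (h1 : ∀ k, k < j → 0 < f k)
    (h2 : ∀ k, j ≤ k → k < N → f k < 0) : 0 < (-1) ^ (N + j) * ∏ k ∈ Finset.range N, f k := by
  have h3 : (-1 : ℝ) ^ (N + j) = ∏ k ∈ Finset.range N, (if k < j then (1 : ℝ) else -1) := by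
    obtain ⟨m, rfl⟩ := Nat.exists_eq_add_of_le hj
    rw [Finset.prod_range_add]
    have e1 : ∏ x ∈ Finset.range j, (if x < j then (1 : ℝ) else -1) = 1 :=
      Finset.prod_eq_one fun x hx => if_pos (Finset.mem_range.1 hx)
    have e2 : ∏ x ∈ Finset.range m, (if j + x < j then (1 : ℝ) else -1) = (-1) ^ m := by
      rw [Finset.prod_congr rfl (fun x _ => if_neg (by omega : ¬ j + x < j)),
        Finset.prod_const, Finset.card_range]
    rw [e1, e2, one_mul, show j + m + j = 2 * j + m by ring, pow_add, pow_mul]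
    norm_num
  rw [h3, ← Finset.prod_mul_distrib]
  refine Finset.prod_pos fun k hk => ?_
  by_cases h : k < j
  · rw [if_pos h, one_mul]; exact h1 k h
  · rw [if_neg h]
    have := h2 k (by omega) (Finset.mem_range.1 hk)
    linarith

/-- `Y 1 < ⋯ < Y N` are zeros of `LP N` between `Y 0 = -1` and `Y (N + 1) = 1`, and `LP (N + 1)`
alternates at these points. -/
structure Z (N : ℕ) (Y : ℕ → ℝ) : Prop where
  zero : Y 0 = -1
  last : Y (N + 1) = 1
  mono : ∀ i j, i ≤ N + 1 → j ≤ N + 1 → i < j → Y i < Y j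
  root : ∀ k, k < N → (LP N).eval (Y (k + 1)) = 0
  sign : ∀ k, k ≤ N + 1 → 0 < (-1) ^ (N + 1 + k) * (LP (N + 1)).eval (Y k)

lemma mono_of_step {N : ℕ} {Y : ℕ → ℝ} (h : ∀ i, i ≤ N → Y i < Y (i + 1)) :
    ∀ i j, i ≤ N + 1 → j ≤ N + 1 → i < j → Y i < Y j := by
  intro i j hi hj hij
  obtain ⟨d, rfl⟩ := Nat.exists_eq_add_of_lt hij
  clear hij hi
  induction d with
  | zero => exact h i (by omega)
  | succ d ih =>
    have h1 := ih (by omega)
    have h2 := h (i + d + 1) (by omega)
    have e : i + (d + 1) + 1 = i + d + 1 + 1 := by ring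
    rw [e]
    exact h1.trans h2

/-- intermediate value theorem -/
lemma ivt (F : ℝ[X]) {a b : ℝ} (hab : a < b) (s : ℕ) (h1 : 0 < (-1) ^ s * F.eval a)
    (h2 : 0 < (-1) ^ (s + 1) * F.eval b) : ∃ c, a < c ∧ c < b ∧ F.eval c = 0 := by
  have hc : ContinuousOn (fun x => (-1) ^ s * F.eval x) (Set.Icc a b) :=
    (continuous_const.mul F.continuous).continuousOn
  have h3 : (0 : ℝ) ∈ Set.Ioo ((-1) ^ s * F.eval b) ((-1) ^ s * F.eval a) := by
    refine ⟨?_, h1⟩
    rw [pow_succ] at h2
    linarith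
  obtain ⟨c, hc1, hc2⟩ := intermediate_value_Ioo' hab.le hc h3
  refine ⟨c, hc1.1, hc1.2, ?_⟩
  have h4 : (-1 : ℝ) ^ s ≠ 0 := pow_ne_zero _ (by norm_num)
  exact (mul_eq_zero.1 hc2).resolve_left h4

lemma Z_exists (N : ℕ) : ∃ Y : ℕ → ℝ, Z N Y := by
  induction N with
  | zero =>
    refine ⟨fun k => if k = 0 then -1 else 1, by simp, by simp, ?_, ?_, ?_⟩
    · intro i j hi hj hij
      have h1 : i = 0 := by omega
      have h2 : j ≠ 0 := by omega
      simp [h1, h2]
    · intro k hk
      omega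
    · intro k hk
      rw [zero_add, LP_one, eval_X]
      rcases Nat.eq_zero_or_pos k with h | h
      · simp [h]
      · have h1 : k = 1 := by omega
        simp [h1]
  | succ N ih =>
    obtain ⟨Y, hY⟩ := ih
    have h1 : ∀ k, ∃ c, k ≤ N → (Y k < c ∧ c < Y (k + 1) ∧ (LP (N + 1)).eval c = 0) := by
      intro k
      by_cases hk : k ≤ N
      · obtain ⟨c, hc1, hc2, hc3⟩ := ivt (LP (N + 1)) (hY.mono k (k + 1) (by omega) (by omega)
          (by omega)) (N + 1 + k) (hY.sign k (by omega)) (hY.sign (k + 1) (by omega))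
        exact ⟨c, fun _ => ⟨hc1, hc2, hc3⟩⟩
      · exact ⟨0, fun h => absurd h hk⟩
    choose η hη using h1
    have hstep : ∀ i, i < N → η i < η (i + 1) := fun i hi =>
      (hη i (by omega)).2.1.trans (hη (i + 1) (by omega)).1
    have hfac := factor hY.mono hY.root
    -- sign of `LP N` at `η i`
    have hsg : ∀ i, i ≤ N → 0 < (-1) ^ (N + i) * (LP N).eval (η i) := by
      intro i hi
      obtain ⟨ha, hb, _⟩ := hη i hi
      have h2 := prod_sign (N := N) (j := i) hi (f := fun k => η i - Y (k + 1))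
        (fun k hk => by
          have h3 : Y (k + 1) ≤ Y i := by
            rcases (Nat.succ_le_of_lt hk).eq_or_lt with h | h
            · rw [← h]
            · exact (hY.mono (k + 1) i (by omega) (by omega) h).le
          linarith)
        (fun k hk hk2 => by
          have h3 : Y (i + 1) ≤ Y (k + 1) := by
            rcases hk.eq_or_lt with h | h
            · rw [h]
            · exact (hY.mono (i + 1) (k + 1) (by omega) (by omega) (by omega)).le
          linarith)
      rw [hfac, eval_mul, eval_C, eval_prod]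
      simp only [eval_sub, eval_X, eval_C]
      have h4 := mul_pos (lc_pos N) h2
      nlinarith [h4]
    refine ⟨fun k => if k = 0 then -1 else if k = N + 2 then 1 else η (k - 1), by simp, by simp,
      ?_, ?_, ?_⟩
    · refine mono_of_step fun i hi => ?_
      rcases Nat.eq_zero_or_pos i with h | h
      · subst h
        have h3 := (hη 0 (by omega)).1
        rw [hY.zero] at h3
        rw [if_pos rfl, if_neg (by omega), if_neg (by omega)]
        simpa using h3
      · obtain ⟨i, rfl⟩ : ∃ i', i = i' + 1 := ⟨i - 1, by omega⟩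
        rw [if_neg (by omega), if_neg (by omega), if_neg (by omega)]
        rcases hi.eq_or_lt with h4 | h4
        · have h5 : i = N := by omega
          rw [if_pos (by omega), h5]
          have h6 := (hη N (le_refl _)).2.1
          rw [hY.last] at h6
          simpa using h6
        · rw [if_neg (by omega)]
          simpa using hstep i (by omega)
    · intro k hk
      rw [if_neg (by omega), if_neg (by omega)]
      simpa using (hη k (by omega)).2.2
    · intro k hk
      rcases Nat.eq_zero_or_pos k with h | h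
      · subst h
        rw [if_pos rfl, LP_neg, LP_at_one, mul_one, add_zero, ← mul_pow]
        norm_num
      · rw [if_neg (by omega)]
        rcases hk.eq_or_lt with h4 | h4
        · rw [if_pos (by omega), LP_at_one, h4, mul_one]
          have e : N + 1 + 1 + (N + 1 + 1) = 2 * (N + 2) := by ring
          rw [e, pow_mul]
          norm_num
        · rw [if_neg (by omega)]
          obtain ⟨i, rfl⟩ : ∃ i', k = i' + 1 := ⟨k - 1, by omega⟩
          rw [Nat.add_sub_cancel]
          have h5 := hsg i (by omega)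
          have h6 := LP_rec_eval N (η i)
          rw [(hη i (by omega)).2.2, mul_zero, zero_sub] at h6
          have e : N + 1 + 1 + (i + 1) = (N + i) + 2 + 1 := by ring
          have e2 : N + 1 + 1 = N + 2 := rfl
          rw [e, e2, pow_succ, pow_add]
          have h7 : (0 : ℝ) < (N : ℝ) + 2 := by positivity
          have h8 : (LP (N + 2)).eval (η i) = -(((N : ℝ) + 1) / (N + 2) * (LP N).eval (η i)) := by
            field_simp
            linarith
          rw [h8]
          have h9 : (0 : ℝ) < ((N : ℝ) + 1) / (N + 2) := by positivity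
          have h10 := mul_pos h9 h5
          norm_num
          linarith

end ZeroLeaf

open LegLeaf ZeroLeaf

/-- the zeros of the Legendre polynomials and the extrema of the antiderivative -/
theorem zero : S_ZERO := by
  intro N hN
  obtain ⟨Y, hY⟩ := Z_exists N
  refine ⟨fun j => Y (j + 1), fun i j hij => hY.mono _ _ (by omega) (by omega) (by
    have := Fin.lt_def.1 hij
    omega), fun j => ?_⟩
  have hj := j.2
  have h1 : -1 < Y ((j : ℕ) + 1) := by
    have := hY.mono 0 (j + 1) (by omega) (by omega) (by omega)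
    rwa [hY.zero] at this
  have h2 : Y ((j : ℕ) + 1) < 1 := by
    have := hY.mono (j + 1) (N + 1) (by omega) (by omega) (by omega)
    rwa [hY.last] at this
  have hr := hY.root j hj
  refine ⟨h1, h2, hr, ?_⟩
  rw [int_LP hN]
  have hs := hY.sign (j + 1) (by omega)
  have hG : (G N).eval (Y ((j : ℕ) + 1)) = -(((N : ℝ) + 1) * (LP (N + 1)).eval (Y ((j : ℕ) + 1))) := by
    have h := congrArg (eval (Y ((j : ℕ) + 1))) (G_eq N)
    rw [G, h]
    simp only [eval_mul, eval_sub, eval_C, eval_X, hr]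
    ring
  have hsq := G_sq hN h1.le h2.le hr
  have hN' : (0 : ℝ) < N := by exact_mod_cast hN
  have hpos : 0 < (-1) ^ (N + (j : ℕ)) * -(G N).eval (Y ((j : ℕ) + 1)) := by
    rw [hG, neg_neg]
    have e : N + 1 + ((j : ℕ) + 1) = (N + j) + 2 := by ring
    rw [e, pow_add] at hs
    have h3 : (0 : ℝ) < (N : ℝ) + 1 := by positivity
    have h4 := mul_pos h3 hs
    norm_num at h4 ⊢
    linarith
  have hge : 1 ≤ (-1) ^ (N + (j : ℕ)) * -(G N).eval (Y ((j : ℕ) + 1)) := by
    refine (one_le_sq_iff₀ hpos.le).1 ?_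
    rw [mul_pow, ← pow_mul, mul_comm (N + (j : ℕ)) 2, pow_mul, neg_sq]
    norm_num
    have h := hsq
    rwa [one_le_sq_iff_one_le_abs] at h
  rw [← mul_div_assoc, div_le_div_iff_of_pos_right (by positivity)]
  exact hge

end Pool.Agent.K9h30.AL
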