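import Pool.Agent.K9h30.AL.SP456
import Pool.Agent.K9h30.AL.Par
import Pool.Agent.K9h30.AL.Ex
import Pool.Agent.K9h30.AL.Stab
import Pool.Agent.K9h30.AL.I3
import Pool.Agent.K9h30.AL.Zero
import Pool.Agent.K9h30.AL.Loc2
import Pool.Agent.K9h30.AL.C5

/-!
# MP_c605fa_an, Q1 for all degrees: assembly (helper30)
-/

set_option autoImplicit false

open Polynomial intervalIntegral

namespace Pool.Agent.K9h30.AL

/-- the antiderivative `P` of `Q`, with its zeros `x i` -/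
structure Good (N : ℕ) (Q P : ℝ[X]) (x : Fin (N + 1) → ℝ) : Prop where
  orth : IsOrth N Q
  der : P.derivative = Q
  prod : P = ∏ i, (X - C (x i))
  mono : StrictMono x
  icc : ∀ i, x i ∈ Set.Icc (-1 : ℝ) 1
  par : ∀ t, P.eval (-t) = (-1) ^ (N + 1) * P.eval t
  one : Odd N → P.eval 1 = 0

/-- the zeros are near the Gauss–Lobatto nodes -/
def Near (N : ℕ) (x : Fin (N + 1) → ℝ) : Prop :=
  ∃ y : Fin (N + 1) → ℝ, StrictMono y ∧
    (∀ i, y i ∈ Set.Icc (-1 : ℝ) 1 ∧ (1 - y i ^ 2) * (LP N).derivative.eval (y i) = 0) ∧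
    ∀ i, |x i - y i| ≤ 2 / 3 * √(N + 1) * M N ^ 2

theorem genT : S_GEN := gen leg_facts sup_bound stab
theorem bT : S_B := bb leg_facts sup_bound genT i3 p8

theorem eta_le {N : ℕ} (hN : 7 ≤ N) :
    Real.pi / 2 * √(N * (N + 1)) * ((3 / 5 * M N ^ 3 * √(2 / (2 * N + 1))) / √2 / M N) ≤
      2 / 3 * √(N + 1) * M N ^ 2 := by
  have hM := M_pos N
  have hN' : (7 : ℝ) ≤ N := by exact_mod_cast hN
  have h1 : (3 / 5 * M N ^ 3 * √(2 / (2 * N + 1))) / √2 / M N =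
      3 / 5 * M N ^ 2 * (√(2 / (2 * N + 1)) / √2) := by
    field_simp
  have h2 : √(N * (N + 1)) * (√(2 / (2 * N + 1)) / √2) ≤ √(N + 1) * (√2)⁻¹ := by
    rw [Real.sqrt_mul (by positivity), ← Real.sqrt_div (by positivity), ← Real.sqrt_inv]
    rw [mul_comm √(N : ℝ), mul_assoc, ← Real.sqrt_mul (by positivity)]
    gcongr
    rw [div_div, mul_div_assoc', div_le_iff₀ (by positivity)]
    nlinarith
  have hpi : Real.pi < 3.1416 := Real.pi_lt_d4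
  have hpi0 := Real.pi_pos
  have hs : (√2)⁻¹ ≤ 7072 / 10000 := by
    rw [inv_le_comm₀ (by positivity) (by norm_num)]
    have h3 : (14142 / 10000 : ℝ) ≤ √2 := by
      rw [Real.le_sqrt' (by norm_num)]
      norm_num
    refine le_trans ?_ h3
    norm_num
  rw [h1]
  calc Real.pi / 2 * √(N * (N + 1)) * (3 / 5 * M N ^ 2 * (√(2 / (2 * N + 1)) / √2))
      = Real.pi / 2 * (3 / 5) * M N ^ 2 * (√(N * (N + 1)) * (√(2 / (2 * N + 1)) / √2)) := by ring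
    _ ≤ Real.pi / 2 * (3 / 5) * M N ^ 2 * (√(N + 1) * (√2)⁻¹) := by gcongr
    _ = (Real.pi / 2 * (3 / 5) * (√2)⁻¹) * (√(N + 1) * M N ^ 2) := by ring
    _ ≤ (2 / 3) * (√(N + 1) * M N ^ 2) := by
        have : Real.pi / 2 * (3 / 5) * (√2)⁻¹ ≤ 2 / 3 := by
          calc Real.pi / 2 * (3 / 5) * (√2)⁻¹ ≤ 3.1416 / 2 * (3 / 5) * (7072 / 10000) := by gcongr
            _ ≤ 2 / 3 := by norm_num
        gcongr
    _ = _ := by ring

theorem good7 {N : ℕ} (hN : 7 ≤ N) : ∃ Q P x, Good N Q P x ∧ Near N x := by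
  obtain ⟨Q, hQ⟩ := ex N
  obtain ⟨ξ, hξ, hξ1⟩ := zero N (by omega)
  obtain ⟨P, hd, h1, h2, hp, ho, hdist, hs⟩ := sp_full leg_facts par genT bT hN hQ ξ hξ hξ1
  obtain ⟨x, hx, hxi, hxl, hprod⟩ := asm N Q (by omega) hQ P hd h1 h2 ξ hξ hs
  have hM := M_pos N
  refine ⟨Q, P, x, ⟨hQ, hd, hprod, hx, hxi, hp, ho⟩, ?_⟩
  obtain ⟨y, hy, hy1, hy2⟩ := loc2 N P
    ((3 / 5 * M N ^ 3 * √(2 / (2 * N + 1))) / √2 / M N) x ξ (by omega) hξ hξ1
    (by
      intro i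
      refine ⟨hxi i, ?_⟩
      rw [hprod, eval_prod]
      apply Finset.prod_eq_zero (Finset.mem_univ i)
      simp)
    hxl
    (by
      intro t ht
      rw [mul_div_cancel₀ _ hM.ne']
      exact hdist t ht)
  exact ⟨y, hy, hy1, fun i => (hy2 i).trans (eta_le hN)⟩

theorem good_of_signpat {N : ℕ} (hN : 1 ≤ N) (h : ∀ Q, IsOrth N Q → SignPat N Q) :
    ∃ Q P x, Good N Q P x := by
  obtain ⟨Q, hQ⟩ := ex N
  obtain ⟨P, hd, h1, h2, hp, ho, y, hy, hs⟩ := h Q hQ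
  obtain ⟨x, hx, hxi, hxl, hprod⟩ := asm N Q hN hQ P hd h1 h2 y hy hs
  exact ⟨Q, P, x, hQ, hd, hprod, hx, hxi, hp, ho⟩

end Pool.Agent.K9h30.AL
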