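import Pool.Agent.K9h30.AL.Basic

/-!
# MP_c605fa_an, Q1 for all degrees: the perturbation is small (helper30)
-/

set_option autoImplicit false

open Polynomial intervalIntegral

namespace Pool.Agent.K9h30.AL

theorem ratio_le {n : ℕ} (hn : 7 ≤ n) : ((n : ℝ) + 2) / (2 * n + 1) ≤ 3 / 5 := by
  have : (7 : ℝ) ≤ n := by exact_mod_cast hn
  rw [div_le_div_iff₀ (by positivity) (by positivity)]
  linarith

/-- `M N ≤ 128/429` and `N M³ ≤ 7 (128/429)³`, `N (N+1) M² ≤ 56 (128/429)²` for `N ≥ 7` -/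
theorem M_bds {N : ℕ} (hN : 7 ≤ N) : M N ≤ 128 / 429 ∧ (N : ℝ) * M N ^ 3 ≤ 7 * (128 / 429) ^ 3 ∧
    (N : ℝ) * (N + 1) * M N ^ 2 ≤ 56 * (128 / 429) ^ 2 := by
  induction N, hN using Nat.le_induction with
  | base => rw [M_seven]; norm_num
  | succ n hn ih =>
    obtain ⟨h1, h2, h3⟩ := ih
    have hn' : (7 : ℝ) ≤ n := by exact_mod_cast hn
    have hM := M_pos n
    have hr := ratio_le hn
    have hr0 : 0 ≤ ((n : ℝ) + 2) / (2 * n + 1) := by positivity
    rw [M_succ]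
    set r := ((n : ℝ) + 2) / (2 * n + 1) with hrdef
    refine ⟨?_, ?_, ?_⟩
    · calc M n * r ≤ M n * (3 / 5) := by gcongr
        _ ≤ M n := by linarith
        _ ≤ _ := h1
    · push_cast
      have hr3 : r ^ 3 ≤ (3 / 5) ^ 3 := by gcongr
      calc ((n : ℝ) + 1) * (M n * r) ^ 3 = ((n : ℝ) + 1) * M n ^ 3 * r ^ 3 := by ring
        _ ≤ ((n : ℝ) + 1) * M n ^ 3 * (3 / 5) ^ 3 := by gcongr
        _ ≤ (n : ℝ) * M n ^ 3 := by
          have : ((n : ℝ) + 1) * (3 / 5) ^ 3 ≤ n := by linarith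
          have hM3 : 0 < M n ^ 3 := by positivity
          nlinarith
        _ ≤ _ := h2
    · push_cast
      have hr2 : r ^ 2 ≤ (3 / 5) ^ 2 := by gcongr
      calc ((n : ℝ) + 1) * (n + 1 + 1) * (M n * r) ^ 2
          = ((n : ℝ) + 1) * (n + 2) * M n ^ 2 * r ^ 2 := by ring
        _ ≤ ((n : ℝ) + 1) * (n + 2) * M n ^ 2 * (3 / 5) ^ 2 := by gcongr
        _ ≤ (n : ℝ) * (n + 1) * M n ^ 2 := by
          have : ((n : ℝ) + 2) * (3 / 5) ^ 2 ≤ n := by linarith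
          have hM3 : 0 < ((n : ℝ) + 1) * M n ^ 2 := by positivity
          nlinarith
        _ ≤ _ := h3

/-- the leading approximation -/
noncomputable def q (N : ℕ) : ℝ[X] := C (M N) * LP N

theorem q_eval (N : ℕ) (x : ℝ) : (q N).eval x = M N * (LP N).eval x := by
  simp [q]

theorem q_deg (leg : S_LEG) (N : ℕ) : (q N).natDegree = N := by
  unfold q
  rw [natDegree_C_mul (M_pos N).ne', (leg.1 N).1]

theorem q_lead (leg : S_LEG) (N : ℕ) : (q N).leadingCoeff = N + 1 := by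
  unfold q
  rw [leadingCoeff_mul, leadingCoeff_C, (leg.1 N).2.1, M_mul_lc]

theorem q_le (leg : S_LEG) (N : ℕ) (x : ℝ) (hx : |x| ≤ 1) : |(q N).eval x| ≤ M N := by
  rw [q_eval, abs_mul, abs_of_pos (M_pos N)]
  have := leg.2.1 N x hx
  have hM := M_pos N
  nlinarith

theorem n2_q (leg : S_LEG) (N : ℕ) : n2 (q N) = M N ^ 2 * (2 / (2 * N + 1)) := by
  rw [← leg.2.2.1 N]
  unfold n2
  rw [← integral_const_mul]
  apply integral_congr
  intro x _
  simp only [q_eval]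
  ring

theorem q_orth (leg : S_LEG) {N : ℕ} {h : ℝ[X]} (hh : h.natDegree < N) :
    ∫ x in (-1 : ℝ)..1, (q N).eval x * h.eval x = 0 := by
  have := leg.2.2.2.1 N h hh
  have e : ∀ x : ℝ, (q N).eval x * h.eval x = M N * ((LP N).eval x * h.eval x) := by
    intro x; rw [q_eval]; ring
  simp only [e]
  rw [integral_const_mul, this, mul_zero]

/-- the bound for the linear functional -/
theorem lin_bound {Q₀ d : ℝ[X]} {U : ℝ} (hU : 0 ≤ U) (hb : ∀ x, |x| ≤ 1 → |Q₀.eval x| ≤ U)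
    (ho : ∫ x in (-1 : ℝ)..1, Q₀.eval x * d.eval x = 0) :
    |∫ x in (-1 : ℝ)..1, A (Q₀.eval x) * d.eval x| ≤ (U ^ 2 / 2 * √(n2 Q₀)) * √(n2 d) := by
  have e : ∀ x : ℝ, A (Q₀.eval x) * d.eval x =
      Q₀.eval x * d.eval x - G (Q₀.eval x) * d.eval x := by
    intro x; unfold G; ring
  simp only [e]
  have cG : Continuous fun x : ℝ => G (Q₀.eval x) := cont_G.comp (cont_eval Q₀)
  have cd := cont_eval d
  have cQ := cont_eval Q₀
  have i1 : IntervalIntegrable (fun x : ℝ => Q₀.eval x * d.eval x) MeasureTheory.volume (-1) 1 :=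
    (cQ.mul cd).intervalIntegrable _ _
  have i2 : IntervalIntegrable (fun x : ℝ => G (Q₀.eval x) * d.eval x) MeasureTheory.volume (-1) 1 :=
    (cG.mul cd).intervalIntegrable _ _
  rw [integral_sub i1 i2, ho, zero_sub, abs_neg]
  have h1 := cs cG cd (a := -1) (b := 1) (by norm_num)
  have h2 : (∫ x in (-1 : ℝ)..1, G (Q₀.eval x) ^ 2) ≤ (U ^ 2 / 2) ^ 2 * n2 Q₀ := by
    unfold n2
    rw [← integral_const_mul]
    apply integral_mono_on (by norm_num) ((cG.pow 2).intervalIntegrable _ _)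
      ((continuous_const.mul (cQ.pow 2)).intervalIntegrable _ _)
    intro x hx
    have hx' : |x| ≤ 1 := abs_le.mpr ⟨hx.1, hx.2⟩
    have h3 := abs_G_le (Q₀.eval x)
    have h4 := hb x hx'
    have h5 : |G (Q₀.eval x)| ≤ U ^ 2 / 2 * |Q₀.eval x| := by
      refine h3.trans ?_
      calc |Q₀.eval x| ^ 3 / 2 = |Q₀.eval x| ^ 2 / 2 * |Q₀.eval x| := by ring
        _ ≤ U ^ 2 / 2 * |Q₀.eval x| := by gcongr
    calc G (Q₀.eval x) ^ 2 = |G (Q₀.eval x)| ^ 2 := (sq_abs _).symm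
      _ ≤ (U ^ 2 / 2 * |Q₀.eval x|) ^ 2 := by gcongr
      _ = (U ^ 2 / 2) ^ 2 * Q₀.eval x ^ 2 := by rw [mul_pow, sq_abs]
  have hd0 := n2_nonneg d
  have hQ0 := n2_nonneg Q₀
  have h6 : (∫ x in (-1 : ℝ)..1, G (Q₀.eval x) * d.eval x) ^ 2 ≤
      ((U ^ 2 / 2 * √(n2 Q₀)) * √(n2 d)) ^ 2 := by
    rw [mul_pow, mul_pow, Real.sq_sqrt hd0, Real.sq_sqrt hQ0]
    refine h1.trans ?_
    exact mul_le_mul_of_nonneg_right h2 hd0
  exact abs_le_of_sq_le_sq h6 (by positivity)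

theorem gen (leg : S_LEG) (sup : S_SUP) (stab : S_STAB) : S_GEN := by
  intro N Q hN hQ
  have hN' : (7 : ℝ) ≤ N := by exact_mod_cast hN
  set d := Q - q N with hd
  have hdeg : d.natDegree < N := by
    apply deg_sub (by omega) hQ.deg (q_deg leg N)
    rw [hQ.lead, q_lead leg N]
  obtain ⟨hM1, hM2, hM3⟩ := M_bds hN
  have hM := M_pos N
  set s := √(2 / (2 * (N : ℝ) + 1)) with hs
  have hs0 : 0 < s := by rw [hs]; positivity
  have hs2 : s ^ 2 = 2 / (2 * (N : ℝ) + 1) := Real.sq_sqrt (by positivity)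
  have hnq : √(n2 (q N)) = M N * s := by
    rw [n2_q leg N, Real.sqrt_mul (by positivity), Real.sqrt_sq hM.le]
  have hK : ∀ x, |x| ≤ 1 → |d.eval x| ≤ (N / √2) * √(n2 d) := by
    intro x hx
    have := sup N d (by omega) hdeg x hx
    apply abs_le_of_sq_le_sq _ (by positivity)
    rw [mul_pow, div_pow, Real.sq_sqrt (n2_nonneg d), Real.sq_sqrt (by norm_num : (0:ℝ) ≤ 2)]
    exact this
  have hlin := lin_bound hM.le (q_le leg N) (q_orth leg hdeg)
  have horth : ∫ x in (-1 : ℝ)..1, A ((q N + d).eval x) * d.eval x = 0 := by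
    have : q N + d = Q := by rw [hd]; ring
    rw [this]
    exact orth_poly hQ hdeg
  have hKρ : (N : ℝ) / √2 * (3 / 5 * M N ^ 3 * s) ≤ 3 / 100 := by
    have h2s : s / √2 ≤ 13 / 50 := by
      rw [div_le_iff₀ (by positivity)]
      apply le_of_sq_le_sq _ (by positivity)
      rw [hs2, mul_pow, Real.sq_sqrt (by norm_num : (0:ℝ) ≤ 2)]
      rw [div_le_iff₀ (by positivity)]
      nlinarith
    calc (N : ℝ) / √2 * (3 / 5 * M N ^ 3 * s) = 3 / 5 * (N * M N ^ 3) * (s / √2) := by ring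
      _ ≤ 3 / 5 * (7 * (128 / 429) ^ 3) * (13 / 50) := by gcongr
      _ ≤ 3 / 100 := by norm_num
  have hfin := stab (q N) d (M N) (N / √2) (M N ^ 2 / 2 * √(n2 (q N))) (3 / 5 * M N ^ 3 * s)
    hM.le (by positivity) (by positivity) (by positivity) horth hlin (q_le leg N) hK ?_
  · have h0 : 0 ≤ √(n2 d) := Real.sqrt_nonneg _
    have : √(n2 d) ^ 2 ≤ (3 / 5 * M N ^ 3 * s) ^ 2 := by gcongr
    rw [Real.sq_sqrt (n2_nonneg d)] at this
    calc n2 (Q - C (M N) * LP N) = n2 d := rfl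
      _ ≤ _ := this
      _ = _ := by rw [mul_pow, hs2]; ring
  · rw [hnq]
    have h1 : M N + N / √2 * (3 / 5 * M N ^ 3 * s) ≤ 33 / 100 := by
      have : (128 / 429 : ℝ) ≤ 30 / 100 := by norm_num
      linarith
    have h2 : 0 ≤ M N + N / √2 * (3 / 5 * M N ^ 3 * s) := by positivity
    have h3 : (1 + (M N + N / √2 * (3 / 5 * M N ^ 3 * s)) ^ 2) ^ 3 ≤
        (1 + (33 / 100) ^ 2) ^ 3 := by gcongr
    have h4 : (1 + (33 / 100 : ℝ) ^ 2) ^ 3 < 36 / 25 := by norm_num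
    calc (M N ^ 2 / 2 * (M N * s)) ^ 2 * (1 + (M N + N / √2 * (3 / 5 * M N ^ 3 * s)) ^ 2) ^ 3
        = (M N ^ 3 * s) ^ 2 / 4 * (1 + (M N + N / √2 * (3 / 5 * M N ^ 3 * s)) ^ 2) ^ 3 := by ring
      _ < (M N ^ 3 * s) ^ 2 / 4 * (36 / 25) := by
          apply mul_lt_mul_of_pos_left (h3.trans_lt h4) (by positivity)
      _ = (3 / 5 * M N ^ 3 * s) ^ 2 := by ring

end Pool.Agent.K9h30.AL
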