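import Pool.Agent.K9h30.AL.Stm

/-!
# MP_c605fa_an, Q1: further statements (helper30)
-/

set_option autoImplicit false

open Polynomial intervalIntegral

namespace Pool.Agent.K9h30.AL

/-- the zeros `x i` of `P` are close to the Gauss–Lobatto nodes `y i`.
Let `Φ t = ∫_{-1}^t LP N`; `Φ (-1) = Φ 1 = 0`, `(1 - t²) (LP N)' = - N (N+1) Φ`, so `Φ'' = - N (N+1) Φ / (1 - t²)`.
`Φ` has exactly one zero `y i` in each of the `N + 1` intervals cut out by the `ξ j` (as `P`).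
Between two consecutive zeros of `Φ`, `|Φ|` is concave, and the distance is `≤ π / √(N (N+1))`
(Sturm comparison with `sin (ω (t - y i))`, `ω = √(N (N+1))`: Wronskian). If `y i < x i < ξ i`, then
`η ≥ |Φ (x i)| ≥ (x i - y i) / (ξ i - y i) |Φ (ξ i)| ≥ (x i - y i) ω / π / (N (N+1))`. -/
def S_LOC : Prop := ∀ (N : ℕ) (P : ℝ[X]) (η : ℝ) (x : Fin (N + 1) → ℝ) (ξ : Fin N → ℝ), 1 ≤ N →
  StrictMono ξ → (∀ j : Fin N, -1 < ξ j ∧ ξ j < 1 ∧ (LP N).eval (ξ j) = 0 ∧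
    1 / (N * (N + 1)) ≤ (-1) ^ (N + (j : ℕ)) * ∫ x in (-1 : ℝ)..(ξ j), (LP N).eval x) →
  (∀ i, x i ∈ Set.Icc (-1 : ℝ) 1 ∧ P.eval (x i) = 0) →
  (∀ j : Fin N, x j.castSucc < ξ j ∧ ξ j < x j.succ) →
  (∀ t, |t| ≤ 1 → |P.eval t - M N * ∫ u in (-1 : ℝ)..t, (LP N).eval u| ≤ M N * η) →
  ∃ y : Fin (N + 1) → ℝ, StrictMono y ∧
    (∀ i, y i ∈ Set.Icc (-1 : ℝ) 1 ∧ (1 - y i ^ 2) * (LP N).derivative.eval (y i) = 0) ∧
    ∀ i, |x i - y i| ≤ Real.pi * √(N * (N + 1)) * η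

end Pool.Agent.K9h30.AL
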