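import Pool.Agent.K9h30.AL.Zero
import Pool.Agent.K9h30.AL.Stm2

/-!
# MP_c605fa_an, all degrees: leaf LOC (helper87)

The zeros of `P` are close to the Gauss–Lobatto nodes, the zeros of `G N = (1 - x²) (LP N)'`.
-/

set_option autoImplicit false

open Polynomial MeasureTheory intervalIntegral Set

namespace Pool.Agent.K9h30.AL

namespace LocLeaf

open LegLeaf ZeroLeaf

/-- comparison with the sine, and concavity -/
lemma cmp {F : ℝ[X]} {m a b : ℝ} (hm : 0 < m)
    (hode : ∀ t, (1 - t ^ 2) * (derivative (derivative F)).eval t = -(m * F.eval t))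
    (ha : -1 ≤ a) (hb : b ≤ 1) (hab : a < b) (h0 : F.eval a = 0)
    (hd : ∀ t, a < t → t < b → 0 < (derivative F).eval t) :
    b - a ≤ Real.pi / (2 * √m) ∧ ∀ x, a ≤ x → x ≤ b → (x - a) * F.eval b ≤ (b - a) * F.eval x := by
  have hmono : MonotoneOn (fun x => F.eval x) (Icc a b) := by
    refine monotoneOn_of_deriv_nonneg (convex_Icc a b) F.continuous.continuousOn
      F.differentiable.differentiableOn fun x hx => ?_
    rw [interior_Icc] at hx
    rw [F.deriv]
    exact (hd x hx.1 hx.2).le
  have hnn : ∀ t, a ≤ t → t ≤ b → 0 ≤ F.eval t := by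
    intro t h1 h2
    have h3 : F.eval a ≤ F.eval t := hmono (left_mem_Icc.2 hab.le) ⟨h1, h2⟩ h1
    rwa [h0] at h3
  have h2 : ∀ t, a < t → t < b → (derivative (derivative F)).eval t ≤ 0 ∧
      (derivative (derivative F)).eval t + m * F.eval t ≤ 0 := by
    intro t h1 h2
    have h3 := hode t
    have h4 := hnn t h1.le h2.le
    have h5 : 0 < 1 - t ^ 2 := by nlinarith
    have h6 : (derivative (derivative F)).eval t ≤ 0 := by
      by_contra hc
      push Not at hc
      have h7 := mul_pos h5 hc
      have h8 := mul_nonneg hm.le h4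
      linarith
    refine ⟨h6, ?_⟩
    by_contra hc
    push Not at hc
    have h7 := mul_pos h5 hc
    have h8 : 0 ≤ t ^ 2 * (m * F.eval t) := mul_nonneg (sq_nonneg t) (mul_nonneg hm.le h4)
    have h9 : (1 - t ^ 2) * ((derivative (derivative F)).eval t + m * F.eval t) =
        -(t ^ 2 * (m * F.eval t)) := by linear_combination h3
    linarith
  have hω : 0 < √m := Real.sqrt_pos.2 hm
  have hω2 : √m ^ 2 = m := Real.sq_sqrt hm.le
  constructor
  · by_contra hc
    push Not at hc
    set w : ℝ := √m with hw
    have hq : 0 < Real.pi / (2 * w) := div_pos Real.pi_pos (by linarith)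
    set t0 : ℝ := a + Real.pi / (2 * w) with ht0
    have ht0b : t0 < b := by linarith
    have hW : ∀ t, HasDerivAt (fun t => (derivative F).eval t * Real.sin (w * (t - a)) -
        F.eval t * (w * Real.cos (w * (t - a))))
        (((derivative (derivative F)).eval t + m * F.eval t) * Real.sin (w * (t - a))) t := by
      intro t
      have d1 : HasDerivAt (fun t => w * (t - a)) w t := by
        simpa using ((hasDerivAt_id t).sub_const a).const_mul w
      have d2 := (Real.hasDerivAt_sin (w * (t - a))).comp t d1
      have d3 := (Real.hasDerivAt_cos (w * (t - a))).comp t d1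
      have d4 := ((derivative F).hasDerivAt t).mul d2
      have d5 := (F.hasDerivAt t).mul (d3.const_mul w)
      refine (d4.sub d5).congr_deriv ?_
      rw [← hω2]
      simp only [Function.comp]
      ring
    have hanti : AntitoneOn (fun t => (derivative F).eval t * Real.sin (w * (t - a)) -
        F.eval t * (w * Real.cos (w * (t - a)))) (Icc a t0) := by
      refine antitoneOn_of_deriv_nonpos (convex_Icc a t0)
        (fun t _ => (hW t).continuousAt.continuousWithinAt)
        (fun t _ => (hW t).differentiableAt.differentiableWithinAt) fun t ht => ?_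
      rw [interior_Icc] at ht
      rw [(hW t).deriv]
      have h3 := (h2 t ht.1 (ht.2.trans ht0b)).2
      have h4 : 0 ≤ Real.sin (w * (t - a)) := by
        refine Real.sin_nonneg_of_nonneg_of_le_pi (mul_nonneg hω.le (by linarith [ht.1])) ?_
        have h5 : w * (t - a) ≤ w * (Real.pi / (2 * w)) :=
          mul_le_mul_of_nonneg_left (by linarith [ht.2]) hω.le
        have h6 : w * (Real.pi / (2 * w)) = Real.pi / 2 := by
          field_simp
        have := Real.pi_pos
        linarith
      exact mul_nonpos_of_nonpos_of_nonneg h3 h4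
    have h3 := hanti (left_mem_Icc.2 (by linarith)) (right_mem_Icc.2 (by linarith : a ≤ t0))
      (by linarith)
    have e1 : w * (t0 - a) = Real.pi / 2 := by
      rw [ht0]
      field_simp
      ring
    simp only [e1, h0, sub_self, mul_zero, Real.sin_zero, Real.sin_pi_div_two, Real.cos_pi_div_two,
      mul_one, zero_mul, sub_zero] at h3
    have h4 := hd t0 (by linarith) ht0b
    linarith
  · intro x hx1 hx2
    have hconc : ConcaveOn ℝ (Icc a b) (fun x => F.eval x) := by
      have e1 : deriv (fun x => F.eval x) = fun x => (derivative F).eval x := by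
        funext z
        exact F.deriv
      have e2 : deriv (fun x => (derivative F).eval x) = fun x => (derivative (derivative F)).eval x := by
        funext z
        exact (derivative F).deriv
      refine concaveOn_of_deriv2_nonpos (convex_Icc a b) F.continuous.continuousOn
        F.differentiable.differentiableOn ?_ ?_
      · rw [e1]
        exact (derivative F).differentiable.differentiableOn
      · intro z hz
        rw [interior_Icc] at hz
        simp only [Function.iterate_succ, Function.iterate_zero, Function.comp, id, e1, e2]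
        exact (h2 z hz.1 hz.2).1
    have hba : 0 < b - a := by linarith
    have g1 : 0 ≤ (b - x) / (b - a) := div_nonneg (by linarith) hba.le
    have g2 : 0 ≤ (x - a) / (b - a) := div_nonneg (by linarith) hba.le
    have g3 : (b - x) / (b - a) + (x - a) / (b - a) = 1 := by
      field_simp
      ring
    have h3 := hconc.2 (left_mem_Icc.2 hab.le) (right_mem_Icc.2 hab.le) g1 g2 g3
    have e3 : (b - x) / (b - a) * a + (x - a) / (b - a) * b = x := by
      field_simp
      ring
    simp only [smul_eq_mul, e3, h0, mul_zero, zero_add] at h3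
    rw [div_mul_eq_mul_div, div_le_iff₀ hba] at h3
    linarith

/-- a derivative without zeros has the sign of the increment -/
lemma sgn {F : ℝ[X]} {a b : ℝ} (hab : a < b) (hlt : F.eval a < F.eval b)
    (hnz : ∀ t, a < t → t < b → (derivative F).eval t ≠ 0) :
    ∀ t, a < t → t < b → 0 < (derivative F).eval t := by
  obtain ⟨c, hc, hcd⟩ := exists_deriv_eq_slope (fun x => F.eval x) hab F.continuous.continuousOn
    F.differentiable.differentiableOn
  have hc0 : 0 < (derivative F).eval c := by
    rw [F.deriv] at hcd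
    rw [hcd]
    exact div_pos (by linarith) (by linarith)
  intro t h1 h2
  by_contra hneg
  push Not at hneg
  have hlt' : (derivative F).eval t < 0 := lt_of_le_of_ne hneg (hnz t h1 h2)
  have h3 := intermediate_value_uIcc (a := t) (b := c) (f := fun x => (derivative F).eval x)
    (derivative F).continuous.continuousOn
  have h0 : (0 : ℝ) ∈ uIcc ((derivative F).eval t) ((derivative F).eval c) := by
    rw [uIcc_of_le (by linarith)]
    exact ⟨hlt'.le, hc0.le⟩
  obtain ⟨z, hz1, hz2⟩ := h3 h0
  have hz3 : a < z ∧ z < b := by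
    rw [mem_uIcc] at hz1
    rcases hz1 with h | h <;> constructor <;> linarith [hc.1, hc.2, h.1, h.2]
  exact hnz z hz3.1 hz3.2 hz2

/-- from a zero `a` to the next extremum `b` -/
lemma right {F : ℝ[X]} {m a b : ℝ} (hm : 0 < m)
    (hode : ∀ t, (1 - t ^ 2) * (derivative (derivative F)).eval t = -(m * F.eval t))
    (ha : -1 ≤ a) (hb : b ≤ 1) (hab : a < b) (h0 : F.eval a = 0) (h1 : 1 ≤ F.eval b)
    (hnz : ∀ t, a < t → t < b → (derivative F).eval t ≠ 0) {x : ℝ} (hx1 : a ≤ x) (hx2 : x ≤ b) :
    0 ≤ F.eval x ∧ x - a ≤ Real.pi / (2 * √m) * F.eval x := by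
  have hd := sgn hab (by linarith) hnz
  obtain ⟨h2, h3⟩ := cmp hm hode ha hb hab h0 hd
  have h4 := h3 x hx1 hx2
  have h5 : x - a ≤ (b - a) * F.eval x := by
    have : (x - a) * 1 ≤ (x - a) * F.eval b := mul_le_mul_of_nonneg_left h1 (by linarith)
    linarith
  have h6 : 0 ≤ F.eval x := by
    by_contra hc
    push Not at hc
    have : (b - a) * F.eval x < 0 := mul_neg_of_pos_of_neg (by linarith) hc
    linarith
  exact ⟨h6, h5.trans (mul_le_mul_of_nonneg_right h2 h6)⟩

/-- from an extremum `a` to the next zero `b` -/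
lemma left {F : ℝ[X]} {m a b : ℝ} (hm : 0 < m)
    (hode : ∀ t, (1 - t ^ 2) * (derivative (derivative F)).eval t = -(m * F.eval t))
    (ha : -1 ≤ a) (hb : b ≤ 1) (hab : a < b) (h0 : F.eval b = 0) (h1 : 1 ≤ F.eval a)
    (hnz : ∀ t, a < t → t < b → (derivative F).eval t ≠ 0) {x : ℝ} (hx1 : a ≤ x) (hx2 : x ≤ b) :
    0 ≤ F.eval x ∧ b - x ≤ Real.pi / (2 * √m) * F.eval x := by
  have e1 : derivative (F.comp (-X)) = -(derivative F).comp (-X) := by
    rw [derivative_comp, derivative_neg, derivative_X]
    ring
  have e2 : derivative (derivative (F.comp (-X))) = (derivative (derivative F)).comp (-X) := by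
    rw [e1, derivative_neg, derivative_comp, derivative_neg, derivative_X]
    ring
  have h := right (F := F.comp (-X)) (a := -b) (b := -a) (x := -x) hm
    (by
      intro t
      rw [e2, eval_comp, eval_comp]
      have := hode (-t)
      simpa using this)
    (by linarith) (by linarith) (by linarith) (by simpa using h0) (by simpa using h1)
    (by
      intro t ht1 ht2
      rw [e1, eval_neg, eval_comp, neg_ne_zero]
      have := hnz (-t) (by linarith) (by linarith)
      simpa using this)
    (by linarith) (by linarith)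
  simp only [eval_comp, eval_neg, eval_X, neg_neg] at h
  exact ⟨h.1, by linarith [h.2]⟩

/-- `LP N` has no other zeros -/
lemma no_other {N : ℕ} {ξ : Fin N → ℝ} (hξ : StrictMono ξ) (hz : ∀ j, (LP N).eval (ξ j) = 0) {t : ℝ}
    (ht : (LP N).eval t = 0) : ∃ j, ξ j = t := by
  classical
  by_contra hc
  push Not at hc
  have hne : LP N ≠ 0 := by
    intro h
    have h1 := LP_leadingCoeff N
    rw [h, leadingCoeff_zero] at h1
    exact (lc_pos N).ne h1
  have h1 : (insert t (Finset.univ.image ξ)).card = N + 1 := by
    rw [Finset.card_insert_of_notMem, Finset.card_image_of_injective _ hξ.injective,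
      Finset.card_univ, Fintype.card_fin]
    intro h
    obtain ⟨j, _, hj⟩ := Finset.mem_image.1 h
    exact hc j hj
  have h2 : (insert t (Finset.univ.image ξ)).val ⊆ (LP N).roots := by
    intro z hz'
    have hz'' : z ∈ insert t (Finset.univ.image ξ) := hz'
    rw [mem_roots hne]
    rcases Finset.mem_insert.1 hz'' with h | h
    · rw [h]
      exact ht
    · obtain ⟨j, _, hj⟩ := Finset.mem_image.1 h
      rw [← hj]
      exact hz j
  have h3 := card_le_degree_of_subset_roots h2
  rw [h1, LP_natDegree] at h3
  omega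

end LocLeaf

open LegLeaf ZeroLeaf LocLeaf

/-- leaf LOC -/
theorem loc : S_LOC := by
  intro N P η x ξ hN hξ hξ2 hx hxξ hP
  have hN' : (0 : ℝ) < N := by exact_mod_cast hN
  have hm : (0 : ℝ) < (N : ℝ) * (N + 1) := by positivity
  have hMpos : 0 < M N := div_pos (by positivity) (lc_pos N)
  have hη : 0 ≤ η := by
    have h := (abs_nonneg _).trans (hP 1 (by norm_num))
    by_contra hc
    push Not at hc
    have := mul_neg_of_pos_of_neg hMpos hc
    linarith
  have hG : ∀ j : Fin N, 1 ≤ (-1) ^ (N + (j : ℕ) + 1) * (G N).eval (ξ j) := by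
    intro j
    have h := (hξ2 j).2.2.2
    rw [int_LP hN, ← mul_div_assoc, div_le_div_iff_of_pos_right hm] at h
    rw [pow_succ]
    linarith
  have hodeG : ∀ t, (1 - t ^ 2) * (derivative (derivative (G N))).eval t =
      -((N : ℝ) * (N + 1) * (G N).eval t) := by
    intro t
    rw [dG]
    simp only [derivative_neg, derivative_mul, derivative_C, zero_mul, zero_add, eval_neg, eval_mul,
      eval_C, G, eval_sub, eval_one, eval_pow, eval_X]
    ring
  -- the points `y`
  have hex : ∀ i : Fin (N + 1), ∃ c : ℝ, c ∈ Icc (-1 : ℝ) 1 ∧ (G N).eval c = 0 ∧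
      (∀ j : Fin N, i = j.castSucc → c < ξ j) ∧ (∀ j : Fin N, i = j.succ → ξ j < c) ∧
      ((i : ℕ) = 0 → c = -1) ∧ ((i : ℕ) = N → c = 1) := by
    intro i
    by_cases hi0 : (i : ℕ) = 0
    · refine ⟨-1, by constructor <;> norm_num, by simp [G], fun j _ => (hξ2 j).1, fun j hj => ?_,
        fun _ => rfl, fun h => ?_⟩
      · have := congrArg Fin.val hj
        rw [Fin.val_succ] at this
        omega
      · omega
    · by_cases hiN : (i : ℕ) = N
      · refine ⟨1, by constructor <;> norm_num, by simp [G], fun j hj => ?_,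
          fun j _ => (hξ2 j).2.1, fun h => absurd h hi0, fun _ => rfl⟩
        have h1 := congrArg Fin.val hj
        rw [Fin.val_castSucc] at h1
        have := j.2
        omega
      · have hi := i.2
        have hj1 : (i : ℕ) - 1 < N := by omega
        have hj2 : (i : ℕ) < N := by omega
        have hlt : ξ ⟨(i : ℕ) - 1, hj1⟩ < ξ ⟨(i : ℕ), hj2⟩ := hξ (by
          rw [Fin.lt_def]
          show (i : ℕ) - 1 < i
          omega)
        have s1 := hG ⟨(i : ℕ) - 1, hj1⟩
        have s2 := hG ⟨(i : ℕ), hj2⟩
        simp only at s1 s2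
        have e1 : N + ((i : ℕ) - 1) + 1 = N + (i : ℕ) := by omega
        rw [e1] at s1
        obtain ⟨c, c1, c2, c3⟩ := ivt (G N) hlt (N + (i : ℕ)) (by linarith) (by linarith)
        refine ⟨c, ⟨((hξ2 _).1.trans c1).le, (c2.trans (hξ2 _).2.1).le⟩, c3, fun j hj => ?_,
          fun j hj => ?_, fun h => absurd h hi0, fun h => absurd h hiN⟩
        · have h1 := congrArg Fin.val hj
          rw [Fin.val_castSucc] at h1
          have h2 : j = ⟨(i : ℕ), hj2⟩ := Fin.ext h1.symm
          rw [h2]
          exact c2
        · have h1 := congrArg Fin.val hj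
          rw [Fin.val_succ] at h1
          have h2 : j = ⟨(i : ℕ) - 1, hj1⟩ := Fin.ext (by
            show (j : ℕ) = (i : ℕ) - 1
            omega)
          rw [h2]
          exact c1
  choose y y1 y2 y3 y4 y5 y6 using hex
  have hy3 : ∀ j : Fin N, y j.castSucc < ξ j := fun j => y3 _ j rfl
  have hy4 : ∀ j : Fin N, ξ j < y j.succ := fun j => y4 _ j rfl
  have hymono : StrictMono y := by
    rw [Fin.strictMono_iff_lt_succ]
    intro j
    exact (hy3 j).trans (hy4 j)
  -- the derivative of `G` has no zeros between `y` and `ξ`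
  have hdz : ∀ t, (derivative (G N)).eval t = 0 → ∃ j, ξ j = t := by
    intro t ht
    rw [dG, eval_neg, eval_mul, eval_C] at ht
    have h1 : (LP N).eval t = 0 := by
      have h2 : (N : ℝ) * (N + 1) * (LP N).eval t = 0 := by linarith
      exact (mul_eq_zero.1 h2).resolve_left hm.ne'
    exact no_other hξ (fun j => (hξ2 j).2.2.1) h1
  have hnz1 : ∀ (j : Fin N) (t : ℝ), y j.castSucc < t → t < ξ j → (derivative (G N)).eval t ≠ 0 := by
    intro j t h1 h2 h3
    obtain ⟨k, hk⟩ := hdz t h3
    have h4 : k < j := by
      by_contra hc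
      push Not at hc
      have := hξ.monotone hc
      linarith
    have h5 := hy4 k
    have h6 : y k.succ ≤ y j.castSucc := hymono.monotone (by
      rw [Fin.le_def, Fin.val_succ, Fin.val_castSucc]
      have := Fin.lt_def.1 h4
      omega)
    linarith
  have hnz2 : ∀ (j : Fin N) (t : ℝ), ξ j < t → t < y j.succ → (derivative (G N)).eval t ≠ 0 := by
    intro j t h1 h2 h3
    obtain ⟨k, hk⟩ := hdz t h3
    have h4 : j < k := by
      by_contra hc
      push Not at hc
      have := hξ.monotone hc
      linarith
    have h5 := hy3 k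
    have h6 : y j.succ ≤ y k.castSucc := hymono.monotone (by
      rw [Fin.le_def, Fin.val_succ, Fin.val_castSucc]
      have := Fin.lt_def.1 h4
      omega)
    linarith
  -- bound for `G` at `x i`
  have hGx : ∀ i, |(G N).eval (x i)| ≤ (N : ℝ) * (N + 1) * η := by
    intro i
    obtain ⟨h1, h2⟩ := hx i
    have h3 := hP (x i) (abs_le.2 h1)
    rw [h2, zero_sub, abs_neg, abs_mul, abs_of_pos hMpos] at h3
    have h4 := le_of_mul_le_mul_left h3 hMpos
    rw [int_LP hN, abs_div, abs_neg, abs_of_pos hm, div_le_iff₀ hm] at h4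
    linarith
  have hfin : ∀ (s : ℝ) (i : Fin (N + 1)), |s| = 1 →
      Real.pi / (2 * √((N : ℝ) * (N + 1))) * (s * (G N).eval (x i)) ≤
        Real.pi * √((N : ℝ) * (N + 1)) * η := by
    intro s i hs
    have hw : 0 < √((N : ℝ) * (N + 1)) := Real.sqrt_pos.2 hm
    have h1 : s * (G N).eval (x i) ≤ (N : ℝ) * (N + 1) * η := by
      refine (le_abs_self _).trans ?_
      rw [abs_mul, hs, one_mul]
      exact hGx i
    have h2 : 0 < Real.pi / (2 * √((N : ℝ) * (N + 1))) := div_pos Real.pi_pos (by linarith)
    have h3 := mul_le_mul_of_nonneg_left h1 h2.le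
    refine h3.trans ?_
    have h4 : (N : ℝ) * (N + 1) = √((N : ℝ) * (N + 1)) * √((N : ℝ) * (N + 1)) :=
      (Real.mul_self_sqrt hm.le).symm
    have h5 : Real.pi / (2 * √((N : ℝ) * (N + 1))) * ((N : ℝ) * (N + 1) * η) =
        Real.pi * √((N : ℝ) * (N + 1)) * η / 2 := by
      set w := √((N : ℝ) * (N + 1)) with hw'
      rw [h4]
      field_simp
    rw [h5]
    have h6 : 0 ≤ Real.pi * √((N : ℝ) * (N + 1)) * η := by
      have := Real.pi_pos
      positivity
    linarith
  have hode : ∀ (s : ℝ) (t : ℝ), (1 - t ^ 2) * (derivative (derivative (C s * G N))).eval t =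
      -((N : ℝ) * (N + 1) * (C s * G N).eval t) := by
    intro s t
    rw [derivative_mul, derivative_C, zero_mul, zero_add, derivative_mul, derivative_C, zero_mul,
      zero_add, eval_mul, eval_mul, eval_C]
    linear_combination s * hodeG t
  have hder : ∀ (s : ℝ) (t : ℝ), (derivative (C s * G N)).eval t = s * (derivative (G N)).eval t := by
    intro s t
    rw [derivative_mul, derivative_C, zero_mul, zero_add, eval_mul, eval_C]
  have habs : ∀ n : ℕ, |(-1 : ℝ) ^ n| = 1 := by
    intro n
    rw [abs_pow, abs_neg, abs_one, one_pow]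
  have hne : ∀ n : ℕ, (-1 : ℝ) ^ n ≠ 0 := fun n => pow_ne_zero _ (by norm_num)
  refine ⟨y, hymono, fun i => ⟨y1 i, ?_⟩, fun i => ?_⟩
  · have h := y2 i
    simpa [G] using h
  · rcases le_or_gt (y i) (x i) with hyx | hyx
    · rw [abs_of_nonneg (by linarith)]
      by_cases hiN : (i : ℕ) = N
      · have h1 := y6 i hiN
        have h2 := (hx i).1.2
        have h3 : x i - y i ≤ 0 := by linarith
        refine h3.trans ?_
        have := Real.pi_pos
        positivity
      · have hi : (i : ℕ) < N := by
          have := i.2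
          omega
        obtain ⟨j, rfl⟩ : ∃ j : Fin N, i = j.castSucc := ⟨⟨i, hi⟩, Fin.ext rfl⟩
        have h := right (F := C ((-1) ^ (N + (j : ℕ) + 1)) * G N) hm (hode _)
          (y1 j.castSucc).1 (hξ2 j).2.1.le (hy3 j) (by rw [eval_mul, y2, mul_zero])
          (by rw [eval_mul, eval_C]; exact hG j)
          (fun t h1 h2 => by
            rw [hder]
            exact mul_ne_zero (hne _) (hnz1 j t h1 h2)) hyx (hxξ j).1.le
        rw [eval_mul, eval_C] at h
        exact h.2.trans (hfin _ _ (habs _))
    · rw [abs_sub_comm, abs_of_nonneg (by linarith)]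
      by_cases hi0 : (i : ℕ) = 0
      · have h1 := y5 i hi0
        have h2 := (hx i).1.1
        linarith
      · obtain ⟨j, rfl⟩ : ∃ j : Fin N, i = j.succ := by
          refine ⟨⟨(i : ℕ) - 1, by have := i.2; omega⟩, Fin.ext ?_⟩
          rw [Fin.val_succ]
          show (i : ℕ) = (i : ℕ) - 1 + 1
          omega
        have h := left (F := C ((-1) ^ (N + (j : ℕ) + 1)) * G N) hm (hode _)
          (hξ2 j).1.le (y1 j.succ).2 (hy4 j) (by rw [eval_mul, y2, mul_zero])
          (by rw [eval_mul, eval_C]; exact hG j)
          (fun t h1 h2 => by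
            rw [hder]
            exact mul_ne_zero (hne _) (hnz2 j t h1 h2)) (hxξ j).2.le hyx.le
        rw [eval_mul, eval_C] at h
        exact h.2.trans (hfin _ _ (habs _))

end Pool.Agent.K9h30.AL
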