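import Pool.Agent.K9h30.AL.B

/-!
# MP_c605fa_an, Q1 for all degrees: sign patterns (helper30)
-/

set_option autoImplicit false

open Polynomial intervalIntegral

namespace Pool.Agent.K9h30.AL

theorem exists_antider (Q : ℝ[X]) : ∃ P : ℝ[X], P.derivative = Q := by
  induction Q using Polynomial.induction_on' with
  | add p q hp hq =>
    obtain ⟨a, ha⟩ := hp
    obtain ⟨b, hb⟩ := hq
    exact ⟨a + b, by rw [derivative_add, ha, hb]⟩
  | monomial n a =>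
    refine ⟨monomial (n + 1) (a / (n + 1)), ?_⟩
    rw [derivative_monomial]
    have : ((n : ℝ) + 1) ≠ 0 := by positivity
    congr 1
    push_cast
    field_simp

theorem ftc {P Q : ℝ[X]} (h : P.derivative = Q) (a b : ℝ) :
    ∫ x in a..b, Q.eval x = P.eval b - P.eval a := by
  apply integral_eq_sub_of_hasDerivAt
  · intro x _
    rw [← h]
    exact P.hasDerivAt x
  · exact (cont_eval Q).intervalIntegrable _ _

/-- parity of antiderivatives -/
theorem par_anti {P Q : ℝ[X]} (h : P.derivative = Q) {N : ℕ} (hQ : ∀ x, Q.eval (-x) = (-1) ^ N * Q.eval x)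
    {c : ℝ} (hc : P.eval (-c) = (-1) ^ (N + 1) * P.eval c) (x : ℝ) :
    P.eval (-x) = (-1) ^ (N + 1) * P.eval x := by
  have hd : ∀ t : ℝ, HasDerivAt (fun t : ℝ => P.eval (-t) - (-1) ^ (N + 1) * P.eval t) 0 t := by
    intro t
    have h1 : HasDerivAt (fun t : ℝ => P.eval t) (Q.eval t) t := by
      rw [← h]; exact P.hasDerivAt t
    have h2 : HasDerivAt (fun t : ℝ => P.eval (-t)) (Q.eval (-t) * (-1)) t := by
      have h3 : HasDerivAt (fun t : ℝ => P.eval t) (Q.eval (-t)) (-t) := by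
        rw [← h]; exact P.hasDerivAt (-t)
      exact h3.comp t (hasDerivAt_neg t)
    have h4 := h2.sub (h1.const_mul ((-1) ^ (N + 1)))
    have h5 : Q.eval (-t) * (-1) - (-1) ^ (N + 1) * Q.eval t = 0 := by
      rw [hQ t, pow_succ]
      ring
    rw [h5] at h4
    exact h4
  have hcst := is_const_of_deriv_eq_zero (f := fun t : ℝ => P.eval (-t) - (-1) ^ (N + 1) * P.eval t)
    (fun t => (hd t).differentiableAt) (fun t => (hd t).deriv) x c
  have hcst' : P.eval (-x) - (-1) ^ (N + 1) * P.eval x = P.eval (-c) - (-1) ^ (N + 1) * P.eval c := hcst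
  linarith

theorem half {r : ℝ[X]} {N : ℕ} (hr : ∀ x, r.eval (-x) = (-1) ^ N * r.eval x) :
    ∫ x in (0 : ℝ)..1, r.eval x ^ 2 = n2 r / 2 := by
  have c2 : Continuous fun x : ℝ => r.eval x ^ 2 := (cont_eval r).pow 2
  have h1 : n2 r = (∫ x in (-1 : ℝ)..0, r.eval x ^ 2) + ∫ x in (0 : ℝ)..1, r.eval x ^ 2 := by
    unfold n2
    rw [integral_add_adjacent_intervals (c2.intervalIntegrable _ _) (c2.intervalIntegrable _ _)]
  have h2 : (∫ x in (-1 : ℝ)..0, r.eval x ^ 2) = ∫ x in (0 : ℝ)..1, r.eval x ^ 2 := by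
    have h3 := integral_comp_neg (fun x : ℝ => r.eval x ^ 2) (a := 0) (b := 1)
    rw [neg_zero] at h3
    rw [← h3]
    apply integral_congr
    intro x _
    simp only [hr x, mul_pow, ← pow_mul]
    rw [mul_comm N 2, pow_mul]
    norm_num
  linarith

theorem half_bound {r : ℝ[X]} {N : ℕ} (hr : ∀ x, r.eval (-x) = (-1) ^ N * r.eval x) {a b : ℝ}
    (ha : 0 ≤ a) (hab : a ≤ b) (hb : b ≤ 1) : (∫ x in a..b, r.eval x) ^ 2 ≤ n2 r / 2 := by
  have c2 : Continuous fun x : ℝ => r.eval x ^ 2 := (cont_eval r).pow 2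
  have h1 := cs (cont_eval r) (continuous_const (y := (1 : ℝ))) hab
  simp only [mul_one, one_pow, integral_const, smul_eq_mul] at h1
  have h2 : ∫ x in a..b, r.eval x ^ 2 ≤ ∫ x in (0 : ℝ)..1, r.eval x ^ 2 := by
    apply integral_mono_interval ha hab hb
    · exact Filter.Eventually.of_forall fun x => by positivity
    · exact c2.intervalIntegrable _ _
  have h3 : 0 ≤ ∫ x in a..b, r.eval x ^ 2 := by
    apply integral_nonneg hab
    intro x _
    positivity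
  rw [half hr] at h2
  have h4 : 0 ≤ 1 - (b - a) := by linarith
  nlinarith

/-- the sign pattern and the distance to an approximation -/
theorem signpat {N : ℕ} {Q Q₀ P₀ : ℝ[X]} {ρ : ℝ} (hρ : 0 ≤ ρ)
    (hQ : ∀ x, Q.eval (-x) = (-1) ^ N * Q.eval x) (hQ₀ : ∀ x, Q₀.eval (-x) = (-1) ^ N * Q₀.eval x)
    (hn : n2 (Q - Q₀) ≤ ρ ^ 2) (hP₀ : P₀.derivative = Q₀)
    (hP₀par : ∀ x, P₀.eval (-x) = (-1) ^ (N + 1) * P₀.eval x) (hP₀1 : Odd N → P₀.eval 1 = 0)
    (hint : Even N → 0 ≤ ∫ x in (-1 : ℝ)..1, Q.eval x)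
    (y : Fin N → ℝ) (hy : StrictMono y)
    (hy1 : ∀ j : Fin N, -1 < y j ∧ y j < 1 ∧ ρ / √2 < (-1) ^ (N + (j : ℕ)) * P₀.eval (y j)) :
    ∃ P : ℝ[X], P.derivative = Q ∧ 0 ≤ P.eval 1 ∧ 0 ≤ (-1) ^ (N + 1) * P.eval (-1) ∧
      (∀ x, P.eval (-x) = (-1) ^ (N + 1) * P.eval x) ∧ (Odd N → P.eval 1 = 0) ∧
      (∀ t, |t| ≤ 1 → |P.eval t - P₀.eval t| ≤ ρ / √2) ∧
      ∀ j : Fin N, -1 < y j ∧ y j < 1 ∧ 0 < (-1) ^ (N + (j : ℕ)) * P.eval (y j) := by
  obtain ⟨P₁, hP₁⟩ := exists_antider Q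
  -- normalisation
  obtain ⟨P, hPd, hPpar, hPodd⟩ : ∃ P : ℝ[X], P.derivative = Q ∧
      (∀ x, P.eval (-x) = (-1) ^ (N + 1) * P.eval x) ∧ (Odd N → P.eval 1 = 0) := by
    rcases Nat.even_or_odd N with he | ho
    · refine ⟨P₁ - C (P₁.eval 0), ?_, ?_, ?_⟩
      · rw [derivative_sub, derivative_C, sub_zero, hP₁]
      · apply par_anti (Q := Q) (by rw [derivative_sub, derivative_C, sub_zero, hP₁]) hQ (c := 0)
        simp
      · intro h
        exact absurd he (Nat.not_even_iff_odd.mpr h)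
    · refine ⟨P₁ - C (P₁.eval 1), ?_, ?_, ?_⟩
      · rw [derivative_sub, derivative_C, sub_zero, hP₁]
      · apply par_anti (Q := Q) (by rw [derivative_sub, derivative_C, sub_zero, hP₁]) hQ (c := 0)
        have : (-1 : ℝ) ^ (N + 1) = 1 := Even.neg_one_pow (Odd.add_one ho)
        rw [this, neg_zero, one_mul]
      · intro _
        simp
  have hs2 : (0 : ℝ) < √2 := by positivity
  have hrpar : ∀ x, (Q - Q₀).eval (-x) = (-1) ^ N * (Q - Q₀).eval x := by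
    intro x
    rw [eval_sub, eval_sub, hQ, hQ₀]
    ring
  -- the distance
  have hdist0 : ∀ t, 0 ≤ t → t ≤ 1 → |P.eval t - P₀.eval t| ≤ ρ / √2 := by
    intro t h0 h1
    have hsq : (P.eval t - P₀.eval t) ^ 2 ≤ n2 (Q - Q₀) / 2 := by
      have hd : (P - P₀).derivative = Q - Q₀ := by rw [derivative_sub, hPd, hP₀]
      rcases Nat.even_or_odd N with he | ho
      · have h2 := half_bound hrpar le_rfl h0 h1
        rw [ftc hd] at h2
        have hm : (-1 : ℝ) ^ (N + 1) = -1 := Odd.neg_one_pow (Even.add_one he)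
        have h3 := hPpar 0
        have h4 := hP₀par 0
        rw [hm, neg_zero] at h3 h4
        have h5 : P.eval 0 = 0 := by linarith
        have h6 : P₀.eval 0 = 0 := by linarith
        rw [eval_sub, eval_sub, h5, h6] at h2
        simpa using h2
      · have h2 := half_bound hrpar h0 h1 le_rfl
        rw [ftc hd, eval_sub, eval_sub, hPodd ho, hP₀1 ho] at h2
        calc (P.eval t - P₀.eval t) ^ 2 = (0 - 0 - (P.eval t - P₀.eval t)) ^ 2 := by ring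
          _ ≤ _ := h2
    apply abs_le_of_sq_le_sq _ (by positivity)
    rw [div_pow, Real.sq_sqrt (by norm_num : (0 : ℝ) ≤ 2)]
    linarith
  have hdist : ∀ t, |t| ≤ 1 → |P.eval t - P₀.eval t| ≤ ρ / √2 := by
    intro t ht
    rcases le_total 0 t with h0 | h0
    · exact hdist0 t h0 ((le_abs_self t).trans ht)
    · have h1 := hdist0 (-t) (by linarith) ((neg_le_abs t).trans ht)
      rw [hPpar, hP₀par, ← mul_sub, abs_mul, abs_pow, abs_neg, abs_one, one_pow, one_mul] at h1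
      exact h1
  have hP1 : 0 ≤ P.eval 1 := by
    rcases Nat.even_or_odd N with he | ho
    · have h1 := hint he
      rw [ftc hPd] at h1
      have hm : (-1 : ℝ) ^ (N + 1) = -1 := Odd.neg_one_pow (Even.add_one he)
      have h3 := hPpar 1
      rw [hm] at h3
      linarith
    · rw [hPodd ho]
  refine ⟨P, hPd, hP1, ?_, hPpar, hPodd, hdist, ?_⟩
  · rw [hPpar 1, ← mul_assoc, ← pow_add, Even.neg_one_pow ⟨N + 1, rfl⟩, one_mul]
    exact hP1
  · intro j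
    obtain ⟨h1, h2, h3⟩ := hy1 j
    refine ⟨h1, h2, ?_⟩
    have h4 := hdist (y j) (abs_le.mpr ⟨h1.le, h2.le⟩)
    have h5 : |(-1 : ℝ) ^ (N + (j : ℕ)) * (P.eval (y j) - P₀.eval (y j))| ≤ ρ / √2 := by
      rw [abs_mul, abs_pow, abs_neg, abs_one, one_pow, one_mul]
      exact h4
    have h6 := (abs_le.mp h5).1
    have h7 : (-1 : ℝ) ^ (N + (j : ℕ)) * P.eval (y j) = (-1) ^ (N + (j : ℕ)) * P₀.eval (y j) +
        (-1) ^ (N + (j : ℕ)) * (P.eval (y j) - P₀.eval (y j)) := by ring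
    rw [h7]
    linarith

/-- `∫_{-1}^x P_N` as a polynomial -/
theorem exists_Phi (leg : S_LEG) {N : ℕ} (hN : 1 ≤ N) : ∃ Φ : ℝ[X], Φ.derivative = LP N ∧
    (∀ t, Φ.eval t = ∫ u in (-1 : ℝ)..t, (LP N).eval u) ∧ Φ.eval 1 = 0 ∧
    (∀ x, Φ.eval (-x) = (-1) ^ (N + 1) * Φ.eval x) := by
  obtain ⟨P, hP⟩ := exists_antider (LP N)
  have hd : (P - C (P.eval (-1))).derivative = LP N := by
    rw [derivative_sub, derivative_C, sub_zero, hP]
  have hm1 : (P - C (P.eval (-1))).eval (-1) = 0 := by simp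
  have h1 : (P - C (P.eval (-1))).eval 1 = 0 := by
    have h2 := leg.2.2.2.1 N 1 (by simp; omega)
    simp only [eval_one, mul_one] at h2
    rw [ftc hd, hm1, sub_zero] at h2
    exact h2
  refine ⟨P - C (P.eval (-1)), hd, ?_, h1, ?_⟩
  · intro t
    rw [ftc hd, hm1, sub_zero]
  · apply par_anti hd (leg.2.2.2.2 N) (c := 1)
    rw [hm1, h1, mul_zero]

/-- the main estimate at the zeros of `LP N` -/
theorem rho_lt {N : ℕ} (hN : 7 ≤ N) :
    (3 / 5 * M N ^ 3 * √(2 / (2 * N + 1))) / √2 < M N * (1 / (N * (N + 1))) := by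
  have hM := M_pos N
  have hN' : (7 : ℝ) ≤ N := by exact_mod_cast hN
  obtain ⟨_, _, h3⟩ := M_bds hN
  have hs : √(2 / (2 * (N : ℝ) + 1)) / √2 ≤ 13 / 50 := by
    rw [div_le_iff₀ (by positivity)]
    apply Real.sqrt_le_iff.mpr ⟨by positivity, ?_⟩
    rw [mul_pow, Real.sq_sqrt (by norm_num : (0 : ℝ) ≤ 2), div_le_iff₀ (by positivity)]
    nlinarith
  have hNN : 0 < (N : ℝ) * (N + 1) := by positivity
  have h4 : 3 / 5 * M N ^ 2 * (13 / 50) < 1 / (N * (N + 1)) := by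
    rw [lt_div_iff₀ hNN]
    calc 3 / 5 * M N ^ 2 * (13 / 50) * (N * (N + 1)) = 39 / 250 * (N * (N + 1) * M N ^ 2) := by ring
      _ ≤ 39 / 250 * (56 * (128 / 429) ^ 2) := by gcongr
      _ < 1 := by norm_num
  calc (3 / 5 * M N ^ 3 * √(2 / (2 * N + 1))) / √2 =
      M N * (3 / 5 * M N ^ 2 * (√(2 / (2 * (N : ℝ) + 1)) / √2)) := by ring
    _ ≤ M N * (3 / 5 * M N ^ 2 * (13 / 50)) := by gcongr
    _ < _ := mul_lt_mul_of_pos_left h4 hM

/-- `N ≥ 7`: the sign pattern and the distance -/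
theorem sp_full (leg : S_LEG) (hpar : S_PAR) (hgen : S_GEN) (hB : S_B) {N : ℕ} {Q : ℝ[X]}
    (hN : 7 ≤ N) (hQ : IsOrth N Q) (ξ : Fin N → ℝ) (hξ : StrictMono ξ)
    (hξ1 : ∀ j : Fin N, -1 < ξ j ∧ ξ j < 1 ∧ (LP N).eval (ξ j) = 0 ∧
      1 / (N * (N + 1)) ≤ (-1) ^ (N + (j : ℕ)) * ∫ x in (-1 : ℝ)..(ξ j), (LP N).eval x) :
    ∃ P : ℝ[X], P.derivative = Q ∧ 0 ≤ P.eval 1 ∧ 0 ≤ (-1) ^ (N + 1) * P.eval (-1) ∧
      (∀ x, P.eval (-x) = (-1) ^ (N + 1) * P.eval x) ∧ (Odd N → P.eval 1 = 0) ∧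
      (∀ t, |t| ≤ 1 → |P.eval t - M N * ∫ u in (-1 : ℝ)..t, (LP N).eval u| ≤
        (3 / 5 * M N ^ 3 * √(2 / (2 * N + 1))) / √2) ∧
      ∀ j : Fin N, -1 < ξ j ∧ ξ j < 1 ∧ 0 < (-1) ^ (N + (j : ℕ)) * P.eval (ξ j) := by
  obtain ⟨Φ, hΦd, hΦi, hΦ1, hΦp⟩ := exists_Phi leg (by omega : 1 ≤ N)
  have hM := M_pos N
  have hs : 0 ≤ 2 / (2 * (N : ℝ) + 1) := by positivity
  have hP₀d : (C (M N) * Φ).derivative = q N := by
    rw [derivative_C_mul, hΦd]; rfl
  have := signpat (N := N) (Q := Q) (Q₀ := q N) (P₀ := C (M N) * Φ)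
    (ρ := 3 / 5 * M N ^ 3 * √(2 / (2 * N + 1))) (by positivity) (hpar N Q (by omega) hQ).2
    (by intro x; rw [q_eval, q_eval, leg.2.2.2.2 N]; ring)
    (by
      rw [mul_pow, Real.sq_sqrt hs]
      calc n2 (Q - q N) ≤ 9 / 25 * M N ^ 6 * (2 / (2 * N + 1)) := hgen N Q hN hQ
        _ = _ := by ring)
    hP₀d
    (by intro x; rw [eval_mul, eval_mul, eval_C, hΦp]; simp only [eval_C]; ring)
    (by intro _; rw [eval_mul, hΦ1, mul_zero])
    (by
      intro he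
      have h8 : 8 ≤ N := by
        rcases he with ⟨k, hk⟩
        omega
      exact (hB N Q he h8 hQ).le)
    ξ hξ
    (by
      intro j
      obtain ⟨h1, h2, h3, h4⟩ := hξ1 j
      refine ⟨h1, h2, (rho_lt hN).trans_le ?_⟩
      rw [eval_mul, eval_C, hΦi]
      calc M N * (1 / (N * (N + 1))) ≤
          M N * ((-1) ^ (N + (j : ℕ)) * ∫ x in (-1 : ℝ)..(ξ j), (LP N).eval x) := by gcongr
        _ = _ := by ring)
  obtain ⟨P, hP⟩ := this
  refine ⟨P, hP.1, hP.2.1, hP.2.2.1, hP.2.2.2.1, hP.2.2.2.2.1, ?_, hP.2.2.2.2.2.2⟩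
  intro t ht
  have := hP.2.2.2.2.2.1 t ht
  rw [eval_mul, eval_C, hΦi] at this
  exact this

theorem sp (leg : S_LEG) (hpar : S_PAR) (hzero : S_ZERO) (hgen : S_GEN) (hB : S_B) : S_SP := by
  intro N Q hN hQ
  obtain ⟨ξ, hξ, hξ1⟩ := hzero N (by omega)
  obtain ⟨P, h⟩ := sp_full leg hpar hgen hB hN hQ ξ hξ hξ1
  exact ⟨P, h.1, h.2.1, h.2.2.1, h.2.2.2.1, h.2.2.2.2.1, ξ, hξ, h.2.2.2.2.2.2⟩

end Pool.Agent.K9h30.AL
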