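import Pool.Agent.K9h30.AL.Stm

/-!
# MP_c605fa_an, Q1: approximate self-orthogonal polynomials of degrees 4, 5, 6 (helper30)
-/

set_option autoImplicit false

open Polynomial intervalIntegral

namespace Pool.Agent.K9h30.AL

noncomputable def Q4 : ℝ[X] := C 5 * X ^ 4 - C (21 / 5) * X ^ 2 + C (41 / 100)
noncomputable def Q5 : ℝ[X] := C 6 * X ^ 5 - C (33 / 5) * X ^ 3 + C (7 / 5) * X
noncomputable def Q6 : ℝ[X] := C 7 * X ^ 6 - C (9524 / 1000) * X ^ 4 + C (3167 / 1000) * X ^ 2 -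
  C (1504 / 10000)

/-- `ρ = .012`, from `S_STAB` with `U = 1.21`, `K = √8`, `δ ≤ .0029` -/
def S_C4 : Prop := ∀ Q : ℝ[X], IsOrth 4 Q → n2 (Q - Q4) ≤ (12 / 1000) ^ 2

/-- `ρ = .02`, from `S_STAB` with `U = 4/5`, `K = √12.5`, `δ ≤ .0085` -/
def S_C5 : Prop := ∀ Q : ℝ[X], IsOrth 5 Q → n2 (Q - Q5) ≤ (2 / 100) ^ 2

/-- `ρ = .0004`, from `S_STAB` with `U = .4926`, `K = √18`, `δ ≤ .00028` -/
def S_C6 : Prop := ∀ Q : ℝ[X], IsOrth 6 Q → n2 (Q - Q6) ≤ (4 / 10000) ^ 2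

end Pool.Agent.K9h30.AL
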