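import Pool.Agent.K9h30.AL.SP
import Pool.Agent.K9h30.AL.Stm3

/-!
# MP_c605fa_an, Q1 for all degrees: sign patterns in the degrees 4, 5, 6 (helper30)
-/

set_option autoImplicit false

open Polynomial intervalIntegral

namespace Pool.Agent.K9h30.AL

theorem int_pos {Q Q₀ P₀ : ℝ[X]} {ρ : ℝ} (hn : n2 (Q - Q₀) ≤ ρ ^ 2) (hρ : 0 ≤ ρ)
    (hP₀ : P₀.derivative = Q₀) (h : √2 * ρ ≤ P₀.eval 1 - P₀.eval (-1)) :
    0 ≤ ∫ x in (-1 : ℝ)..1, Q.eval x := by
  have h1 := cs (cont_eval (Q - Q₀)) (continuous_const (y := (1 : ℝ))) (a := -1) (b := 1)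
    (by norm_num)
  simp only [mul_one, one_pow, integral_const, smul_eq_mul] at h1
  have h2 : ∫ x in (-1 : ℝ)..1, (Q - Q₀).eval x =
      (∫ x in (-1 : ℝ)..1, Q.eval x) - (P₀.eval 1 - P₀.eval (-1)) := by
    rw [← ftc hP₀, ← integral_sub ((cont_eval _).intervalIntegrable _ _)
      ((cont_eval _).intervalIntegrable _ _)]
    apply integral_congr
    intro x _
    simp
  have h3 : (∫ x in (-1 : ℝ)..1, (Q - Q₀).eval x) ^ 2 ≤ (√2 * ρ) ^ 2 := by
    rw [mul_pow, Real.sq_sqrt (by norm_num : (0 : ℝ) ≤ 2)]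
    refine h1.trans ?_
    change n2 (Q - Q₀) * _ ≤ _
    linarith
  have h4 := (abs_le.mp (abs_le_of_sq_le_sq h3 (by positivity))).1
  rw [h2] at h4
  linarith

theorem sqrt2_lt : √2 < 1415 / 1000 := by
  rw [Real.sqrt_lt' (by norm_num)]
  norm_num

theorem lt_sqrt2 : 1414 / 1000 < √2 := by
  rw [Real.lt_sqrt (by norm_num)]
  norm_num

theorem div_sqrt2 {ρ c : ℝ} (hc : 0 < c) (h : ρ ≤ c * (1414 / 1000)) : ρ / √2 < c := by
  rw [div_lt_iff₀ (by positivity)]
  have := lt_sqrt2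
  nlinarith

noncomputable def P4' : ℝ[X] := X ^ 5 - C (7 / 5) * X ^ 3 + C (41 / 100) * X
noncomputable def P5' : ℝ[X] := X ^ 6 - C (33 / 20) * X ^ 4 + C (7 / 10) * X ^ 2 - C (1 / 20)
noncomputable def P6' : ℝ[X] := X ^ 7 - C (9524 / 5000) * X ^ 5 + C (3167 / 3000) * X ^ 3 -
  C (1504 / 10000) * X

theorem P4'_d : P4'.derivative = Q4 := by
  apply Polynomial.funext
  intro x
  simp [P4', Q4]
  ring

theorem P5'_d : P5'.derivative = Q5 := by
  apply Polynomial.funext
  intro x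
  simp [P5', Q5]
  ring

theorem P6'_d : P6'.derivative = Q6 := by
  apply Polynomial.funext
  intro x
  simp [P6', Q6]
  ring

theorem sp4 (hpar : S_PAR) (h4 : S_C4) : S_SP4 := by
  intro Q hQ
  have hn := h4 Q hQ
  have hy : StrictMono (![-(43 / 50), -(17 / 50), 17 / 50, 43 / 50] : Fin 4 → ℝ) := by
    intro i j h
    fin_cases i <;> fin_cases j <;> simp at h ⊢ <;> norm_num
  have := signpat (N := 4) (Q := Q) (Q₀ := Q4) (P₀ := P4') (ρ := 12 / 1000) (by norm_num)
    (hpar 4 Q (by norm_num) hQ).2 (by intro x; simp [Q4]; ring) hn P4'_d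
    (by intro x; simp [P4']; ring) (by intro h; exact absurd h (by decide))
    (by
      intro _
      apply int_pos hn (by norm_num) P4'_d
      have := sqrt2_lt
      simp [P4']
      linarith)
    _ hy
    (by
      intro j
      refine ⟨?_, ?_, ?_⟩
      · fin_cases j <;> simp <;> norm_num
      · fin_cases j <;> simp <;> norm_num
      · refine lt_of_lt_of_le (div_sqrt2 (c := 1 / 100) (by norm_num) (by norm_num)) ?_
        fin_cases j <;> simp [P4'] <;> norm_num)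
  obtain ⟨P, h⟩ := this
  exact ⟨P, h.1, h.2.1, h.2.2.1, h.2.2.2.1, h.2.2.2.2.1, _, hy, h.2.2.2.2.2.2⟩

theorem sp5 (hpar : S_PAR) (h5 : S_C5) : S_SP5 := by
  intro Q hQ
  have hn := h5 Q hQ
  have hy : StrictMono (![-(453 / 500), -(27 / 50), 0, 27 / 50, 453 / 500] : Fin 5 → ℝ) := by
    intro i j h
    fin_cases i <;> fin_cases j <;> simp at h ⊢ <;> norm_num
  have := signpat (N := 5) (Q := Q) (Q₀ := Q5) (P₀ := P5') (ρ := 2 / 100) (by norm_num)
    (hpar 5 Q (by norm_num) hQ).2 (by intro x; simp [Q5]; ring) hn P5'_d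
    (by intro x; simp [P5']; ring) (by intro _; simp [P5']; norm_num)
    (by intro h; exact absurd h (by decide))
    _ hy
    (by
      intro j
      refine ⟨?_, ?_, ?_⟩
      · fin_cases j <;> simp <;> norm_num
      · fin_cases j <;> simp <;> norm_num
      · refine lt_of_lt_of_le (div_sqrt2 (c := 2 / 100) (by norm_num) (by norm_num)) ?_
        fin_cases j <;> simp [P5'] <;> norm_num)
  obtain ⟨P, h⟩ := this
  exact ⟨P, h.1, h.2.1, h.2.2.1, h.2.2.2.1, h.2.2.2.2.1, _, hy, h.2.2.2.2.2.2⟩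

theorem sp6 (hpar : S_PAR) (h6 : S_C6) : S_SP6 := by
  intro Q hQ
  have hn := h6 Q hQ
  have hy : StrictMono (![-(93 / 100), -(33 / 50), -(6 / 25), 6 / 25, 33 / 50, 93 / 100] :
      Fin 6 → ℝ) := by
    intro i j h
    fin_cases i <;> fin_cases j <;> simp at h ⊢ <;> norm_num
  have := signpat (N := 6) (Q := Q) (Q₀ := Q6) (P₀ := P6') (ρ := 4 / 10000) (by norm_num)
    (hpar 6 Q (by norm_num) hQ).2 (by intro x; simp [Q6]; ring) hn P6'_d
    (by intro x; simp [P6']; ring) (by intro h; exact absurd h (by decide))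
    (by
      intro _
      apply int_pos hn (by norm_num) P6'_d
      have := sqrt2_lt
      simp [P6']
      linarith)
    _ hy
    (by
      intro j
      refine ⟨?_, ?_, ?_⟩
      · fin_cases j <;> simp <;> norm_num
      · fin_cases j <;> simp <;> norm_num
      · refine lt_of_lt_of_le (div_sqrt2 (c := 1 / 1000) (by norm_num) (by norm_num)) ?_
        fin_cases j <;> simp [P6'] <;> norm_num)
  obtain ⟨P, h⟩ := this
  exact ⟨P, h.1, h.2.1, h.2.2.1, h.2.2.2.1, h.2.2.2.2.1, _, hy, h.2.2.2.2.2.2⟩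

end Pool.Agent.K9h30.AL
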