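import Pool.Agent.K9h30.AL.Core

/-!
# MP_c605fa_an, Q1 for all degrees: the degrees `N = 0, 1, 2, 3` (helper30)
-/

set_option autoImplicit false

open Polynomial intervalIntegral
open Pool.Agent.Results.MP_c605fa_an.MinArcLength

namespace Pool.Agent.K9h30.AL

theorem good0 : Good 0 1 X ![0] := by
  refine ⟨⟨by simp, by simp, by intro k hk; omega⟩, by simp, by simp, ?_, ?_, ?_, ?_⟩
  · intro i j h
    omega
  · intro i
    fin_cases i
    simp
  · intro t; simp
  · intro h
    exact absurd h (by decide)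

theorem good1 : Good 1 (C 2 * X) (X ^ 2 - 1) ![-1, 1] := by
  refine ⟨⟨?_, ?_, ?_⟩, ?_, ?_, ?_, ?_, ?_, ?_⟩
  · exact natDegree_C_mul_X 2 (by norm_num)
  · rw [leadingCoeff_C_mul_X]
    norm_num
  · intro k hk
    have hk0 : k = 0 := by omega
    subst hk0
    apply odd_int
    intro x
    simp only [eval_mul, eval_C, eval_X, A, pow_zero, one_mul]
    rw [mul_neg, neg_sq, neg_div]
  · apply Polynomial.funext
    intro x
    simp
    norm_num
  · simp [Fin.prod_univ_two]
    ring
  · intro i j h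
    fin_cases i <;> fin_cases j <;> simp at h ⊢
  · intro i
    fin_cases i <;> simp
  · intro t; simp
  · intro _; simp

theorem good2 : ∃ Q P x, Good 2 Q P x := by
  obtain ⟨t, h0, h1, ht⟩ := exists_t
  have hs : √t ≤ 1 := by rw [Real.sqrt_le_one]; exact h1.le
  have hs0 : 0 < √t := Real.sqrt_pos.mpr h0
  have hev : ∀ x : ℝ, (C 3 * X ^ 2 + C 0 * X + C (-t)).eval x = 3 * x ^ 2 - t := by
    intro x; simp; ring
  refine ⟨C 3 * X ^ 2 + C 0 * X + C (-t), X ^ 3 - C t * X, ![-√t, 0, √t], ⟨?_, ?_, ?_⟩,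
    ?_, ?_, ?_, ?_, ?_, ?_⟩
  · exact natDegree_quadratic (by norm_num)
  · rw [leadingCoeff_quadratic (by norm_num)]
    norm_num
  · intro k hk
    simp only [hev, A]
    interval_cases k
    · simp only [pow_zero, one_mul]
      exact ht
    · apply odd_int
      intro x
      have e : (-x) ^ 2 = x ^ 2 := by ring
      rw [e]
      ring
  · apply Polynomial.funext
    intro x
    rw [hev]
    simp
    norm_num
  · rw [Fin.prod_univ_three]
    have e : (C t : ℝ[X]) = C (√t) * C (√t) := by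
      rw [← C_mul, Real.mul_self_sqrt h0.le]
    simp only [Matrix.cons_val_zero, Matrix.cons_val_one, Matrix.cons_val_two, Matrix.tail_cons,
      Matrix.head_cons, C_neg, C_0]
    rw [e]
    ring
  · intro i j h
    fin_cases i <;> fin_cases j <;> simp at h ⊢ <;> linarith
  · intro i
    fin_cases i
    · constructor
      · simpa using hs
      · show -√t ≤ 1
        linarith
    · simp
    · exact ⟨by simpa using (by linarith : (-1 : ℝ) ≤ √t), by simpa using hs⟩
  · intro x; simp; ring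
  · intro h
    exact absurd h (by decide)

/-- `g4 (1/2) > 0` -/
theorem g4_half : 0 < g4 (1 / 2) := by
  unfold g4
  set f : ℝ → ℝ := fun x => x * ((4 * x ^ 3 - 4 * (1 / 2) * x) /
    Real.sqrt (1 + (4 * x ^ 3 - 4 * (1 / 2) * x) ^ 2)) with hf
  have hc : Continuous f := by
    have h1 : Continuous fun x : ℝ => 4 * x ^ 3 - 4 * (1 / 2) * x := by fun_prop
    have h2 : Continuous fun x : ℝ => Real.sqrt (1 + (4 * x ^ 3 - 4 * (1 / 2) * x) ^ 2) := by
      fun_prop
    exact continuous_id.mul (h1.div h2 fun z => (root_pos _).ne')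
  have hi : ∀ a b : ℝ, IntervalIntegrable f MeasureTheory.volume a b :=
    fun a b => hc.intervalIntegrable a b
  have h1 : ∫ x in (-1 : ℝ)..1, f x = (∫ x in (-1 : ℝ)..0, f x) + ∫ x in (0 : ℝ)..1, f x :=
    (integral_add_adjacent_intervals (hi _ _) (hi _ _)).symm
  have h2 : ∫ x in (-1 : ℝ)..0, f x = ∫ x in (0 : ℝ)..1, f x := by
    have h3 := integral_comp_neg f (a := 0) (b := 1)
    rw [neg_zero] at h3
    rw [← h3]
    apply integral_congr
    intro x _
    simp only [hf]
    have e : 4 * (-x) ^ 3 - 4 * (1 / 2) * (-x) = -(4 * x ^ 3 - 4 * (1 / 2) * x) := by ring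
    rw [e, neg_sq, neg_div]
    ring
  have h3 : ∫ x in (0 : ℝ)..1, f x =
      (∫ x in (0 : ℝ)..(22 / 25), f x) + ∫ x in (22 / 25 : ℝ)..1, f x :=
    (integral_add_adjacent_intervals (hi _ _) (hi _ _)).symm
  have h4 : ∫ x in (0 : ℝ)..(22 / 25), (-7 / 250 * x + (-(9 / 5)) * x ^ 2 + (-4 / 25) * x ^ 3 +
      (18 / 5 + 27 / 25) * x ^ 4 + 16 / 25 * x ^ 5 + (-(162 / 25)) * x ^ 6 + (-16 / 25) * x ^ 7 +
      324 / 25 * x ^ 8 + (-(216 / 25)) * x ^ 10) ≤ ∫ x in (0 : ℝ)..(22 / 25), f x := by
    apply integral_mono_on (by norm_num) _ (hi _ _)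
    · intro x hx
      obtain ⟨hx0, hx1⟩ := hx
      have hu1 : 4 * x ^ 3 - 2 * x ≤ 1 := by
        nlinarith [mul_nonneg hx0 hx0, mul_nonneg (mul_nonneg hx0 hx0) (by linarith : 0 ≤ 22 / 25 - x)]
      have hu2 : -2 ≤ 4 * x ^ 3 - 2 * x := by
        have : 0 ≤ x ^ 3 := by positivity
        linarith
      have hub := upper_bound (u := -(4 * x ^ 3 - 2 * x)) (by linarith) (by linarith)
      rw [neg_sq, neg_div] at hub
      have e : f x = x * ((4 * x ^ 3 - 2 * x) / Real.sqrt (1 + (4 * x ^ 3 - 2 * x) ^ 2)) := by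
        simp only [hf]
        norm_num
      rw [e]
      have h5 : -(7 / 250) + 9 / 10 * (4 * x ^ 3 - 2 * x) - (4 * x ^ 3 - 2 * x) ^ 2 / 25 -
          27 / 200 * (4 * x ^ 3 - 2 * x) ^ 3 ≤
          (4 * x ^ 3 - 2 * x) / Real.sqrt (1 + (4 * x ^ 3 - 2 * x) ^ 2) := by
        nlinarith [hub]
      refine le_trans (le_of_eq ?_) (mul_le_mul_of_nonneg_left h5 hx0)
      ring
    · apply Continuous.intervalIntegrable
      fun_prop
  have h5 : ∫ x in (22 / 25 : ℝ)..1, 69 / 100 * x ≤ ∫ x in (22 / 25 : ℝ)..1, f x := by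
    apply integral_mono_on (by norm_num) _ (hi _ _)
    · intro x hx
      obtain ⟨hx0, hx1⟩ := hx
      have e : f x = x * ((4 * x ^ 3 - 2 * x) / Real.sqrt (1 + (4 * x ^ 3 - 2 * x) ^ 2)) := by
        simp only [hf]
        norm_num
      have hu : 96 / 100 ≤ 4 * x ^ 3 - 2 * x := by
        nlinarith [mul_nonneg (sub_nonneg.2 hx0) (sub_nonneg.2 hx0),
          mul_nonneg (mul_nonneg (sub_nonneg.2 hx0) (sub_nonneg.2 hx0)) (sub_nonneg.2 hx0)]
      have h6 : 69 / 100 ≤ (4 * x ^ 3 - 2 * x) / Real.sqrt (1 + (4 * x ^ 3 - 2 * x) ^ 2) := by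
        rw [le_div_iff₀ (root_pos _)]
        set u := 4 * x ^ 3 - 2 * x with hu'
        have h7 : Real.sqrt (1 + u ^ 2) ≤ 100 / 69 * u := by
          apply Real.sqrt_le_iff.mpr
          constructor
          · linarith
          · nlinarith
        linarith
      rw [e]
      have hx' : 0 ≤ x := by linarith
      nlinarith
    · apply Continuous.intervalIntegrable
      fun_prop
  have h6 : -(45 / 1000) ≤ ∫ x in (0 : ℝ)..(22 / 25), (-7 / 250 * x + (-(9 / 5)) * x ^ 2 +
      (-4 / 25) * x ^ 3 + (18 / 5 + 27 / 25) * x ^ 4 + 16 / 25 * x ^ 5 + (-(162 / 25)) * x ^ 6 +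
      (-16 / 25) * x ^ 7 + 324 / 25 * x ^ 8 + (-(216 / 25)) * x ^ 10) := by
    rw [integral_add, integral_add, integral_add, integral_add, integral_add, integral_add,
      integral_add, integral_add, integral_const_mul, integral_const_mul, integral_const_mul,
      integral_const_mul, integral_const_mul, integral_const_mul, integral_const_mul,
      integral_const_mul, integral_const_mul, integral_id, integral_pow, integral_pow, integral_pow,
      integral_pow, integral_pow, integral_pow, integral_pow, integral_pow]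
    · norm_num
    all_goals exact Continuous.intervalIntegrable (by fun_prop) _ _
  have h7 : 77 / 1000 ≤ ∫ x in (22 / 25 : ℝ)..1, 69 / 100 * x := by
    rw [integral_const_mul, integral_id]
    norm_num
  rw [h1, h2, h3]
  linarith

theorem exists_s' : ∃ s : ℝ, 1 / 2 < s ∧ s < 1 ∧ g4 s = 0 := by
  have h := intermediate_value_Icc' (by norm_num : (1 / 2 : ℝ) ≤ 1) g4_cont.continuousOn
  obtain ⟨t, ht, h0⟩ := h ⟨g4_one.le, g4_half.le⟩
  refine ⟨t, lt_of_le_of_ne ht.1 ?_, lt_of_le_of_ne ht.2 ?_, h0⟩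
  · rintro rfl; exact g4_half.ne' h0
  · rintro rfl; exact g4_one.ne h0

theorem good3 : ∃ Q P x, Good 3 Q P x := by
  obtain ⟨s, h0, h1, hs⟩ := exists_s'
  set r := √(2 * s - 1) with hr
  have hr0 : 0 < r := Real.sqrt_pos.mpr (by linarith)
  have hr1 : r < 1 := by
    rw [hr, Real.sqrt_lt' (by norm_num)]
    linarith
  have hrr : r * r = 2 * s - 1 := Real.mul_self_sqrt (by linarith)
  have hev : ∀ x : ℝ, (C 4 * X ^ 3 + C 0 * X ^ 2 + C (-(4 * s)) * X + C 0).eval x =
      4 * x ^ 3 - 4 * s * x := by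
    intro x; simp; ring
  refine ⟨C 4 * X ^ 3 + C 0 * X ^ 2 + C (-(4 * s)) * X + C 0,
    (X ^ 2 - 1) * (X ^ 2 - C (2 * s - 1)), ![-1, -r, r, 1], ⟨?_, ?_, ?_⟩,
    ?_, ?_, ?_, ?_, ?_, ?_⟩
  · exact natDegree_cubic (by norm_num)
  · rw [leadingCoeff_cubic (by norm_num)]
    norm_num
  · intro k hk
    simp only [hev, A]
    have e : ∀ x : ℝ, (4 * (-x) ^ 3 - 4 * s * (-x)) = -(4 * x ^ 3 - 4 * s * x) := fun x => by ring
    interval_cases k
    · apply odd_int
      intro x
      rw [e, neg_sq]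
      ring
    · simp only [pow_one]
      exact hs
    · apply odd_int
      intro x
      rw [e, neg_sq]
      ring
  · apply Polynomial.funext
    intro x
    rw [hev]
    simp
    ring
  · rw [Fin.prod_univ_four]
    have e : (C (2 * s - 1) : ℝ[X]) = C r * C r := by
      rw [← C_mul, hrr]
    simp only [Matrix.cons_val_zero, Matrix.cons_val_one, Matrix.cons_val_two, Matrix.tail_cons,
      Matrix.head_cons, Matrix.cons_val_three, C_neg, C_1]
    rw [e]
    ring
  · intro i j h
    fin_cases i <;> fin_cases j <;> simp at h ⊢ <;> linarith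
  · intro i
    fin_cases i
    · simp
    · constructor
      · show -1 ≤ -r
        linarith
      · show -r ≤ 1
        linarith
    · constructor
      · show -1 ≤ r
        linarith
      · show r ≤ 1
        linarith
    · simp
  · intro x; simp; ring
  · intro _; simp

end Pool.Agent.K9h30.AL
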