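import Mathlib
import Pool.Agent.Results.MP_c605fa_an.MinArcLength

/-!
# MP_c605fa_an, Q1 for all degrees: statements (helper30)

`N = n - 1`. The minimiser over `M_n` is the antiderivative of the polynomial `Q` of degree `N` and
leading coefficient `N + 1` which is orthogonal to all polynomials of degree `< N` for the weight
`1 / √(1 + Q²)`. `Q` is a small perturbation of `(N + 1) / lc N` times the Legendre polynomial.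
Every statement `S_…` is a `Prop`; it has to be proved as a theorem in a file of its own.
-/

set_option autoImplicit false

open Polynomial MeasureTheory intervalIntegral

namespace Pool.Agent.K9h30.AL

/-- `u / √(1 + u²)` -/
noncomputable def A (u : ℝ) : ℝ := u / Real.sqrt (1 + u ^ 2)

/-- the Legendre polynomials (Bonnet recursion) -/
noncomputable def LP : ℕ → ℝ[X]
  | 0 => 1
  | 1 => X
  | (n + 2) => C ((2 * (n : ℝ) + 3) / (n + 2)) * X * LP (n + 1) - C (((n : ℝ) + 1) / (n + 2)) * LP n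

/-- the leading coefficient of `LP n` -/
noncomputable def lc : ℕ → ℝ
  | 0 => 1
  | (n + 1) => (2 * (n : ℝ) + 1) / (n + 1) * lc n

/-- `M N = (N + 1) / lc N`, so that `C (M N) * LP N` has the leading coefficient `N + 1` -/
noncomputable def M (N : ℕ) : ℝ := (N + 1) / lc N

/-- the square of the `L²`-norm over `[-1,1]` -/
noncomputable def n2 (h : ℝ[X]) : ℝ := ∫ x in (-1 : ℝ)..1, h.eval x ^ 2

/-- `Q` has degree `N`, leading coefficient `N + 1`, and is orthogonal to the polynomials of lower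
degree for the weight `1 / √(1 + Q²)`. -/
structure IsOrth (N : ℕ) (Q : ℝ[X]) : Prop where
  deg : Q.natDegree = N
  lead : Q.leadingCoeff = N + 1
  orth : ∀ k < N, ∫ x in (-1 : ℝ)..1, x ^ k * A (Q.eval x) = 0

/-- sign pattern of an antiderivative of `Q` (of degree `N`) -/
def SignPat (N : ℕ) (Q : ℝ[X]) : Prop :=
  ∃ P : ℝ[X], P.derivative = Q ∧ 0 ≤ P.eval 1 ∧ 0 ≤ (-1) ^ (N + 1) * P.eval (-1) ∧
    (∀ x, P.eval (-x) = (-1) ^ (N + 1) * P.eval x) ∧ (Odd N → P.eval 1 = 0) ∧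
    ∃ y : Fin N → ℝ, StrictMono y ∧ ∀ j : Fin N, -1 < y j ∧ y j < 1 ∧
      0 < (-1) ^ (N + (j : ℕ)) * P.eval (y j)

/-- existence (minimise `∫ √(1 + (C (M N) * LP N + r)²)` over the polynomials `r` of degree `< N`;
any polynomial with leading coefficient `N + 1` may be used instead of `C (M N) * LP N`) -/
def S_EX : Prop := ∀ N : ℕ, ∃ Q : ℝ[X], IsOrth N Q

/-- uniqueness (from `MinArcLength.verify`), hence parity: `(-1)^N Q(-x)` also satisfies `IsOrth N` -/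
def S_PAR : Prop := ∀ (N : ℕ) (Q : ℝ[X]), 1 ≤ N → IsOrth N Q →
  (∀ Q' : ℝ[X], IsOrth N Q' → Q' = Q) ∧ ∀ x, Q.eval (-x) = (-1) ^ N * Q.eval x

/-- Legendre facts, part 1 -/
def S_LEG : Prop :=
  (∀ N, (LP N).natDegree = N ∧ (LP N).leadingCoeff = lc N ∧ 0 < lc N) ∧
  (∀ N x, |x| ≤ 1 → |(LP N).eval x| ≤ 1) ∧
  (∀ N, n2 (LP N) = 2 / (2 * N + 1)) ∧
  (∀ (N : ℕ) (h : ℝ[X]), h.natDegree < N → ∫ x in (-1 : ℝ)..1, (LP N).eval x * h.eval x = 0) ∧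
  (∀ N x, (LP N).eval (-x) = (-1) ^ N * (LP N).eval x)

/-- sup norm and `L²`-norm: expand `h` in the Legendre polynomials `LP k`, `k < N`:
`|∑ c_k P_k|² ≤ (∑ c_k² 2/(2k+1)) (∑ (2k+1)/2)`, and `∑_{k<N} (2k+1)/2 = N²/2`. -/
def S_SUP : Prop := ∀ (N : ℕ) (h : ℝ[X]), 1 ≤ N → h.natDegree < N →
  ∀ x : ℝ, |x| ≤ 1 → h.eval x ^ 2 ≤ N ^ 2 / 2 * n2 h

/-- the zeros of the Legendre polynomials and the extrema of `∫_{-1}^x P_N` -/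
def S_ZERO : Prop := ∀ N : ℕ, 1 ≤ N → ∃ ξ : Fin N → ℝ, StrictMono ξ ∧ ∀ j : Fin N,
  -1 < ξ j ∧ ξ j < 1 ∧ (LP N).eval (ξ j) = 0 ∧
    1 / (N * (N + 1)) ≤ (-1) ^ (N + (j : ℕ)) * ∫ x in (-1 : ℝ)..(ξ j), (LP N).eval x

/-- stability. Proof: if `‖d‖ ≥ ρ` let `θ = ρ / ‖d‖ ≤ 1`; `∫ A(Q₀ + θ d) d ≤ ∫ A(Q₀ + d) d = 0` as `A` is
increasing, and `(A(Q₀ + θ d) - A(Q₀)) θ d ≥ κ (θ d)²`, `κ = (1 + (U + K ρ)²)^(-3/2)`, as
`A'(u) = (1 + u²)^(-3/2)`; so `0 ≥ ∫ A(Q₀ + θ d) θ d ≥ κ ρ² - δ ρ > 0`. -/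
def S_STAB : Prop := ∀ (Q₀ d : ℝ[X]) (U K δ ρ : ℝ), 0 ≤ U → 0 ≤ K → 0 ≤ δ → 0 < ρ →
  (∫ x in (-1 : ℝ)..1, A ((Q₀ + d).eval x) * d.eval x = 0) →
  (|∫ x in (-1 : ℝ)..1, A (Q₀.eval x) * d.eval x| ≤ δ * √(n2 d)) →
  (∀ x, |x| ≤ 1 → |Q₀.eval x| ≤ U) → (∀ x, |x| ≤ 1 → |d.eval x| ≤ K * √(n2 d)) →
  δ ^ 2 * (1 + (U + K * ρ) ^ 2) ^ 3 < ρ ^ 2 → √(n2 d) < ρ

/-- the third moment, from Adams' formula (`Pool.Agent.Helper442.DR.adams`):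
`∫ P_{2m}³ = 2 w(m)³ / (w(3m) (6m+1))`, `w(m) = binom(2m,m)/4^m`, `1/(4m) ≤ w(m)² ≤ 1/(2m+1)`. -/
def S_I3 : Prop := ∀ N : ℕ, Even N → 10 ≤ N →
  2 / 5 / (N : ℝ) ^ 2 ≤ ∫ x in (-1 : ℝ)..1, (LP N).eval x ^ 3

/-- explicit integrals for `N = 8`: the exact values are `0.010154…` and `0.020148…` -/
def S_P8 : Prop := (0.0101 : ℝ) ≤ ∫ x in (-1 : ℝ)..1, (LP 8).eval x ^ 3 ∧
  ∫ x in (-1 : ℝ)..1, (LP 8).eval x ^ 4 ≤ 0.0202

/-- the perturbation is small, `N ≥ 7` (from `S_LEG`, `S_SUP`, `S_STAB` with `Q₀ = C (M N) * LP N`,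
`U = M N`, `K = N / √2`, `δ = M³ √(2/(2N+1)) / 2` and `ρ = (3/5) M³ √(2/(2N+1))`) -/
def S_GEN : Prop := ∀ (N : ℕ) (Q : ℝ[X]), 7 ≤ N → IsOrth N Q →
  n2 (Q - C (M N) * LP N) ≤ 9 / 25 * M N ^ 6 * (2 / (2 * N + 1))

/-- `∫ Q > 0` for even `N ≥ 8` -/
def S_B : Prop := ∀ (N : ℕ) (Q : ℝ[X]), Even N → 8 ≤ N → IsOrth N Q →
  0 < ∫ x in (-1 : ℝ)..1, Q.eval x

/-- the sign pattern for `N ≥ 7`, at the zeros of `LP N` -/
def S_SP : Prop := ∀ (N : ℕ) (Q : ℝ[X]), 7 ≤ N → IsOrth N Q → SignPat N Q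

/-- the sign patterns for small `N` -/
def S_SP4 : Prop := ∀ Q : ℝ[X], IsOrth 4 Q → SignPat 4 Q
def S_SP5 : Prop := ∀ Q : ℝ[X], IsOrth 5 Q → SignPat 5 Q
def S_SP6 : Prop := ∀ Q : ℝ[X], IsOrth 6 Q → SignPat 6 Q

/-- from the sign pattern to the zeros -/
def S_ASM : Prop := ∀ (N : ℕ) (Q : ℝ[X]), 1 ≤ N → IsOrth N Q → ∀ P : ℝ[X], P.derivative = Q →
  0 ≤ P.eval 1 → 0 ≤ (-1) ^ (N + 1) * P.eval (-1) →
  ∀ y : Fin N → ℝ, StrictMono y → (∀ j : Fin N, -1 < y j ∧ y j < 1 ∧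
      0 < (-1) ^ (N + (j : ℕ)) * P.eval (y j)) →
  ∃ x : Fin (N + 1) → ℝ, StrictMono x ∧ (∀ i, x i ∈ Set.Icc (-1 : ℝ) 1) ∧
    (∀ j : Fin N, x j.castSucc < y j ∧ y j < x j.succ) ∧ P = ∏ i, (X - C (x i))

end Pool.Agent.K9h30.AL
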